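import Mathlib
import Pool.Agent.N9.AD.Eng

set_option autoImplicit false
set_option linter.unusedSectionVars false

/-! # The chosen integers whose index lies in an adapted set are equidistributed in residue classes -/

open MeasureTheory Filter Set
open scoped ENNReal Topology

namespace Pool.Agent.N9.AD

open Pool.Agent.R528.RM Pool.Agent.N893.SM

/-- the variation of `j r` -/
lemma var_det {ε : ℝ} (hε0 : 0 ≤ ε) (j χ r : ℕ → ℝ)
    (hj : ∀ v, 0 ≤ j v ∧ j v ≤ 1) (hχ : ∀ v, 0 ≤ χ v)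
    (h : ∀ v, 1 ≤ v → |j (v + 1) - j v| ≤ (j (v + 1) - j v) + 2 * χ v) {u₀ : ℕ} (hu₀ : 2 ≤ u₀)
    (hr : ∀ v, u₀ ≤ v → r v ≤ ε) (hr01 : ∀ v, 0 ≤ r v ∧ r v ≤ 1)
    (hanti : ∀ v, 2 ≤ v → r (v + 1) ≤ r v) (n : ℕ) :
    ∑ v ∈ Finset.Icc 1 n, |j (v + 1) * r (v + 1) - j v * r v| ≤
      2 * ε * ∑ v ∈ Finset.Icc 1 n, χ v + u₀ + 1 + ε * j (n + 1) - r (n + 1) := by
  have hχs : ∀ n, 0 ≤ ∑ v ∈ Finset.Icc 1 n, χ v := fun n => Finset.sum_nonneg fun v _ => hχ v
  induction n with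
  | zero =>
    simp only [Finset.Icc_eq_empty_of_lt Nat.zero_lt_one, Finset.sum_empty, mul_zero, zero_add]
    have h1 := (hj 1).1
    have h2 := (hr01 1).2
    have h3 : (0 : ℝ) ≤ u₀ := Nat.cast_nonneg _
    have h4 : 0 ≤ ε * j 1 := mul_nonneg hε0 h1
    linarith
  | succ n ih =>
    rcases Nat.lt_or_ge (n + 1) u₀ with hn | hn
    · have h1 : ∑ v ∈ Finset.Icc 1 (n + 1), |j (v + 1) * r (v + 1) - j v * r v| ≤
          ∑ v ∈ Finset.Icc 1 (n + 1), (1 : ℝ) := by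
        apply Finset.sum_le_sum
        intro v _
        have a1 := hj v
        have a2 := hj (v + 1)
        have a3 := hr01 v
        have a4 := hr01 (v + 1)
        have b1 : 0 ≤ j v * r v := mul_nonneg a1.1 a3.1
        have b2 : j v * r v ≤ 1 := mul_le_one₀ a1.2 a3.1 a3.2
        have b3 : 0 ≤ j (v + 1) * r (v + 1) := mul_nonneg a2.1 a4.1
        have b4 : j (v + 1) * r (v + 1) ≤ 1 := mul_le_one₀ a2.2 a4.1 a4.2
        rw [abs_le]
        constructor <;> linarith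
      rw [Finset.sum_const, Nat.card_Icc, Nat.add_sub_cancel, nsmul_eq_mul, mul_one] at h1
      have h2 : ((n + 1 : ℕ) : ℝ) ≤ u₀ := by exact_mod_cast hn.le
      have h3 := mul_nonneg (mul_nonneg (show (0 : ℝ) ≤ 2 by norm_num) hε0) (hχs (n + 1))
      have h4 : 0 ≤ ε * j (n + 1 + 1) := mul_nonneg hε0 (hj _).1
      have h5 := (hr01 (n + 1 + 1)).2
      linarith
    · rw [Finset.sum_Icc_succ_top (by omega), Finset.sum_Icc_succ_top (by omega)]
      have h1 := h (n + 1) (by omega)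
      have h2 := hanti (n + 1) (by omega)
      have h3 := hr (n + 1 + 1) (by omega)
      have a1 := hj (n + 1)
      have a4 := hr01 (n + 1 + 1)
      have e1 : j (n + 1 + 1) * r (n + 1 + 1) - j (n + 1) * r (n + 1) =
          (j (n + 1 + 1) - j (n + 1)) * r (n + 1 + 1) - j (n + 1) * (r (n + 1) - r (n + 1 + 1)) := by
        ring
      have e2 : |j (n + 1 + 1) * r (n + 1 + 1) - j (n + 1) * r (n + 1)| ≤
          |j (n + 1 + 1) - j (n + 1)| * ε + (r (n + 1) - r (n + 1 + 1)) := by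
        rw [e1]
        refine (abs_sub _ _).trans (add_le_add ?_ ?_)
        · rw [abs_mul, abs_of_nonneg a4.1]
          exact mul_le_mul_of_nonneg_left h3 (abs_nonneg _)
        · rw [abs_mul, abs_of_nonneg a1.1, abs_of_nonneg (by linarith)]
          exact mul_le_of_le_one_left (by linarith) a1.2
      have e3 : |j (n + 1 + 1) - j (n + 1)| * ε ≤
          ((j (n + 1 + 1) - j (n + 1)) + 2 * χ (n + 1)) * ε := mul_le_mul_of_nonneg_right h1 hε0
      nlinarith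

/-- the shift by one residue class -/
lemma shift_det {ε : ℝ} (hε0 : 0 ≤ ε) (hε1 : ε ≤ 1) (j χ r : ℕ → ℝ)
    (hj : ∀ v, 0 ≤ j v ∧ j v ≤ 1) (hχ : ∀ v, 0 ≤ χ v)
    (h : ∀ v, 1 ≤ v → |j (v + 1) - j v| ≤ (j (v + 1) - j v) + 2 * χ v) {u₀ : ℕ} (hu₀ : 2 ≤ u₀)
    (hr : ∀ v, u₀ ≤ v → r v ≤ ε) (hr01 : ∀ v, 0 ≤ r v ∧ r v ≤ 1)
    (hanti : ∀ v, 2 ≤ v → r (v + 1) ≤ r v) (W a x : ℕ) :
    |∑ v ∈ Finset.Icc 1 x, (if v % W = (a + 1) % W then j v * r v else 0) -
      ∑ v ∈ Finset.Icc 1 x, (if v % W = a % W then j v * r v else 0)| ≤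
      2 * ε * ∑ v ∈ Finset.Icc 1 x, χ v + (u₀ + 4) := by
  have hG : ∀ v, 0 ≤ j v * r v ∧ j v * r v ≤ 1 := fun v =>
    ⟨mul_nonneg (hj v).1 (hr01 v).1, mul_le_one₀ (hj v).2 (hr01 v).1 (hr01 v).2⟩
  rcases x with _ | x
  · simp only [Finset.Icc_eq_empty_of_lt Nat.zero_lt_one, Finset.sum_empty, mul_zero, zero_add,
      sub_self, abs_zero]
    positivity
  have hmod : ∀ v : ℕ, (v + 1) % W = (a + 1) % W ↔ v % W = a % W := by
    intro v
    constructor
    · intro h1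
      exact Nat.ModEq.add_right_cancel' 1 h1
    · intro h1
      exact Nat.ModEq.add_right 1 h1
  have e1 : ∑ v ∈ Finset.Icc 1 (x + 1), (if v % W = (a + 1) % W then j v * r v else 0) =
      (if 1 % W = (a + 1) % W then j 1 * r 1 else 0) +
      ∑ v ∈ Finset.Icc 1 x, (if v % W = a % W then j (v + 1) * r (v + 1) else 0) := by
    have f1 : Finset.Icc 1 (x + 1) = Finset.Ico 1 (x + 1 + 1) := by
      ext v
      simp only [Finset.mem_Icc, Finset.mem_Ico]
      omega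
    have f2 : Finset.Icc 1 x = Finset.Ico 1 (x + 1) := by
      ext v
      simp only [Finset.mem_Icc, Finset.mem_Ico]
      omega
    rw [f1, f2, Finset.sum_eq_sum_Ico_succ_bot (by omega),
      ← Finset.sum_Ico_add' (fun v => if v % W = (a + 1) % W then j v * r v else 0) 1 (x + 1) 1]
    simp only [hmod]
  have e2 : ∑ v ∈ Finset.Icc 1 (x + 1), (if v % W = a % W then j v * r v else 0) =
      ∑ v ∈ Finset.Icc 1 x, (if v % W = a % W then j v * r v else 0) +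
      (if (x + 1) % W = a % W then j (x + 1) * r (x + 1) else 0) :=
    Finset.sum_Icc_succ_top (by omega) _
  rw [e1, e2]
  have e3 : |∑ v ∈ Finset.Icc 1 x, (if v % W = a % W then j (v + 1) * r (v + 1) else 0) -
      ∑ v ∈ Finset.Icc 1 x, (if v % W = a % W then j v * r v else 0)| ≤
      ∑ v ∈ Finset.Icc 1 x, |j (v + 1) * r (v + 1) - j v * r v| := by
    rw [← Finset.sum_sub_distrib]
    refine (Finset.abs_sum_le_sum_abs _ _).trans (Finset.sum_le_sum fun v _ => ?_)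
    split_ifs
    · exact le_rfl
    · rw [sub_zero, abs_zero]
      exact abs_nonneg _
  have e4 := var_det hε0 j χ r hj hχ h hu₀ hr hr01 hanti x
  have e5 : ∑ v ∈ Finset.Icc 1 x, χ v ≤ ∑ v ∈ Finset.Icc 1 (x + 1), χ v := by
    rw [Finset.sum_Icc_succ_top (by omega)]
    linarith [hχ (x + 1)]
  have e6 : 2 * ε * ∑ v ∈ Finset.Icc 1 x, χ v ≤ 2 * ε * ∑ v ∈ Finset.Icc 1 (x + 1), χ v :=
    mul_le_mul_of_nonneg_left e5 (by linarith)
  have e7 : ε * j (x + 1) ≤ 1 := mul_le_one₀ hε1 (hj _).1 (hj _).2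
  have e8 := (hr01 (x + 1)).1
  have e9 : |(if 1 % W = (a + 1) % W then j 1 * r 1 else 0)| ≤ 1 := by
    split_ifs
    · rw [abs_of_nonneg (hG 1).1]
      exact (hG 1).2
    · rw [abs_zero]
      exact zero_le_one
  have e10 : |(if (x + 1) % W = a % W then j (x + 1) * r (x + 1) else 0)| ≤ 1 := by
    split_ifs
    · rw [abs_of_nonneg (hG _).1]
      exact (hG _).2
    · rw [abs_zero]
      exact zero_le_one
  have a1 := abs_le.1 (e3.trans e4)
  have a2 := abs_le.1 e9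
  have a3 := abs_le.1 e10
  rw [abs_le]
  constructor <;> linarith

/-- any two residue classes -/
lemma classes_det {ε : ℝ} (hε0 : 0 ≤ ε) (hε1 : ε ≤ 1) (j χ r : ℕ → ℝ)
    (hj : ∀ v, 0 ≤ j v ∧ j v ≤ 1) (hχ : ∀ v, 0 ≤ χ v)
    (h : ∀ v, 1 ≤ v → |j (v + 1) - j v| ≤ (j (v + 1) - j v) + 2 * χ v) {u₀ : ℕ} (hu₀ : 2 ≤ u₀)
    (hr : ∀ v, u₀ ≤ v → r v ≤ ε) (hr01 : ∀ v, 0 ≤ r v ∧ r v ≤ 1)
    (hanti : ∀ v, 2 ≤ v → r (v + 1) ≤ r v) (W x : ℕ) (a b : ℕ) (ha : a < W) (hb : b < W) :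
    |∑ v ∈ Finset.Icc 1 x, (if v % W = a then j v * r v else 0) -
      ∑ v ∈ Finset.Icc 1 x, (if v % W = b then j v * r v else 0)| ≤
      2 * W * (2 * ε * ∑ v ∈ Finset.Icc 1 x, χ v + (u₀ + 4)) := by
  set B : ℝ := 2 * ε * ∑ v ∈ Finset.Icc 1 x, χ v + (u₀ + 4) with hB
  have hB0 : 0 ≤ B := by
    have : 0 ≤ ∑ v ∈ Finset.Icc 1 x, χ v := Finset.sum_nonneg fun v _ => hχ v
    positivity
  set E : ℕ → ℝ := fun a => ∑ v ∈ Finset.Icc 1 x, (if v % W = a % W then j v * r v else 0) with hE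
  have h1 : ∀ i : ℕ, |E i - E 0| ≤ i * B := by
    intro i
    induction i with
    | zero => simp
    | succ i ih =>
      have h2 := shift_det hε0 hε1 j χ r hj hχ h hu₀ hr hr01 hanti W i x
      have h3 : |E (i + 1) - E i| ≤ B := h2
      have a1 := abs_le.1 ih
      have a2 := abs_le.1 h3
      push_cast
      rw [abs_le]
      constructor <;> linarith
  have h2 := h1 a
  have h3 := h1 b
  have e1 : ∀ a, a < W → E a = ∑ v ∈ Finset.Icc 1 x, (if v % W = a then j v * r v else 0) := by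
    intro a ha
    simp only [hE, Nat.mod_eq_of_lt ha]
  rw [← e1 a ha, ← e1 b hb]
  have h4 : (a : ℝ) * B ≤ W * B := mul_le_mul_of_nonneg_right (by exact_mod_cast ha.le) hB0
  have h5 : (b : ℝ) * B ≤ W * B := mul_le_mul_of_nonneg_right (by exact_mod_cast hb.le) hB0
  have a1 := abs_le.1 h2
  have a2 := abs_le.1 h3
  rw [abs_le]
  constructor <;> linarith

variable {Ω : Type} {m0 : MeasurableSpace Ω} {μ : Measure Ω} [IsProbabilityMeasure μ]
  {ℱ : Filtration ℕ m0} {A : ℕ → Set Ω} {T : ℕ → Set Ω}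

/-- the number of the chosen integers in `[1, n]` -/
noncomputable def cnt (A : ℕ → Set Ω) (ω : Ω) (n : ℕ) : ℕ :=
  ∑ i ∈ Finset.Icc 1 n, (A i).indicator (fun _ => (1 : ℕ)) ω

lemma cnt_zero (ω : Ω) : cnt A ω 0 = 0 := by
  unfold cnt
  rw [Finset.Icc_eq_empty_of_lt Nat.zero_lt_one, Finset.sum_empty]

lemma cnt_succ_mem {ω : Ω} {n : ℕ} (h : ω ∈ A (n + 1)) : cnt A ω (n + 1) = cnt A ω n + 1 := by
  unfold cnt
  rw [Finset.sum_Icc_succ_top (by omega), indicator_of_mem h]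

lemma cnt_succ_not {ω : Ω} {n : ℕ} (h : ω ∉ A (n + 1)) : cnt A ω (n + 1) = cnt A ω n := by
  unfold cnt
  rw [Finset.sum_Icc_succ_top (by omega), indicator_of_notMem h, add_zero]

lemma cnt_le_succ (ω : Ω) (n : ℕ) : cnt A ω (n + 1) ≤ cnt A ω n + 1 := by
  by_cases h : ω ∈ A (n + 1)
  · rw [cnt_succ_mem h]
  · rw [cnt_succ_not h]
    omega

lemma cnt_mono (ω : Ω) : Monotone (cnt A ω) := by
  refine monotone_nat_of_le_succ fun n => ?_
  by_cases h : ω ∈ A (n + 1)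
  · rw [cnt_succ_mem h]
    omega
  · rw [cnt_succ_not h]

lemma cnt_le (ω : Ω) (n : ℕ) : cnt A ω n ≤ n := by
  induction n with
  | zero => rw [cnt_zero]
  | succ n ih => exact (cnt_le_succ ω n).trans (by omega)

/-- if `z` is not chosen then `cnt n < n` from `z` on -/
lemma cnt_lt {ω : Ω} {z : ℕ} (hz : 1 ≤ z) (h : ω ∉ A z) {n : ℕ} (hn : z ≤ n) :
    cnt A ω n + 1 ≤ n := by
  induction n, hn using Nat.le_induction with
  | base =>
    obtain ⟨k, rfl⟩ : ∃ k, z = k + 1 := ⟨z - 1, by omega⟩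
    rw [cnt_succ_not h]
    have := cnt_le (A := A) ω k
    omega
  | succ n hn ih =>
    have := cnt_le_succ (A := A) ω n
    omega

lemma cnt_cast (ω : Ω) (n : ℕ) : (cnt A ω n : ℝ) = ∑ i ∈ Finset.Icc 1 n, In A i ω := by
  unfold cnt In
  push_cast
  refine Finset.sum_congr rfl fun i _ => ?_
  by_cases h : ω ∈ A i
  · rw [indicator_of_mem h, indicator_of_mem h, Nat.cast_one]
  · rw [indicator_of_notMem h, indicator_of_notMem h, Nat.cast_zero]

lemma cnt_meas (hA : ∀ n, MeasurableSet[ℱ n] (A n)) (n : ℕ) (k : ℕ) :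
    MeasurableSet[ℱ n] {ω | cnt A ω n = k} := by
  induction n generalizing k with
  | zero =>
    simp only [cnt_zero]
    by_cases hk : 0 = k
    · simp [hk]
    · simp [hk]
  | succ n ih =>
    have h1 : {ω | cnt A ω (n + 1) = k} =
        ({ω | cnt A ω n = k} ∩ (A (n + 1))ᶜ) ∪ (⋃ i ∈ Finset.range k, {ω | cnt A ω n = i ∧ i + 1 = k} ∩ A (n + 1)) := by
      ext ω
      simp only [mem_ofPred_eq, mem_union, mem_inter_iff, mem_compl_iff, mem_iUnion,
        Finset.mem_range]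
      constructor
      · intro h
        by_cases hω : ω ∈ A (n + 1)
        · right
          rw [cnt_succ_mem hω] at h
          exact ⟨cnt A ω n, by omega, ⟨rfl, h⟩, hω⟩
        · left
          rw [cnt_succ_not hω] at h
          exact ⟨h, hω⟩
      · rintro (⟨h1, h2⟩ | ⟨i, hi, ⟨h1, h2⟩, h3⟩)
        · rw [cnt_succ_not h2]
          exact h1
        · rw [cnt_succ_mem h3]
          omega
    rw [h1]
    have hle := ℱ.mono (Nat.le_succ n)
    refine @MeasurableSet.union _ (ℱ (n + 1)) _ _ (((hle _ (ih k))).inter (hA (n + 1)).compl) ?_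
    refine @Finset.measurableSet_biUnion _ _ (ℱ (n + 1)) _ _ fun i hi => ?_
    refine @MeasurableSet.inter _ (ℱ (n + 1)) _ _ ?_ (hA (n + 1))
    by_cases hik : i + 1 = k
    · have h2 : {ω | cnt A ω n = i ∧ i + 1 = k} = {ω | cnt A ω n = i} := by
        ext ω
        simp only [mem_ofPred_eq]
        exact ⟨fun h => h.1, fun h => ⟨h, hik⟩⟩
      rw [h2]
      exact hle _ (ih i)
    · have h2 : {ω | cnt A ω n = i ∧ i + 1 = k} = (∅ : Set Ω) := by
        ext ω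
        simp only [mem_ofPred_eq, mem_empty_iff_false, iff_false]
        exact fun h => hik h.2
      rw [h2]
      exact @MeasurableSet.empty _ (ℱ (n + 1))

/-- the index of the next chosen integer lies in `T` (and is known) -/
def Js (A T : ℕ → Set Ω) (u : ℕ) : Set Ω :=
  {ω | cnt A ω (u - 1) + 1 ≤ u - 1 ∧ ω ∈ T (cnt A ω (u - 1) + 1)}

/-- `u` is chosen and its index lies in `T` -/
def Us (A T : ℕ → Set Ω) (u : ℕ) : Set Ω := {ω | ω ∈ A u ∧ ω ∈ T (cnt A ω u)}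

lemma Js_meas (hA : ∀ n, MeasurableSet[ℱ n] (A n)) (hT : ∀ n, MeasurableSet[ℱ n] (T n)) (u : ℕ) :
    MeasurableSet[ℱ (u - 1)] (Js A T u) := by
  have h1 : Js A T u = ⋃ k ∈ Finset.range (u - 1), {ω | cnt A ω (u - 1) = k} ∩ T (k + 1) := by
    ext ω
    simp only [Js, mem_ofPred_eq, mem_iUnion, Finset.mem_range, mem_inter_iff]
    constructor
    · rintro ⟨h1, h2⟩
      exact ⟨cnt A ω (u - 1), by omega, rfl, h2⟩
    · rintro ⟨k, hk, h1, h2⟩
      rw [h1]
      exact ⟨by omega, h2⟩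
  rw [h1]
  refine @Finset.measurableSet_biUnion _ _ (ℱ (u - 1)) _ _ fun k hk => ?_
  have hk' := Finset.mem_range.1 hk
  exact (cnt_meas hA _ _).inter (ℱ.mono (by omega) _ (hT (k + 1)))

lemma Us_meas (hA : ∀ n, MeasurableSet[ℱ n] (A n)) (hT : ∀ n, MeasurableSet[ℱ n] (T n)) (u : ℕ) :
    MeasurableSet[ℱ u] (Us A T u) := by
  have h1 : Us A T u = A u ∩ ⋃ k ∈ Finset.range (u + 1), {ω | cnt A ω u = k} ∩ T k := by
    ext ω
    simp only [Us, mem_ofPred_eq, mem_iUnion, Finset.mem_range, mem_inter_iff]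
    constructor
    · rintro ⟨h1, h2⟩
      exact ⟨h1, cnt A ω u, by have := cnt_le (A := A) ω u; omega, rfl, h2⟩
    · rintro ⟨h0, k, hk, h1, h2⟩
      rw [h1]
      exact ⟨h0, h2⟩
  rw [h1]
  refine (hA u).inter (@Finset.measurableSet_biUnion _ _ (ℱ u) _ _ fun k hk => ?_)
  have hk' := Finset.mem_range.1 hk
  exact (cnt_meas hA _ _).inter (ℱ.mono (by omega) _ (hT k))

lemma In_cases (S : ℕ → Set Ω) (v : ℕ) (ω : Ω) :
    (ω ∈ S v ∧ In S v ω = 1) ∨ (ω ∉ S v ∧ In S v ω = 0) := by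
  by_cases h : ω ∈ S v
  · left
    exact ⟨h, indicator_of_mem h _⟩
  · right
    exact ⟨h, indicator_of_notMem h _⟩

lemma Js_var (ω : Ω) (v : ℕ) (hv : 1 ≤ v) :
    |In (Js A T) (v + 1) ω - In (Js A T) v ω| ≤
      (In (Js A T) (v + 1) ω - In (Js A T) v ω) + 2 * In (Us A T) v ω := by
  rcases In_cases (Js A T) (v + 1) ω with ⟨h1, h2⟩ | ⟨h1, h2⟩ <;>
  rcases In_cases (Js A T) v ω with ⟨h3, h4⟩ | ⟨h3, h4⟩ <;>
  rcases In_cases (Us A T) v ω with ⟨h5, h6⟩ | ⟨h5, h6⟩ <;>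
  rw [h2, h4, h6] <;> norm_num
  -- the only case: `Js v`, not `Js (v + 1)`, not `Us v`
  apply h5
  obtain ⟨k, rfl⟩ : ∃ k, v = k + 1 := ⟨v - 1, by omega⟩
  simp only [Js, Us, mem_ofPred_eq, Nat.add_sub_cancel] at h1 h3 ⊢
  by_cases hA : ω ∈ A (k + 1)
  · rw [cnt_succ_mem hA]
    exact ⟨hA, h3.2⟩
  · exfalso
    rw [cnt_succ_not hA] at h1
    exact h1 ⟨by omega, h3.2⟩

lemma Us_eq {ω : Ω} {z : ℕ} (hz : 1 ≤ z) (h : ω ∉ A z) {v : ℕ} (hv : z < v) :
    In (Us A T) v ω = In (Js A T) v ω * In A v ω := by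
  obtain ⟨k, rfl⟩ : ∃ k, v = k + 1 := ⟨v - 1, by omega⟩
  have h1 : cnt A ω k + 1 ≤ k := cnt_lt hz h (by omega)
  rcases In_cases A (k + 1) ω with ⟨h2, h3⟩ | ⟨h2, h3⟩
  · rw [h3, mul_one]
    have h4 : ω ∈ Us A T (k + 1) ↔ ω ∈ Js A T (k + 1) := by
      simp only [Js, Us, mem_ofPred_eq, Nat.add_sub_cancel]
      rw [cnt_succ_mem h2]
      exact ⟨fun h => ⟨h1, h.2⟩, fun h => ⟨h2, h.2⟩⟩
    rcases In_cases (Us A T) (k + 1) ω with ⟨h5, h6⟩ | ⟨h5, h6⟩ <;>
    rcases In_cases (Js A T) (k + 1) ω with ⟨h7, h8⟩ | ⟨h7, h8⟩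
    · rw [h6, h8]
    · exact absurd (h4.1 h5) h7
    · exact absurd (h4.2 h7) h5
    · rw [h6, h8]
  · rw [h3, mul_zero]
    exact indicator_of_notMem (fun h => h2 h.1) _

/-- the number of the chosen integers up to `x` with index in `T` -/
lemma Us_sum (ω : Ω) (x : ℕ) :
    ∑ v ∈ Finset.Icc 1 x, In (Us A T) v ω = ∑ k ∈ Finset.Icc 1 (cnt A ω x), In T k ω := by
  induction x with
  | zero => rw [cnt_zero]; simp
  | succ x ih =>
    rw [Finset.sum_Icc_succ_top (by omega), ih]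
    by_cases h : ω ∈ A (x + 1)
    · rw [cnt_succ_mem h, Finset.sum_Icc_succ_top (by omega)]
      congr 1
      unfold In
      by_cases h2 : ω ∈ T (cnt A ω x + 1)
      · rw [indicator_of_mem h2, indicator_of_mem]
        exact ⟨h, by rw [cnt_succ_mem h]; exact h2⟩
      · rw [indicator_of_notMem h2, indicator_of_notMem]
        intro h3
        apply h2
        have := h3.2
        rwa [cnt_succ_mem h] at this
    · rw [cnt_succ_not h]
      have h3 : In (Us A T) (x + 1) ω = 0 := indicator_of_notMem (fun h' => h h'.1) _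
      rw [h3, add_zero]

end Pool.Agent.N9.AD
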