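import Mathlib
import Pool.Agent.N9.AD.Ind

set_option autoImplicit false
set_option linter.unusedSectionVars false

/-! # The index law -/

open MeasureTheory Filter Set
open scoped ENNReal Topology

namespace Pool.Agent.N9.AD

open Pool.Agent.R528.RM Pool.Agent.N893.SM

lemma rhoW_eq (W v : ℕ) : rhoW W v = if Nat.Coprime v W then bb ((W : ℝ) / Nat.totient W) v else 0 := rfl

lemma bb_anti {c : ℝ} (hc : 0 ≤ c) {v : ℕ} (hv : 2 ≤ v) : bb c (v + 1) ≤ bb c v := by
  unfold bb
  apply min_le_min le_rfl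
  have h1 : 0 < Real.log (v : ℝ) := Real.log_pos (by exact_mod_cast hv)
  apply div_le_div_of_nonneg_left hc h1
  apply Real.log_le_log (by positivity)
  push_cast
  linarith

lemma bb_small {c : ℝ} {ε : ℝ} (hε : 0 < ε) : ∃ u₀ : ℕ, 2 ≤ u₀ ∧ ∀ v, u₀ ≤ v → bb c v ≤ ε := by
  have h1 : Tendsto (fun v : ℕ => c / Real.log (v : ℝ)) atTop (𝓝 0) :=
    tendsto_const_nhds.div_atTop (Real.tendsto_log_atTop.comp tendsto_natCast_atTop_atTop)
  obtain ⟨u, hu⟩ := eventually_atTop.1 (h1.eventually (gt_mem_nhds hε))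
  refine ⟨max u 2, le_max_right _ _, fun v hv => ?_⟩
  exact (min_le_right _ _).trans (hu v ((le_max_left _ _).trans hv)).le

variable {Ω : Type} {m0 : MeasurableSpace Ω} {μ : Measure Ω} [IsProbabilityMeasure μ]
  {ℱ : Filtration ℕ m0} {A : ℕ → Set Ω} {T : ℕ → Set Ω}

/-- some positive integer is not chosen -/
theorem not_all (hA : ∀ n, MeasurableSet[ℱ n] (A n)) (W : ℕ)
    (hd : ∀ᵐ ω ∂μ, ∀ ε : ℝ, 0 < ε → ∀ᶠ n : ℕ in atTop,
      |dens μ ℱ A n ω - rhoW W (n + 1)| ≤ ε * rhoW W (n + 1)) :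
    ∀ᵐ ω ∂μ, ∃ z : ℕ, 1 ≤ z ∧ ω ∉ A z := by
  filter_upwards [eng (μ := μ) hA (rhoW W) (fun n => ⟨rhoW_nonneg W n, rhoW_le W n⟩) hd 1
    (fun _ _ _ => 1) (fun _ _ _ => @stronglyMeasurable_const _ _ (ℱ _) _ _)
    (fun _ _ _ => ⟨zero_le_one, le_rfl⟩)] with ω hω
  by_contra hcon
  push Not at hcon
  obtain ⟨C, hC0, hC⟩ := hω 1 one_pos
  obtain ⟨u₀, hu₀, hu⟩ := bb_small (c := (W : ℝ) / Nat.totient W) (show (0 : ℝ) < 1 / 8 by norm_num)
  have h1 : ∀ᶠ N : ℕ in atTop, C * Real.log N ≤ 1 / 8 * N := by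
    have h2 := (Real.isLittleO_log_id_atTop.comp_tendsto
      (tendsto_natCast_atTop_atTop (R := ℝ))).bound (show 0 < 1 / (8 * C) by positivity)
    filter_upwards [h2, eventually_ge_atTop 1] with N hN hN1
    simp only [Function.comp_apply, id_eq, Real.norm_eq_abs] at hN
    rw [abs_of_nonneg (Real.log_natCast_nonneg N), abs_of_nonneg (Nat.cast_nonneg N)] at hN
    calc C * Real.log N ≤ C * (1 / (8 * C) * N) := by gcongr
      _ = 1 / 8 * N := by field_simp
  obtain ⟨N, hN1, hN2, hN3⟩ := (hC.and (h1.and (eventually_ge_atTop (4 * u₀)))).exists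
  have h2 := hN1 u₀ N (by omega) (by simp)
  have h3 : ∑ v ∈ Finset.Ico u₀ N, (1 : ℝ) * In A v ω = N - u₀ := by
    have : ∀ v ∈ Finset.Ico u₀ N, (1 : ℝ) * In A v ω = 1 := by
      intro v hv
      rw [one_mul]
      exact indicator_of_mem (hcon v (by have := (Finset.mem_Ico.1 hv).1; omega)) _
    rw [Finset.sum_congr rfl this, Finset.sum_const, Nat.card_Ico, nsmul_eq_mul, mul_one,
      Nat.cast_sub (by omega)]
  have h4 : ∑ v ∈ Finset.Ico u₀ N, (1 : ℝ) * rhoW W v ≤ 1 / 8 * N := by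
    calc ∑ v ∈ Finset.Ico u₀ N, (1 : ℝ) * rhoW W v ≤ ∑ v ∈ Finset.Ico u₀ N, (1 / 8 : ℝ) := by
          apply Finset.sum_le_sum
          intro v hv
          rw [one_mul, rhoW_eq]
          split_ifs
          · exact hu v (Finset.mem_Ico.1 hv).1
          · norm_num
      _ ≤ 1 / 8 * N := by
          rw [Finset.sum_const, Nat.card_Ico, nsmul_eq_mul]
          have : ((N - u₀ : ℕ) : ℝ) ≤ N := by exact_mod_cast Nat.sub_le _ _
          linarith
  rw [h3] at h2
  have h5 := (abs_le.1 h2).2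
  have h6 : (4 * u₀ : ℝ) ≤ N := by exact_mod_cast hN3
  have h7 : (2 : ℝ) ≤ u₀ := by exact_mod_cast hu₀
  linarith

/-- **the index law**: the chosen integers with index in an adapted set `T` are equidistributed in
the residue classes coprime to `W` -/
theorem index_law (hA : ∀ n, MeasurableSet[ℱ n] (A n)) {W : ℕ} (hW : 0 < W)
    (hcop : ∀ n, ¬ Nat.Coprime n W → A n = ∅)
    (hd : ∀ᵐ ω ∂μ, ∀ ε : ℝ, 0 < ε → ∀ᶠ n : ℕ in atTop,
      |dens μ ℱ A n ω - rhoW W (n + 1)| ≤ ε * rhoW W (n + 1))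
    (hT : ∀ n, MeasurableSet[ℱ n] (T n)) (E : ℕ) :
    ∀ᵐ ω ∂μ, ∀ ε : ℝ, 0 < ε → ∃ C : ℝ, 0 < C ∧ ∀ᶠ N : ℕ in atTop, ∀ x : ℕ, x + 1 ≤ N ^ E →
      ∀ b < W, Nat.Coprime b W →
      |(Nat.totient W : ℝ) * ∑ v ∈ Finset.Icc 1 x, (if v % W = b then In (Us A T) v ω else 0) -
        ∑ v ∈ Finset.Icc 1 x, In (Us A T) v ω| ≤
        ε * ∑ v ∈ Finset.Icc 1 x, In (Us A T) v ω + C * Real.log N := by
  classical
  have hmeas : ∀ b : ℕ, ∀ N v : ℕ, 1 ≤ v → StronglyMeasurable[ℱ (v - 1)]
      (fun ω => if v % W = b then In (Js A T) v ω else 0) := by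
    intro b N v _
    by_cases h : v % W = b
    · simp only [h, if_true]
      exact (@stronglyMeasurable_const _ _ (ℱ (v - 1)) _ _).indicator (Js_meas hA hT v)
    · simp only [h, if_false]
      exact @stronglyMeasurable_const _ _ (ℱ (v - 1)) _ _
  have heng : ∀ᵐ ω ∂μ, ∀ b : ℕ, ∀ ε : ℝ, 0 < ε → ∃ C : ℝ, 0 < C ∧ ∀ᶠ N : ℕ in atTop, ∀ a₁ b₁ : ℕ,
      1 ≤ a₁ → b₁ ≤ N ^ E →
      |∑ v ∈ Finset.Ico a₁ b₁, (if v % W = b then In (Js A T) v ω else 0) * In A v ω -
        ∑ v ∈ Finset.Ico a₁ b₁, (if v % W = b then In (Js A T) v ω else 0) * rhoW W v| ≤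
        ε * ∑ v ∈ Finset.Ico a₁ b₁, (if v % W = b then In (Js A T) v ω else 0) * rhoW W v +
          C * Real.log N := by
    refine ae_all_iff.2 fun b => ?_
    refine eng (μ := μ) hA (rhoW W) (fun n => ⟨rhoW_nonneg W n, rhoW_le W n⟩) hd E
      (fun _ v ω => if v % W = b then In (Js A T) v ω else 0) (hmeas b) ?_
    intro N v ω
    split_ifs
    · exact ⟨In_nonneg _ _, In_le _ _⟩
    · exact ⟨le_rfl, zero_le_one⟩
  filter_upwards [heng, not_all hA W hd] with ω hω hz ε hε
  obtain ⟨z, hz1, hz⟩ := hz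
  set c : ℝ := (W : ℝ) / Nat.totient W with hc
  have hφ : 0 < Nat.totient W := Nat.totient_pos.2 hW
  have hφR : (0 : ℝ) < Nat.totient W := by exact_mod_cast hφ
  have hφ1 : (1 : ℝ) ≤ Nat.totient W := by exact_mod_cast hφ
  have hWR : (1 : ℝ) ≤ W := by exact_mod_cast hW
  have hc0 : 0 ≤ c := by positivity
  -- small parameters
  set η : ℝ := min (1 / 2) (ε / (8 * Nat.totient W * W)) with hη
  have hη0 : 0 < η := by
    rw [hη]
    positivity
  have hη1 : η ≤ 1 / 2 := min_le_left _ _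
  have hηε : 8 * Nat.totient W * W * η ≤ ε := by
    have : η ≤ ε / (8 * Nat.totient W * W) := min_le_right _ _
    rw [le_div_iff₀ (by positivity)] at this
    linarith
  obtain ⟨u₀, hu₀, hu⟩ := bb_small (c := c) hη0
  choose CC hCC0 hCC using fun b => hω b η hη0
  set C₁ : ℝ := ∑ b ∈ Finset.range W, CC b with hC₁
  have hC₁0 : 0 ≤ C₁ := Finset.sum_nonneg fun b _ => (hCC0 b).le
  have hCb : ∀ b < W, CC b ≤ C₁ := fun b hb =>
    Finset.single_le_sum (f := CC) (fun b _ => (hCC0 b).le) (Finset.mem_range.2 hb)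
  refine ⟨Nat.totient W * (4 * (C₁ + 1) + 1), by positivity, ?_⟩
  have hlogN : ∀ᶠ N : ℕ in atTop, (z : ℝ) + 2 * W * (u₀ + 4) ≤ Real.log N :=
    (Real.tendsto_log_atTop.comp tendsto_natCast_atTop_atTop).eventually_ge_atTop _
  have hallb : ∀ᶠ N : ℕ in atTop, ∀ b ∈ Finset.range W, ∀ a₁ b₁ : ℕ, 1 ≤ a₁ → b₁ ≤ N ^ E →
      |∑ v ∈ Finset.Ico a₁ b₁, (if v % W = b then In (Js A T) v ω else 0) * In A v ω -
        ∑ v ∈ Finset.Ico a₁ b₁, (if v % W = b then In (Js A T) v ω else 0) * rhoW W v| ≤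
        η * ∑ v ∈ Finset.Ico a₁ b₁, (if v % W = b then In (Js A T) v ω else 0) * rhoW W v +
          CC b * Real.log N :=
    (Filter.eventually_all_finset (Finset.range W)).2 fun b _ => hCC b
  filter_upwards [hallb, hlogN] with N hN hlog x hx b hb hbW
  have hlog0 : 0 ≤ Real.log N := by
    have : (0 : ℝ) ≤ (z : ℝ) + 2 * W * (u₀ + 4) := by positivity
    linarith
  have hzlog : (z : ℝ) ≤ Real.log N := by
    have : (0 : ℝ) ≤ 2 * W * (u₀ + 4) := by positivity
    linarith
  have hu₀log : 2 * W * ((u₀ : ℝ) + 4) ≤ Real.log N := by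
    have : (0 : ℝ) ≤ z := Nat.cast_nonneg z
    linarith
  have hIcc : Finset.Icc 1 x = Finset.Ico 1 (x + 1) := by
    ext v
    simp only [Finset.mem_Icc, Finset.mem_Ico]
    omega
  set t : ℝ := ∑ v ∈ Finset.Icc 1 x, In (Us A T) v ω with ht
  have ht0 : 0 ≤ t := Finset.sum_nonneg fun v _ => In_nonneg _ _
  set Nb : ℕ → ℝ := fun b => ∑ v ∈ Finset.Icc 1 x, (if v % W = b then In (Us A T) v ω else 0) with hNb
  set Eb : ℕ → ℝ := fun b => ∑ v ∈ Finset.Icc 1 x, (if v % W = b then In (Js A T) v ω * bb c v else 0)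
    with hEb
  have hNb0 : ∀ b, 0 ≤ Nb b := fun b => Finset.sum_nonneg fun v _ => by
    split_ifs
    · exact In_nonneg _ _
    · exact le_rfl
  have hEb0 : ∀ b, 0 ≤ Eb b := fun b => Finset.sum_nonneg fun v _ => by
    split_ifs
    · exact mul_nonneg (In_nonneg _ _) (bb_nonneg hc0 v)
    · exact le_rfl
  -- `t` is the sum over the coprime classes
  have hcopc : ∀ v, Nat.Coprime (v % W) W ↔ Nat.Coprime v W := by
    intro v
    rw [Nat.Coprime, Nat.Coprime, ← Nat.gcd_rec, Nat.gcd_comm]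
  set cl : Finset ℕ := (Finset.range W).filter (fun b => Nat.Coprime b W) with hcl
  have hclcard : (cl.card : ℝ) = Nat.totient W := by
    rw [hcl, Nat.totient]
    congr 2
    ext b
    simp only [Finset.mem_filter, Nat.coprime_comm]
  have htsum : t = ∑ b ∈ cl, Nb b := by
    rw [hNb]
    simp only
    rw [Finset.sum_comm]
    apply Finset.sum_congr rfl
    intro v _
    rw [Finset.sum_ite_eq]
    split_ifs with h
    · rfl
    · apply indicator_of_notMem
      intro h1
      apply h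
      rw [hcl, Finset.mem_filter, Finset.mem_range]
      refine ⟨Nat.mod_lt _ hW, ?_⟩
      rw [hcopc]
      by_contra h2
      have := hcop v h2
      have h3 := h1.1
      rw [this] at h3
      exact h3
  have hNbt : ∀ b ∈ cl, Nb b ≤ t := by
    intro b hb
    rw [htsum]
    exact Finset.single_le_sum (f := Nb) (fun b _ => hNb0 b) hb
  -- `Nb` and `Eb` are close
  have hclose : ∀ b ∈ cl, |Nb b - Eb b| ≤ 2 * η * t + (2 * C₁ + 2) * Real.log N := by
    intro b hb
    have hbW' := (Finset.mem_filter.1 hb)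
    have hb1 := Finset.mem_range.1 hbW'.1
    have g1 := hN b (Finset.mem_range.2 hb1) 1 (x + 1) le_rfl hx
    rw [← hIcc] at g1
    set Ib := ∑ v ∈ Finset.Icc 1 x, (if v % W = b then In (Js A T) v ω else 0) * In A v ω with hIb
    have g2 : ∑ v ∈ Finset.Icc 1 x, (if v % W = b then In (Js A T) v ω else 0) * rhoW W v = Eb b := by
      rw [hEb]
      apply Finset.sum_congr rfl
      intro v _
      split_ifs with h
      · rw [rhoW_eq, if_pos]
        rw [← hcopc, h]
        exact hbW'.2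
      · rw [zero_mul]
    rw [g2] at g1
    have g3 : |Nb b - Ib| ≤ z := by
      rw [hNb, hIb]
      simp only
      rw [← Finset.sum_sub_distrib]
      refine (Finset.abs_sum_le_sum_abs _ _).trans ?_
      calc ∑ v ∈ Finset.Icc 1 x, |(if v % W = b then In (Us A T) v ω else 0) -
            (if v % W = b then In (Js A T) v ω else 0) * In A v ω|
          ≤ ∑ v ∈ Finset.Icc 1 x, (if v ≤ z then (1 : ℝ) else 0) := by
            apply Finset.sum_le_sum
            intro v _
            by_cases hv : v ≤ z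
            · rw [if_pos hv]
              have a1 := In_nonneg (A := Us A T) v ω
              have a2 := In_le (A := Us A T) v ω
              have a3 : 0 ≤ In (Js A T) v ω * In A v ω := mul_nonneg (In_nonneg _ _) (In_nonneg _ _)
              have a4 : In (Js A T) v ω * In A v ω ≤ 1 :=
                mul_le_one₀ (In_le _ _) (In_nonneg _ _) (In_le _ _)
              split_ifs
              · rw [abs_le]
                constructor <;> linarith
              · rw [zero_mul, sub_zero, abs_zero]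
                exact zero_le_one
            · rw [if_neg hv]
              rw [Us_eq hz1 hz (by omega)]
              split_ifs
              · rw [sub_self, abs_zero]
              · rw [zero_mul, sub_zero, abs_zero]
        _ ≤ z := by
            rw [Finset.sum_boole]
            have : (Finset.Icc 1 x).filter (fun v => v ≤ z) ⊆ Finset.Icc 1 z := by
              intro v hv
              rw [Finset.mem_filter, Finset.mem_Icc] at hv
              rw [Finset.mem_Icc]
              exact ⟨hv.1.1, hv.2⟩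
            have h2 := Finset.card_le_card this
            rw [Nat.card_Icc, Nat.add_sub_cancel] at h2
            exact_mod_cast h2
    have g4 : CC b * Real.log N ≤ C₁ * Real.log N := mul_le_mul_of_nonneg_right (hCb b hb1) hlog0
    have a1 := abs_le.1 g1
    have a2 := abs_le.1 g3
    have a3 := hNbt b hb
    have a4 := hEb0 b
    have g5 : η * Eb b ≤ 1 / 2 * Eb b := mul_le_mul_of_nonneg_right hη1 a4
    have g6 : Eb b ≤ 2 * t + 2 * (C₁ + 1) * Real.log N := by linarith
    have g7 : η * Eb b ≤ η * (2 * t + 2 * (C₁ + 1) * Real.log N) :=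
      mul_le_mul_of_nonneg_left g6 hη0.le
    have g8 : η * (2 * (C₁ + 1) * Real.log N) ≤ 1 / 2 * (2 * (C₁ + 1) * Real.log N) :=
      mul_le_mul_of_nonneg_right hη1 (by positivity)
    rw [abs_le]
    constructor <;> nlinarith
  -- the classes are close
  have hcl2 : ∀ b ∈ cl, ∀ b' ∈ cl, |Eb b - Eb b'| ≤ 4 * W * η * t + Real.log N := by
    intro b hb b' hb'
    have hb1 := Finset.mem_range.1 (Finset.mem_filter.1 hb).1
    have hb2 := Finset.mem_range.1 (Finset.mem_filter.1 hb').1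
    have g1 := classes_det hη0.le (by linarith : η ≤ 1) (fun v => In (Js A T) v ω)
      (fun v => In (Us A T) v ω) (fun v => bb c v) (fun v => ⟨In_nonneg _ _, In_le _ _⟩)
      (fun v => In_nonneg _ _) (fun v hv => Js_var ω v hv) hu₀ hu
      (fun v => ⟨bb_nonneg hc0 v, bb_le c v⟩) (fun v hv => bb_anti hc0 hv) W x b b' hb1 hb2
    refine g1.trans ?_
    have g2 : 2 * (W : ℝ) * (2 * η * t + ((u₀ : ℝ) + 4)) = 4 * W * η * t + 2 * W * ((u₀ : ℝ) + 4) := by
      ring
    rw [← ht, g2]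
    linarith
  have hbcl : b ∈ cl := by
    rw [hcl, Finset.mem_filter, Finset.mem_range]
    exact ⟨hb, hbW⟩
  have hfin : |(Nat.totient W : ℝ) * Nb b - t| ≤
      ∑ b' ∈ cl, ((4 * η * t + (4 * C₁ + 4) * Real.log N) + (4 * W * η * t + Real.log N)) := by
    rw [← hclcard, htsum, ← nsmul_eq_mul, ← Finset.sum_const, ← Finset.sum_sub_distrib]
    refine (Finset.abs_sum_le_sum_abs _ _).trans (Finset.sum_le_sum fun b' hb' => ?_)
    rw [← htsum]
    have a1 := abs_le.1 (hclose b hbcl)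
    have a2 := abs_le.1 (hclose b' hb')
    have a3 := abs_le.1 (hcl2 b hbcl b' hb')
    rw [abs_le]
    constructor <;> linarith
  refine hfin.trans ?_
  rw [Finset.sum_const, nsmul_eq_mul, hclcard]
  have g1 : 4 * η * t ≤ 4 * W * η * t := by
    have : 0 ≤ η * t := by positivity
    nlinarith
  have g2 : (Nat.totient W : ℝ) * (8 * W * η * t) ≤ ε * t := by
    calc (Nat.totient W : ℝ) * (8 * W * η * t) = 8 * Nat.totient W * W * η * t := by ring
      _ ≤ ε * t := mul_le_mul_of_nonneg_right hηε ht0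
  calc (Nat.totient W : ℝ) * ((4 * η * t + (4 * C₁ + 4) * Real.log N) + (4 * W * η * t + Real.log N))
      ≤ (Nat.totient W : ℝ) * (8 * W * η * t + (4 * C₁ + 4 + 1) * Real.log N) := by
        apply mul_le_mul_of_nonneg_left _ hφR.le
        linarith
    _ = (Nat.totient W : ℝ) * (8 * W * η * t) +
        (Nat.totient W : ℝ) * (4 * (C₁ + 1) + 1) * Real.log N := by ring
    _ ≤ ε * t + (Nat.totient W : ℝ) * (4 * (C₁ + 1) + 1) * Real.log N := by linarith

end Pool.Agent.N9.AD
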