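import Mathlib
import Pool.Agent.N9.AD.Comp
import Pool.Agent.R528.RM.TupQ

set_option autoImplicit false
set_option linter.unusedSectionVars false

/-! # Counting the iterated indices -/

open MeasureTheory Filter Set
open scoped ENNReal Topology

namespace Pool.Agent.N9.AD

open Pool.Agent.R528.RM Pool.Agent.N893.SM

variable {Ω : Type} {m0 : MeasurableSpace Ω} {μ : Measure Ω} [IsProbabilityMeasure μ]
  {ℱ : Filtration ℕ m0} {A : ℕ → Set Ω}

/-- the number of the chosen integers -/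
theorem cnt_law (hA : ∀ n, MeasurableSet[ℱ n] (A n)) (Q : Finset ℕ) (hQ : ∀ p ∈ Q, p.Prime)
    (hcop : ∀ n, (∃ p ∈ Q, p ∣ n) → A n = ∅)
    (hd : ∀ᵐ ω ∂μ, Tendsto (fun n : ℕ => dens μ ℱ A n ω * Real.log n)
      (atTop ⊓ 𝓟 {n : ℕ | ∀ p ∈ Q, ¬ p ∣ n + 1}) (𝓝 (∏ p ∈ Q, (1 - 1 / (p : ℝ))⁻¹))) :
    ∀ᵐ ω ∂μ, Tendsto (fun x : ℕ => (cnt A ω x : ℝ) * Real.log x / x) atTop (𝓝 1) := by
  filter_upwards [tup_sieved (μ := μ) hA Q hQ hcop hd] with ω hω
  have h1 : singH Q {0} = 1 := by
    unfold singH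
    apply Finset.prod_eq_one
    intro p hp
    have h2 : occ {0} p = 1 := by
      unfold occ
      simp
    have h3 : (2 : ℝ) ≤ p := by exact_mod_cast (hQ p hp).two_le
    have h4 : (1 : ℝ) - 1 / p ≠ 0 := by
      have : 1 / (p : ℝ) ≤ 1 / 2 := one_div_le_one_div_of_le (by norm_num) h3
      linarith
    rw [h2, Finset.card_singleton, pow_one, Nat.cast_one, div_self h4]
  rw [Metric.tendsto_atTop]
  intro ε hε
  obtain ⟨x₀, hx₀⟩ := eventually_atTop.1 (hω 1 (ε / 2) (by positivity))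
  refine ⟨x₀, fun x hx => ?_⟩
  have h2 := hx₀ x hx {0} (by simp) (by simp)
  rw [h1, pow_one] at h2
  have h3 : TN A (rhoW (∏ p ∈ Q, p)) x {0} ∅ ω = cnt A ω x := by
    rw [cnt_cast]
    unfold TN
    have hIcc : Finset.Icc 1 x = Finset.Ico 1 (x + 1) := by
      ext v
      simp only [Finset.mem_Icc, Finset.mem_Ico]
      omega
    rw [hIcc, Finset.sum_Ico_eq_sum_range]
    apply Finset.sum_congr rfl
    intro n _
    simp [add_comm]
  rw [h3] at h2
  rw [Real.dist_eq]
  linarith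

/-- the iterated indices: `Ch A 0 = A`, `v` belongs to `Ch A (a + 1)` if it is chosen and its index
belongs to `Ch A a` -/
def Ch (A : ℕ → Set Ω) : ℕ → ℕ → Set Ω
  | 0 => A
  | a + 1 => Us A (Ch A a)

lemma Ch_meas (hA : ∀ n, MeasurableSet[ℱ n] (A n)) (a : ℕ) : ∀ n, MeasurableSet[ℱ n] (Ch A a n) := by
  induction a with
  | zero => exact hA
  | succ a ih => exact Us_meas hA ih

/-- the number of the elements of `Ch A a` up to `x` -/
noncomputable def ct (A : ℕ → Set Ω) (ω : Ω) (a x : ℕ) : ℝ := ∑ v ∈ Finset.Icc 1 x, In (Ch A a) v ω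

lemma ct_succ (ω : Ω) (a x : ℕ) : ct A ω (a + 1) x = ct A ω a (cnt A ω x) := Us_sum ω x

lemma ct_zero (ω : Ω) (x : ℕ) : ct A ω 0 x = cnt A ω x := (cnt_cast ω x).symm

lemma cnt_tendsto {ω : Ω} (h : Tendsto (fun x : ℕ => (cnt A ω x : ℝ) * Real.log x / x) atTop (𝓝 1)) :
    Tendsto (cnt A ω) atTop atTop ∧
    Tendsto (fun x : ℕ => Real.log x / Real.log (cnt A ω x)) atTop (𝓝 1) := by
  have hlog : Tendsto (fun N : ℕ => Real.log (N : ℝ)) atTop atTop :=
    Real.tendsto_log_atTop.comp tendsto_natCast_atTop_atTop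
  -- `log (cnt x) / log x → 1`
  have h1 : Tendsto (fun x : ℕ => Real.log ((cnt A ω x : ℝ) * Real.log x / x)) atTop (𝓝 0) := by
    have := h.log one_ne_zero
    rwa [Real.log_one] at this
  have hll : Tendsto (fun x : ℕ => Real.log (Real.log (x : ℝ)) / Real.log x) atTop (𝓝 0) := by
    have h2 := Real.isLittleO_log_id_atTop.tendsto_div_nhds_zero
    exact h2.comp hlog
  have h3 : Tendsto (fun x : ℕ => 1 - Real.log (Real.log (x : ℝ)) / Real.log x +
      Real.log ((cnt A ω x : ℝ) * Real.log x / x) / Real.log x) atTop (𝓝 (1 - 0 + 0)) :=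
    (hll.const_sub 1).add (h1.div_atTop hlog)
  have hev : ∀ᶠ x : ℕ in atTop, 0 < (cnt A ω x : ℝ) * Real.log x / x :=
    h.eventually (lt_mem_nhds one_pos)
  have h4 : Tendsto (fun x : ℕ => Real.log (cnt A ω x) / Real.log x) atTop (𝓝 1) := by
    rw [show (1 : ℝ) = 1 - 0 + 0 by norm_num]
    refine h3.congr' ?_
    filter_upwards [hev, hlog.eventually_gt_atTop 0, eventually_gt_atTop 0] with x hx1 hx2 hx3
    have hx : (0 : ℝ) < x := by exact_mod_cast hx3
    have hc : (0 : ℝ) < cnt A ω x := by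
      have h5 : 0 < (cnt A ω x : ℝ) * Real.log x := by
        rw [div_pos_iff_of_pos_right hx] at hx1
        exact hx1
      exact (pos_iff_pos_of_mul_pos h5).2 hx2
    rw [Real.log_div (by positivity) hx.ne', Real.log_mul hc.ne' hx2.ne']
    field_simp
    ring
  constructor
  · have h5 : Tendsto (fun x : ℕ => Real.log (cnt A ω x) / Real.log x * Real.log x) atTop atTop :=
      h4.pos_mul_atTop one_pos hlog
    have h6 : Tendsto (fun x : ℕ => Real.log (cnt A ω x : ℝ)) atTop atTop := by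
      refine h5.congr' ?_
      filter_upwards [hlog.eventually_gt_atTop 0] with x hx
      field_simp
    have h7 : Tendsto (fun x : ℕ => (cnt A ω x : ℝ)) atTop atTop := by
      refine tendsto_atTop_mono (fun x => ?_) h6
      exact (Real.log_le_self (Nat.cast_nonneg _))
    exact tendsto_natCast_atTop_iff.1 h7
  · have h5 := h4.inv₀ one_ne_zero
    rw [inv_one] at h5
    refine h5.congr fun x => ?_
    rw [inv_div]

theorem ct_law {ω : Ω} (h : Tendsto (fun x : ℕ => (cnt A ω x : ℝ) * Real.log x / x) atTop (𝓝 1))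
    (a : ℕ) : Tendsto (fun x : ℕ => ct A ω a x * Real.log x ^ (a + 1) / x) atTop (𝓝 1) := by
  obtain ⟨hc1, hc2⟩ := cnt_tendsto h
  have hlog : Tendsto (fun N : ℕ => Real.log (N : ℝ)) atTop atTop :=
    Real.tendsto_log_atTop.comp tendsto_natCast_atTop_atTop
  induction a with
  | zero =>
    refine h.congr fun x => ?_
    rw [ct_zero, zero_add, pow_one]
  | succ a ih =>
    have h1 := ((ih.comp hc1).mul h).mul (hc2.pow (a + 1))
    rw [one_pow, mul_one, mul_one] at h1
    refine h1.congr' ?_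
    filter_upwards [hc1.eventually_ge_atTop 2, hlog.eventually_gt_atTop 0, eventually_gt_atTop 0]
      with x hx1 hx2 hx3
    have hx : (0 : ℝ) < x := by exact_mod_cast hx3
    have hc : (2 : ℝ) ≤ cnt A ω x := by exact_mod_cast hx1
    have hlc : 0 < Real.log (cnt A ω x) := Real.log_pos (by linarith)
    simp only [Function.comp_apply]
    rw [ct_succ]
    have hc0 : (cnt A ω x : ℝ) ≠ 0 := by linarith
    rw [div_pow]
    field_simp
    ring

end Pool.Agent.N9.AD
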