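import Mathlib
import Pool.Agent.N9.AD.Cnt

set_option autoImplicit false
set_option linter.unusedSectionVars false

/-! # Sums of an iterated index and a chosen integer -/

open MeasureTheory Filter Set
open scoped ENNReal Topology

namespace Pool.Agent.N9.AD

open Pool.Agent.R528.RM Pool.Agent.N893.SM

variable {Ω : Type} {m0 : MeasurableSpace Ω} {μ : Measure Ω} [IsProbabilityMeasure μ]
  {ℱ : Filtration ℕ m0} {A : ℕ → Set Ω}

lemma Us_univ : Us A (fun _ => univ) = A := by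
  funext v
  ext ω
  simp [Us]

/-- the local factor is bounded -/
lemma singQ_bounds (Q : Finset ℕ) (hQ : ∀ p ∈ Q, p.Prime) (N : ℕ) :
    0 ≤ singQ Q N ∧ singQ Q N ≤ 4 ^ Q.card ∧
      ((2 ∉ Q ∨ Even N) → 1 / ((∏ p ∈ Q, p : ℕ) : ℝ) ≤ singQ Q N) := by
  unfold singQ
  have hfac : ∀ p ∈ Q, 0 ≤ (1 - (if p ∣ N then 1 else 2 : ℝ) / p) / (1 - 1 / (p : ℝ)) ^ 2 ∧
      (1 - (if p ∣ N then 1 else 2 : ℝ) / p) / (1 - 1 / (p : ℝ)) ^ 2 ≤ 4 := by
    intro p hp
    have hp2 : (2 : ℝ) ≤ p := by exact_mod_cast (hQ p hp).two_le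
    have e0 : 1 / (p : ℝ) ≤ 1 / 2 := one_div_le_one_div_of_le (by norm_num) hp2
    have e1 : 1 / 4 ≤ (1 - 1 / (p : ℝ)) ^ 2 := by nlinarith
    have e2 : (0 : ℝ) ≤ (if p ∣ N then 1 else 2 : ℝ) / p := by split_ifs <;> positivity
    have e3 : (if p ∣ N then 1 else 2 : ℝ) / p ≤ 1 := by
      rw [div_le_one (by linarith)]
      split_ifs <;> linarith
    constructor
    · apply div_nonneg <;> linarith
    · rw [div_le_iff₀ (by linarith)]
      linarith
  refine ⟨Finset.prod_nonneg fun p hp => (hfac p hp).1, ?_, ?_⟩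
  · rw [← Finset.prod_const]
    exact Finset.prod_le_prod (fun p hp => (hfac p hp).1) (fun p hp => (hfac p hp).2)
  · intro h
    have e1 : 1 / ((∏ p ∈ Q, p : ℕ) : ℝ) = ∏ p ∈ Q, 1 / (p : ℝ) := by
      push_cast
      rw [Finset.prod_div_distrib, Finset.prod_const_one]
    rw [e1]
    apply Finset.prod_le_prod
    · intro p _
      positivity
    · intro p hp
      have hp2 : (2 : ℝ) ≤ p := by exact_mod_cast (hQ p hp).two_le
      have hp0 : (0 : ℝ) < p := by linarith
      have e0 : 1 / (p : ℝ) ≤ 1 / 2 := one_div_le_one_div_of_le (by norm_num) hp2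
      have e00 : 0 < 1 / (p : ℝ) := by positivity
      have e2 : 1 / (p : ℝ) ≤ 1 - (if p ∣ N then 1 else 2 : ℝ) / p := by
        rcases Nat.lt_or_ge 2 p with h3 | h3
        · have h4 : (3 : ℝ) ≤ p := by exact_mod_cast h3
          have h5 : (if p ∣ N then 1 else 2 : ℝ) / p ≤ 2 / p := by
            apply div_le_div_of_nonneg_right _ hp0.le
            split_ifs <;> norm_num
          have h6 : 1 / (p : ℝ) + 2 / p ≤ 1 := by
            rw [← add_div, div_le_one hp0]
            linarith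
          linarith
        · have h4 : p = 2 := le_antisymm h3 (hQ p hp).two_le
          subst h4
          rcases h with h | h
          · exact absurd hp h
          · rw [if_pos h.two_dvd]
            norm_num
      have e4 : (1 - 1 / (p : ℝ)) ^ 2 ≤ 1 := by nlinarith
      have e5 : 1 / (p : ℝ) * (1 - 1 / (p : ℝ)) ^ 2 ≤ 1 / p := mul_le_of_le_one_right e00.le e4
      rw [le_div_iff₀ (by nlinarith)]
      linarith

/-- **the law for the iterated indices** -/
theorem ab_law (hA : ∀ n, MeasurableSet[ℱ n] (A n)) (Q : Finset ℕ) (hQ : ∀ p ∈ Q, p.Prime)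
    (hcop : ∀ n, (∃ p ∈ Q, p ∣ n) → A n = ∅)
    (hd : ∀ᵐ ω ∂μ, Tendsto (fun n : ℕ => dens μ ℱ A n ω * Real.log n)
      (atTop ⊓ 𝓟 {n : ℕ | ∀ p ∈ Q, ¬ p ∣ n + 1}) (𝓝 (∏ p ∈ Q, (1 - 1 / (p : ℝ))⁻¹))) :
    ∀ᵐ ω ∂μ, ∀ a : ℕ, ∀ ε : ℝ, 0 < ε → ∃ K : ℝ, 0 < K ∧ ∀ᶠ N : ℕ in atTop, ∀ x : ℕ, 2 ≤ x → 2 * x < N →
      |∑ s ∈ Finset.Icc 1 x, In (Ch A a) s ω * In A (N - s) ω -
        singQ Q N * (x / (Real.log x ^ (a + 1) * Real.log N))| ≤
        ε * (x / (Real.log x ^ (a + 1) * Real.log N)) + K * Real.log N := by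
  have hlaw : ∀ᵐ ω ∂μ, ∀ a : ℕ, ∀ ε : ℝ, 0 < ε → ∃ C : ℝ, 0 < C ∧ ∀ᶠ N : ℕ in atTop, ∀ x : ℕ, 2 * x < N →
      |∑ s ∈ Finset.Icc 1 x, In (Ch A a) s ω * In A (N - s) ω -
        singQ Q N * (∑ s ∈ Finset.Icc 1 x, In (Ch A a) s ω) / Real.log N| ≤
        ε * ((∑ s ∈ Finset.Icc 1 x, In (Ch A a) s ω) / Real.log N) + C * Real.log N := by
    refine ae_all_iff.2 fun a => ?_
    rcases a with _ | a
    · have h := main_law (μ := μ) (T := fun _ => univ) hA Q hQ hcop hd
        (fun n => @MeasurableSet.univ _ (ℱ n))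
      rw [Us_univ] at h
      exact h
    · exact main_law (μ := μ) (T := Ch A a) hA Q hQ hcop hd (Ch_meas hA a)
  filter_upwards [hlaw, cnt_law (μ := μ) hA Q hQ hcop hd] with ω hω1 hω2 a ε hε
  have hct := ct_law hω2 a
  set G : ℝ := 4 ^ Q.card with hG
  have hG1 : 1 ≤ G := one_le_pow₀ (by norm_num)
  set η : ℝ := min 1 (ε / (4 * G)) with hη
  have hη0 : 0 < η := by positivity
  have hη1 : η ≤ 1 := min_le_left _ _
  have hηε : 4 * G * η ≤ ε := by
    have : η ≤ ε / (4 * G) := min_le_right _ _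
    rw [le_div_iff₀ (by positivity)] at this
    linarith
  obtain ⟨C, hC0, hC⟩ := hω1 a η hη0
  -- `ct` against `x / log ^ (a + 1) x`
  have hev : ∀ᶠ x : ℕ in atTop, |ct A ω a x - x / Real.log x ^ (a + 1)| ≤
      η * (x / Real.log x ^ (a + 1)) := by
    filter_upwards [hct.eventually (gt_mem_nhds (show (1 : ℝ) < 1 + η by linarith)),
      hct.eventually (lt_mem_nhds (show 1 - η < (1 : ℝ) by linarith)), eventually_ge_atTop 2]
      with x h1 h2 h3
    have hx : (2 : ℝ) ≤ x := by exact_mod_cast h3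
    have hx0 : (0 : ℝ) < x := by linarith
    have hl : 0 < Real.log (x : ℝ) := Real.log_pos (by linarith)
    have hlp : 0 < Real.log (x : ℝ) ^ (a + 1) := by positivity
    rw [div_lt_iff₀ hx0] at h1
    rw [lt_div_iff₀ hx0] at h2
    have e1 : ct A ω a x = ct A ω a x * Real.log x ^ (a + 1) / Real.log x ^ (a + 1) := by
      field_simp
    rw [e1, ← sub_div, abs_div, abs_of_pos hlp, ← mul_div_assoc]
    apply div_le_div_of_nonneg_right _ hlp.le
    rw [abs_le]
    constructor <;> linarith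
  obtain ⟨x₀, hx₀⟩ := eventually_atTop.1 hev
  set M : ℝ := ∑ x ∈ Finset.range x₀, |ct A ω a x - x / Real.log x ^ (a + 1)| with hM
  have hM0 : 0 ≤ M := Finset.sum_nonneg fun _ _ => abs_nonneg _
  have hall : ∀ x : ℕ, 2 ≤ x → |ct A ω a x - x / Real.log x ^ (a + 1)| ≤
      η * (x / Real.log x ^ (a + 1)) + M := by
    intro x hx2
    have hx : (2 : ℝ) ≤ x := by exact_mod_cast hx2
    have hl : 0 < Real.log (x : ℝ) := Real.log_pos (by linarith)
    rcases Nat.lt_or_ge x x₀ with h | h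
    · have h1 := Finset.single_le_sum
        (f := fun x : ℕ => |ct A ω a x - x / Real.log (x : ℝ) ^ (a + 1)|)
        (fun _ _ => abs_nonneg _) (Finset.mem_range.2 h)
      have h2 : 0 ≤ η * (x / Real.log x ^ (a + 1)) := by positivity
      linarith
    · have := hx₀ x h
      linarith
  have hlog : Tendsto (fun N : ℕ => Real.log (N : ℝ)) atTop atTop :=
    Real.tendsto_log_atTop.comp tendsto_natCast_atTop_atTop
  refine ⟨C + (G + 1) * M + 1, by positivity, ?_⟩
  filter_upwards [hC, hlog.eventually_ge_atTop 1] with N h1 h2 x hx2 hx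
  have hx' : (2 : ℝ) ≤ x := by exact_mod_cast hx2
  have hl : 0 < Real.log (x : ℝ) := Real.log_pos (by linarith)
  have hlN : 0 < Real.log (N : ℝ) := by linarith
  have h3 := h1 x hx
  have h4 := hall x hx2
  obtain ⟨hs0, hs1, _⟩ := singQ_bounds Q hQ N
  have hdef : ∑ s ∈ Finset.Icc 1 x, In (Ch A a) s ω = ct A ω a x := rfl
  rw [hdef] at h3
  set t := ct A ω a x with ht
  set X : ℝ := x / Real.log x ^ (a + 1) with hX
  have hX0 : 0 ≤ X := by positivity
  have e1 : (x : ℝ) / (Real.log x ^ (a + 1) * Real.log N) = X / Real.log N := by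
    rw [hX, div_div]
  rw [e1]
  have h5 := abs_le.1 h4
  have h6 : |singQ Q N * t / Real.log N - singQ Q N * (X / Real.log N)| ≤
      G * (η * (X / Real.log N) + M) := by
    have e2 : singQ Q N * t / Real.log N - singQ Q N * (X / Real.log N) =
        singQ Q N * ((t - X) / Real.log N) := by ring
    rw [e2, abs_mul, abs_of_nonneg hs0, abs_div, abs_of_pos hlN]
    apply mul_le_mul hs1 _ (by positivity) (by positivity)
    rw [div_le_iff₀ hlN]
    refine h4.trans ?_
    have e3 : (η * (X / Real.log N) + M) * Real.log N = η * X + M * Real.log N := by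
      field_simp
    rw [e3]
    nlinarith
  have hτ0 : 0 ≤ X / Real.log N := by positivity
  have h7 : t / Real.log N ≤ 2 * (X / Real.log N) + M := by
    rw [div_le_iff₀ hlN]
    have e3 : (2 * (X / Real.log N) + M) * Real.log N = 2 * X + M * Real.log N := by
      field_simp
    rw [e3]
    nlinarith
  have h8 : η * (t / Real.log N) ≤ 2 * G * η * (X / Real.log N) + M := by
    calc η * (t / Real.log N) ≤ η * (2 * (X / Real.log N) + M) :=
          mul_le_mul_of_nonneg_left h7 hη0.le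
      _ = 2 * (η * (X / Real.log N)) + η * M := by ring
      _ ≤ 2 * G * η * (X / Real.log N) + M := by
          have g1 : 0 ≤ η * (X / Real.log N) := by positivity
          nlinarith
  have h9 : 4 * G * η * (X / Real.log N) ≤ ε * (X / Real.log N) :=
    mul_le_mul_of_nonneg_right hηε hτ0
  have h10 : (G + 1) * M ≤ (G + 1) * M * Real.log N := le_mul_of_one_le_right (by positivity) h2
  have h11 : (C + (G + 1) * M + 1) * Real.log N =
      C * Real.log N + (G + 1) * M * Real.log N + Real.log N := by ring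
  rw [h11]
  have a1 := abs_le.1 h3
  have a2 := abs_le.1 h6
  have g1 : 0 ≤ G * η * (X / Real.log N) := by positivity
  rw [abs_le]
  constructor <;> nlinarith

/-- the least summand -/
theorem ab_least {ω : Ω} (Q : Finset ℕ) (hQ : ∀ p ∈ Q, p.Prime) (a : ℕ)
    (h : ∀ ε : ℝ, 0 < ε → ∃ K : ℝ, 0 < K ∧ ∀ᶠ N : ℕ in atTop, ∀ x : ℕ, 2 ≤ x → 2 * x < N →
      |∑ s ∈ Finset.Icc 1 x, In (Ch A a) s ω * In A (N - s) ω -
        singQ Q N * (x / (Real.log x ^ (a + 1) * Real.log N))| ≤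
        ε * (x / (Real.log x ^ (a + 1) * Real.log N)) + K * Real.log N) :
    ∃ K : ℝ, 0 < K ∧ ∀ᶠ N : ℕ in atTop, (2 ∉ Q ∨ Even N) → ∃ s : ℕ, 1 ≤ s ∧
      (s : ℝ) ≤ K * Real.log N ^ 2 * Real.log (Real.log N) ^ (a + 1) ∧ 2 * s < N ∧
      ω ∈ Ch A a s ∧ ω ∈ A (N - s) := by
  set W : ℕ := ∏ p ∈ Q, p with hW
  have hW0 : 0 < W := Finset.prod_pos fun q hq => (hQ q hq).pos
  have hWR : (0 : ℝ) < W := by exact_mod_cast hW0
  obtain ⟨K₁, hK₁0, hK₁⟩ := h (1 / (2 * W)) (by positivity)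
  set K : ℝ := 2 * (2 * W * 3 ^ (a + 1)) * (K₁ + 1) with hK
  have hK0 : 0 < K := by positivity
  refine ⟨K, hK0, ?_⟩
  have hlog : Tendsto (fun N : ℕ => Real.log (N : ℝ)) atTop atTop :=
    Real.tendsto_log_atTop.comp tendsto_natCast_atTop_atTop
  have hll : Tendsto (fun N : ℕ => Real.log (Real.log (N : ℝ))) atTop atTop :=
    Real.tendsto_log_atTop.comp hlog
  -- `K (log log N) ^ (a + 1) ≤ log N` and `2 (log N) ^ 3 < N`
  have h1 : ∀ᶠ N : ℕ in atTop, K * Real.log (Real.log (N : ℝ)) ^ (a + 1) ≤ Real.log N := by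
    have h2 := (isLittleO_log_rpow_rpow_atTop ((a + 1 : ℕ) : ℝ) (zero_lt_one)).bound
      (show 0 < 1 / K by positivity)
    filter_upwards [hlog.eventually h2, hlog.eventually_ge_atTop 1, hll.eventually_ge_atTop 0]
      with N g1 g2 g3
    rw [Real.norm_eq_abs, Real.norm_eq_abs, abs_of_nonneg (Real.rpow_nonneg g3 _),
      abs_of_nonneg (Real.rpow_nonneg (by linarith) _), Real.rpow_natCast, Real.rpow_one] at g1
    calc K * Real.log (Real.log (N : ℝ)) ^ (a + 1) ≤ K * (1 / K * Real.log N) := by gcongr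
      _ = Real.log N := by field_simp
  have h2 : ∀ᶠ N : ℕ in atTop, 2 * Real.log (N : ℝ) ^ 3 < N := by
    have h2 := (isLittleO_log_rpow_rpow_atTop ((3 : ℕ) : ℝ) (zero_lt_one)).bound
      (show (0 : ℝ) < 1 / 3 by norm_num)
    filter_upwards [tendsto_natCast_atTop_atTop.eventually h2, eventually_ge_atTop 1,
      hlog.eventually_ge_atTop 0] with N g1 g2 g3
    have hN : (1 : ℝ) ≤ N := by exact_mod_cast g2
    rw [Real.norm_eq_abs, Real.norm_eq_abs, abs_of_nonneg (Real.rpow_nonneg g3 _),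
      abs_of_nonneg (Real.rpow_nonneg (by linarith) _), Real.rpow_natCast, Real.rpow_one] at g1
    linarith
  filter_upwards [hK₁, h1, h2, hlog.eventually_ge_atTop 3, hll.eventually_ge_atTop 1,
    hlog.eventually_ge_atTop (6 / K)] with N g1 g2 g3 g4 g5 g6 hpar
  have hlN : 0 < Real.log (N : ℝ) := by linarith
  set l := Real.log (N : ℝ) with hl
  set y : ℝ := K * l ^ 2 * Real.log l ^ (a + 1) with hy
  have hlp : 1 ≤ Real.log l ^ (a + 1) := one_le_pow₀ g5
  have hy6 : 6 ≤ y := by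
    have e1 : 6 ≤ K * l := by
      rw [div_le_iff₀ hK0] at g6
      linarith
    calc (6 : ℝ) ≤ K * l := e1
      _ ≤ K * l * (l * Real.log l ^ (a + 1)) := by
          apply le_mul_of_one_le_right (by positivity)
          nlinarith
      _ = y := by rw [hy]; ring
  have hy3 : y ≤ l ^ 3 := by
    calc y = (K * Real.log l ^ (a + 1)) * l ^ 2 := by rw [hy]; ring
      _ ≤ l * l ^ 2 := by gcongr
      _ = l ^ 3 := by ring
  set x : ℕ := ⌊y⌋₊ with hx
  have hxy : (x : ℝ) ≤ y := Nat.floor_le (by linarith)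
  have hxy2 : y / 2 ≤ x := by
    have := Nat.lt_floor_add_one y
    rw [← hx] at this
    linarith
  have hx2 : 2 ≤ x := by
    apply Nat.le_floor
    norm_num
    linarith
  have hxN : 2 * x < N := by
    have e1 : (2 : ℝ) * x < N := by linarith
    exact_mod_cast e1
  have g7 := g1 x hx2 hxN
  have hxR : (2 : ℝ) ≤ x := by exact_mod_cast hx2
  have hlx : 0 < Real.log (x : ℝ) := Real.log_pos (by linarith)
  have hlx3 : Real.log (x : ℝ) ≤ 3 * Real.log l := by
    have e1 : Real.log (x : ℝ) ≤ Real.log (l ^ 3) :=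
      Real.log_le_log (by linarith) (hxy.trans hy3)
    rw [Real.log_pow] at e1
    exact_mod_cast e1
  -- the main term
  have hmain : W * (K₁ + 1) * 2 * l ≤ x / (Real.log x ^ (a + 1) * l) := by
    rw [le_div_iff₀ (by positivity)]
    have e1 : Real.log (x : ℝ) ^ (a + 1) ≤ 3 ^ (a + 1) * Real.log l ^ (a + 1) := by
      rw [← mul_pow]
      exact pow_le_pow_left₀ hlx.le hlx3 _
    calc W * (K₁ + 1) * 2 * l * (Real.log x ^ (a + 1) * l)
        ≤ W * (K₁ + 1) * 2 * l * ((3 ^ (a + 1) * Real.log l ^ (a + 1)) * l) := by gcongr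
      _ = y / 2 := by
          rw [hy, hK]
          ring
      _ ≤ x := hxy2
  set X : ℝ := x / (Real.log x ^ (a + 1) * l) with hX
  have hX0 : 0 ≤ X := by positivity
  have hs := (singQ_bounds Q hQ N).2.2 hpar
  rw [← hW] at hs
  have hpos : 0 < ∑ s ∈ Finset.Icc 1 x, In (Ch A a) s ω * In A (N - s) ω := by
    have e1 := (abs_le.1 g7).1
    have e2 : 1 / (W : ℝ) * X ≤ singQ Q N * X := mul_le_mul_of_nonneg_right hs hX0
    have e3 : 1 / (W : ℝ) * X - 1 / (2 * W) * X = 1 / (2 * W) * X := by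
      field_simp
      ring
    have e4 : (K₁ + 1) * l ≤ 1 / (2 * W) * X := by
      calc (K₁ + 1) * l = 1 / (2 * W) * (W * (K₁ + 1) * 2 * l) := by
            field_simp
        _ ≤ 1 / (2 * W) * X := mul_le_mul_of_nonneg_left hmain (by positivity)
    nlinarith
  obtain ⟨s, hs1, hs2⟩ := Finset.exists_ne_zero_of_sum_ne_zero hpos.ne'
  have hs' := Finset.mem_Icc.1 hs1
  refine ⟨s, hs'.1, ?_, by omega, ?_, ?_⟩
  · have : (s : ℝ) ≤ x := by exact_mod_cast hs'.2
    linarith
  · by_contra hcon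
    apply hs2
    rw [show In (Ch A a) s ω = 0 from indicator_of_notMem hcon _, zero_mul]
  · by_contra hcon
    apply hs2
    rw [show In A (N - s) ω = 0 from indicator_of_notMem hcon _, mul_zero]

end Pool.Agent.N9.AD
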