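import Mathlib
import Pool.Agent.N909.TF.Tools

set_option autoImplicit false

/-! # Sums of two twins: the deterministic part -/

open MeasureTheory Filter Set
open scoped Topology

namespace Pool.Agent.N9.AD

open Pool.Agent.R528.RM Pool.Agent.N909.TF

/-- the positions: the lower members of the twins are `s` and `m - s` -/
def DJ (m : ℕ) : Finset ℕ := (Finset.Icc 1 m).filter (fun s => 2 * s + 2 < m)

/-- the four numbers -/
def DT (m s : ℕ) : Finset ℕ := {s, s + 2, m - s, m - s + 2}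

lemma DT_card (m s : ℕ) (h : s ∈ DJ m) : (DT m s).card = 4 := by
  obtain ⟨h1, h2⟩ := Finset.mem_filter.1 h
  have h3 := Finset.mem_Icc.1 h1
  unfold DT
  rw [Finset.card_insert_of_notMem, Finset.card_insert_of_notMem, Finset.card_insert_of_notMem,
    Finset.card_singleton]
  · rw [Finset.mem_singleton]; omega
  · rw [Finset.mem_insert, Finset.mem_singleton]; omega
  · rw [Finset.mem_insert, Finset.mem_insert, Finset.mem_singleton]; omega

lemma DT_zero (m s : ℕ) (h : s ∈ DJ m) : 0 ∉ DT m s := by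
  obtain ⟨h1, h2⟩ := Finset.mem_filter.1 h
  have h3 := Finset.mem_Icc.1 h1
  unfold DT
  simp only [Finset.mem_insert, Finset.mem_singleton]
  omega

lemma DJ_mult (m t : ℕ) : ((DJ m).filter (fun s => t ∈ DT m s)).card ≤ 4 := by
  have h1 : (DJ m).filter (fun s => t ∈ DT m s) ⊆ {t, t - 2, m - t, m + 2 - t} := by
    intro s hs
    obtain ⟨h1, h2⟩ := Finset.mem_filter.1 hs
    obtain ⟨h3, h4⟩ := Finset.mem_filter.1 h1
    have h5 := Finset.mem_Icc.1 h3
    unfold DT at h2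
    simp only [Finset.mem_insert, Finset.mem_singleton] at h2 ⊢
    omega
  refine (Finset.card_le_card h1).trans ?_
  exact Finset.card_le_four

lemma dt_two : ((1 : ℕ) : ZMod 2) ≠ 0 ∧ (((1 : ℕ) : ZMod 2) + 2) ≠ 0 ∧ ((0 : ZMod 2) - ((1 : ℕ) : ZMod 2)) ≠ 0 ∧
    ((0 : ZMod 2) - ((1 : ℕ) : ZMod 2) + 2) ≠ 0 := by decide

lemma dt_three : ((2 : ℕ) : ZMod 3) ≠ 0 ∧ (((2 : ℕ) : ZMod 3) + 2) ≠ 0 ∧ ((1 : ZMod 3) - ((2 : ℕ) : ZMod 3)) ≠ 0 ∧
    ((1 : ZMod 3) - ((2 : ℕ) : ZMod 3) + 2) ≠ 0 := by decide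

/-- a good residue modulo one prime -/
lemma DT_res (m l : ℕ) (hl : l.Prime) (h2 : l = 2 → Even m) (h3 : l = 3 → m % 3 = 1) :
    ∃ r : ℕ, (r : ZMod l) ≠ 0 ∧ ((r : ZMod l) + 2) ≠ 0 ∧ ((m : ZMod l) - r) ≠ 0 ∧
      ((m : ZMod l) - r + 2) ≠ 0 := by
  rcases Nat.lt_or_ge l 5 with h5 | h5
  · have hl2 := hl.two_le
    have h4 : l ≠ 4 := by
      rintro rfl
      exact absurd hl (by norm_num)
    have hcase : l = 2 ∨ l = 3 := by omega
    rcases hcase with rfl | rfl
    · obtain ⟨k, hk⟩ := h2 rfl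
      have hm : (m : ZMod 2) = 0 := by
        rw [hk]
        push_cast
        exact CharTwo.add_self_eq_zero _
      refine ⟨1, ?_⟩
      rw [hm]
      exact dt_two
    · have hm : (m : ZMod 3) = 1 := by
        have := h3 rfl
        have h6 : (m : ZMod 3) = ((m % 3 : ℕ) : ZMod 3) := (ZMod.natCast_mod m 3).symm
        rw [h6, this]
        rfl
      refine ⟨2, ?_⟩
      rw [hm]
      exact dt_three
  · haveI : Fact l.Prime := ⟨hl⟩
    by_contra hcon
    push Not at hcon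
    have h6 : (Finset.univ : Finset (ZMod l)) ⊆ {0, -2, (m : ZMod l), (m : ZMod l) + 2} := by
      intro x _
      have h7 := hcon x.val
      rw [ZMod.natCast_zmod_val] at h7
      simp only [Finset.mem_insert, Finset.mem_singleton]
      by_cases a1 : x = 0
      · exact Or.inl a1
      by_cases a2 : x + 2 = 0
      · exact Or.inr (Or.inl (eq_neg_of_add_eq_zero_left a2))
      by_cases a3 : (m : ZMod l) - x = 0
      · exact Or.inr (Or.inr (Or.inl (sub_eq_zero.1 a3).symm))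
      · have a4 := h7 a1 a2 a3
        refine Or.inr (Or.inr (Or.inr ?_))
        linear_combination -a4
    have h7 := Finset.card_le_card h6
    rw [Finset.card_univ, ZMod.card] at h7
    have h8 : ({0, -2, (m : ZMod l), (m : ZMod l) + 2} : Finset (ZMod l)).card ≤ 4 :=
      Finset.card_le_four
    omega

/-- many admissible positions -/
lemma DJ_many (Q : ℕ) (hQ : 0 < Q) (m : ℕ) (h2 : 2 ∣ Q → Even m) (h3 : 3 ∣ Q → m % 3 = 1) :
    ((m - 3) / 2) / Q ≤ (cop (DJ m) (DT m) Q).card := by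
  classical
  choose! r hr using fun l (h : l.Prime ∧ l ∣ Q) => DT_res m l h.1 (fun h' => h2 (h' ▸ h.2))
    (fun h' => h3 (h' ▸ h.2))
  obtain ⟨x, hx⟩ := crt_primes Q r
  refine (many_class Q x ((m - 3) / 2) hQ).trans (Finset.card_le_card ?_)
  intro s hs
  obtain ⟨h4, h5⟩ := Finset.mem_filter.1 hs
  have h6 := Finset.mem_Ioc.1 h4
  have hsJ : s ∈ DJ m := by
    unfold DJ
    rw [Finset.mem_filter, Finset.mem_Icc]
    omega
  unfold cop
  rw [Finset.mem_filter]
  refine ⟨hsJ, ?_⟩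
  intro t ht
  rw [coprime_iff_primes]
  intro l hl hlQ hlt
  have h7 := hx s h5 l hl hlQ hQ.ne'
  have h8 : (s : ZMod l) = (r l : ZMod l) := (ZMod.natCast_eq_natCast_iff _ _ _).2 h7
  obtain ⟨a1, a2, a3, a4⟩ := hr l ⟨hl, hlQ⟩
  rw [← h8] at a1 a2 a3 a4
  have h9 : (t : ZMod l) = 0 := (ZMod.natCast_eq_zero_iff t l).2 hlt
  unfold DT at ht
  simp only [Finset.mem_insert, Finset.mem_singleton] at ht
  have hsm : s ≤ m := by omega
  rcases ht with rfl | rfl | rfl | rfl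
  · exact a1 h9
  · apply a2
    rw [← h9]
    push_cast
    rfl
  · apply a3
    rw [← h9, Nat.cast_sub hsm]
  · apply a4
    rw [← h9]
    push_cast [Nat.cast_sub hsm]
    rfl

/-- few positions with a member of the wrong size -/
lemma DJ_far (δ : ℝ) (hδ : 0 < δ) : ∃ η : ℝ, 0 < η ∧ ∀ᶠ m : ℕ in atTop,
    ((far (DJ m) (DT m) (1 * Real.log m) δ).card : ℝ) ≤ (m : ℝ) ^ (1 - η) := by
  classical
  set δ' : ℝ := min δ (1 / 2) with hδ'
  have hδ'0 : 0 < δ' := lt_min hδ (by norm_num)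
  have hδ'1 : δ' ≤ 1 / 2 := min_le_right _ _
  have hδ'2 : δ' ≤ δ := min_le_left _ _
  refine ⟨δ' / 2, by positivity, ?_⟩
  have h1 : ∀ᶠ m : ℕ in atTop, (m : ℝ) ^ (1 - δ') + 1 ≤ (m : ℝ) ^ (1 - δ' / 2) := by
    have h2 : Tendsto (fun m : ℕ => (m : ℝ) ^ (δ' / 2)) atTop atTop :=
      (tendsto_rpow_atTop (by positivity)).comp tendsto_natCast_atTop_atTop
    filter_upwards [h2.eventually_ge_atTop 2, eventually_gt_atTop 1] with m g1 g2
    have hm : (1 : ℝ) < m := by exact_mod_cast g2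
    have e1 : (m : ℝ) ^ (1 - δ' / 2) = (m : ℝ) ^ (1 - δ') * (m : ℝ) ^ (δ' / 2) := by
      rw [← Real.rpow_add (by linarith)]
      congr 1
      ring
    have e2 : 1 ≤ (m : ℝ) ^ (1 - δ') := Real.one_le_rpow hm.le (by linarith)
    rw [e1]
    nlinarith
  filter_upwards [h1, near_log 2 δ' hδ'0, eventually_gt_atTop 4] with m g1 g2 g3
  have hm : (4 : ℝ) < m := by exact_mod_cast g3
  have hL : 0 < Real.log m := Real.log_pos (by linarith)
  have h3 : far (DJ m) (DT m) (1 * Real.log m) δ ⊆ Finset.range (⌊(m : ℝ) ^ (1 - δ')⌋₊ + 1) := by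
    intro s hs
    unfold far at hs
    obtain ⟨h4, t, ht, h5⟩ := Finset.mem_filter.1 hs
    rw [Finset.mem_range, Nat.lt_succ_iff]
    apply Nat.le_floor
    by_contra hcon
    rw [not_le] at hcon
    obtain ⟨h6, h7⟩ := Finset.mem_filter.1 h4
    have h8 := Finset.mem_Icc.1 h6
    have ht' : s ≤ t ∧ t ≤ 2 * m := by
      unfold DT at ht
      simp only [Finset.mem_insert, Finset.mem_singleton] at ht
      omega
    have h9 := g2 t (hcon.le.trans (by exact_mod_cast ht'.1)) (by exact_mod_cast ht'.2)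
    rw [one_mul] at h5
    have h10 : δ' * Real.log m ≤ δ * Real.log m := mul_le_mul_of_nonneg_right hδ'2 hL.le
    linarith
  have h4 := Finset.card_le_card h3
  rw [Finset.card_range] at h4
  have h5 : ((far (DJ m) (DT m) (1 * Real.log m) δ).card : ℝ) ≤ (⌊(m : ℝ) ^ (1 - δ')⌋₊ : ℝ) + 1 := by
    exact_mod_cast h4
  have h6 : (⌊(m : ℝ) ^ (1 - δ')⌋₊ : ℝ) ≤ (m : ℝ) ^ (1 - δ') := Nat.floor_le (by positivity)
  linarith

end Pool.Agent.N9.AD
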