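import Mathlib

set_option autoImplicit false

/-! # Deterministic lemmas for the final step: uniform laws and the least element -/

open Filter
open scoped Topology

namespace Pool.Agent.N9.AD

/-- an asymptotic formula as an inequality for all `x ≥ 2` -/
lemma one_unif (f : ℕ → ℝ) (τ : ℝ) (j : ℕ)
    (hf : Tendsto (fun x : ℕ => f x * Real.log x ^ j / x) atTop (𝓝 τ)) (η : ℝ) (hη : 0 < η) :
    ∃ M : ℝ, 0 < M ∧ ∀ x : ℕ, 2 ≤ x →
      |f x - τ * (x / Real.log x ^ j)| ≤ η * (x / Real.log x ^ j) + M := by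
  have hev : ∀ᶠ x : ℕ in atTop, 2 ≤ x → |f x - τ * (x / Real.log x ^ j)| ≤
      η * (x / Real.log x ^ j) := by
    filter_upwards [hf.eventually (gt_mem_nhds (show τ < τ + η by linarith)),
      hf.eventually (lt_mem_nhds (show τ - η < τ by linarith))] with x h1 h2 h3
    have hx : (2 : ℝ) ≤ x := by exact_mod_cast h3
    have hx0 : (0 : ℝ) < x := by linarith
    have hl : 0 < Real.log (x : ℝ) := Real.log_pos (by linarith)
    have hlp : 0 < Real.log (x : ℝ) ^ j := by positivity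
    rw [div_lt_iff₀ hx0] at h1
    rw [lt_div_iff₀ hx0] at h2
    have e1 : f x - τ * (x / Real.log x ^ j) = (f x * Real.log x ^ j - τ * x) / Real.log x ^ j := by
      field_simp
    rw [e1, abs_div, abs_of_pos hlp, ← mul_div_assoc]
    apply div_le_div_of_nonneg_right _ hlp.le
    rw [abs_le]
    constructor <;> linarith
  obtain ⟨x₀, hx₀⟩ := eventually_atTop.1 hev
  set M : ℝ := ∑ x ∈ Finset.range x₀, |f x - τ * (x / Real.log x ^ j)| with hM
  have hM0 : 0 ≤ M := Finset.sum_nonneg fun _ _ => abs_nonneg _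
  refine ⟨M + 1, by positivity, ?_⟩
  intro x hx2
  have hx : (2 : ℝ) ≤ x := by exact_mod_cast hx2
  have hl : 0 < Real.log (x : ℝ) := Real.log_pos (by linarith)
  rcases Nat.lt_or_ge x x₀ with h | h
  · have h1 := Finset.single_le_sum
      (f := fun x : ℕ => |f x - τ * (x / Real.log x ^ j)|)
      (fun _ _ => abs_nonneg _) (Finset.mem_range.2 h)
    have h2 : 0 ≤ η * (x / Real.log x ^ j) := by positivity
    linarith
  · have := hx₀ x h hx2
    linarith

/-- sums over classes -/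
lemma class_unif (f : ℕ → ℕ → ℝ) (S : Finset ℕ) (τ : ℝ) (j : ℕ)
    (hf : ∀ a ∈ S, Tendsto (fun x : ℕ => f a x * Real.log x ^ j / x) atTop (𝓝 τ))
    (η : ℝ) (hη : 0 < η) :
    ∃ M : ℝ, 0 < M ∧ ∀ G ⊆ S, ∀ x : ℕ, 2 ≤ x →
      |∑ a ∈ G, f a x - (G.card : ℝ) * τ * (x / Real.log x ^ j)| ≤ η * (x / Real.log x ^ j) + M := by
  classical
  have h1 : ∀ a : ℕ, ∃ M : ℝ, 0 < M ∧ (a ∈ S → ∀ x : ℕ, 2 ≤ x →
      |f a x - τ * (x / Real.log x ^ j)| ≤ (η / (S.card + 1)) * (x / Real.log x ^ j) + M) := by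
    intro a
    by_cases ha : a ∈ S
    · obtain ⟨M, hM, h⟩ := one_unif (f a) τ j (hf a ha) (η / (S.card + 1)) (by positivity)
      exact ⟨M, hM, fun _ => h⟩
    · exact ⟨1, one_pos, fun h => absurd h ha⟩
  choose M hM0 hM using h1
  have hMs : 0 ≤ ∑ a ∈ S, M a := Finset.sum_nonneg fun a _ => (hM0 a).le
  refine ⟨∑ a ∈ S, M a + 1, by positivity, ?_⟩
  intro G hG x hx2
  have hx : (2 : ℝ) ≤ x := by exact_mod_cast hx2
  have hl : 0 < Real.log (x : ℝ) := Real.log_pos (by linarith)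
  have e1 : ∑ a ∈ G, f a x - (G.card : ℝ) * τ * (x / Real.log x ^ j) =
      ∑ a ∈ G, (f a x - τ * (x / Real.log x ^ j)) := by
    rw [Finset.sum_sub_distrib, Finset.sum_const, nsmul_eq_mul]
    ring
  rw [e1]
  calc |∑ a ∈ G, (f a x - τ * (x / Real.log x ^ j))|
      ≤ ∑ a ∈ G, |f a x - τ * (x / Real.log x ^ j)| := Finset.abs_sum_le_sum_abs _ _
    _ ≤ ∑ a ∈ G, ((η / (S.card + 1)) * (x / Real.log x ^ j) + M a) :=
        Finset.sum_le_sum fun a ha => hM a (hG ha) x hx2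
    _ ≤ ∑ a ∈ S, ((η / (S.card + 1)) * (x / Real.log x ^ j) + M a) := by
        apply Finset.sum_le_sum_of_subset_of_nonneg hG
        intro a _ _
        have := hM0 a
        positivity
    _ = S.card * (η / (S.card + 1)) * (x / Real.log x ^ j) + ∑ a ∈ S, M a := by
        rw [Finset.sum_add_distrib, Finset.sum_const, nsmul_eq_mul]
        ring
    _ ≤ η * (x / Real.log x ^ j) + (∑ a ∈ S, M a + 1) := by
        have h2 : (S.card : ℝ) * (η / (S.card + 1)) ≤ η := by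
          rw [mul_div_assoc', div_le_iff₀ (by positivity)]
          nlinarith
        have h3 : 0 ≤ (x : ℝ) / Real.log x ^ j := by positivity
        nlinarith [mul_le_mul_of_nonneg_right h2 h3]

/-- **the final law** -/
theorem fin_law (R S : ℕ → ℕ → ℝ) (g : ℕ → ℝ) (X : ℕ → ℕ) (c Γ : ℝ) (hc : 0 < c) (i j : ℕ) (hΓ : 0 ≤ Γ)
    (h1 : ∀ ε : ℝ, 0 < ε → ∃ C : ℝ, 0 < C ∧ ∀ᶠ N : ℕ in atTop, ∀ x : ℕ, x ≤ X N →
      |R N x - (c / Real.log N) ^ i * S N x| ≤ ε * ((c / Real.log N) ^ i * S N x) + C * Real.log N)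
    (hg : ∀ N, 0 ≤ g N ∧ g N ≤ Γ)
    (h2 : ∀ η : ℝ, 0 < η → ∃ M : ℝ, 0 < M ∧ ∀ᶠ N : ℕ in atTop, ∀ x : ℕ, 2 ≤ x → x ≤ X N →
      |S N x - g N * (x / Real.log x ^ j)| ≤ η * (x / Real.log x ^ j) + M) :
    ∀ ε : ℝ, 0 < ε → ∃ K : ℝ, 0 < K ∧ ∀ᶠ N : ℕ in atTop, ∀ x : ℕ, 2 ≤ x → x ≤ X N →
      |R N x - c ^ i * g N * (x / (Real.log x ^ j * Real.log N ^ i))| ≤
        ε * (x / (Real.log x ^ j * Real.log N ^ i)) + K * Real.log N := by
  intro ε hε
  set η : ℝ := min 1 (ε / (c ^ i * (Γ + 2))) with hη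
  have hη0 : 0 < η := by positivity
  have hη1 : η ≤ 1 := min_le_left _ _
  have hηε : η * (c ^ i * (Γ + 2)) ≤ ε := by
    have : η ≤ ε / (c ^ i * (Γ + 2)) := min_le_right _ _
    rw [le_div_iff₀ (by positivity)] at this
    exact this
  obtain ⟨C, hC0, hC⟩ := h1 η hη0
  obtain ⟨M, hM0, hM⟩ := h2 η hη0
  refine ⟨C + 2 * M, by positivity, ?_⟩
  have hlogT : Tendsto (fun N : ℕ => Real.log (N : ℝ)) atTop atTop :=
    Real.tendsto_log_atTop.comp tendsto_natCast_atTop_atTop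
  filter_upwards [hC, hM, hlogT.eventually_ge_atTop (max 1 c)] with N g1 g2 g3 x hx2 hx
  have hlog1 : 1 ≤ Real.log (N : ℝ) := (le_max_left _ _).trans g3
  have hlogc : c ≤ Real.log (N : ℝ) := (le_max_right _ _).trans g3
  have hlog : 0 < Real.log (N : ℝ) := by linarith
  have hxR : (2 : ℝ) ≤ x := by exact_mod_cast hx2
  have hl : 0 < Real.log (x : ℝ) := Real.log_pos (by linarith)
  have g4 := g1 x hx
  have g5 := g2 x hx2 hx
  set κ : ℝ := (c / Real.log N) ^ i with hκ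
  have hκ0 : 0 < κ := by positivity
  have hκ1 : κ ≤ 1 := by
    apply pow_le_one₀ (by positivity)
    rw [div_le_one hlog]
    exact hlogc
  set T : ℝ := x / (Real.log x ^ j * Real.log N ^ i) with hT
  have hT0 : 0 ≤ T := by positivity
  have hcT : κ * (x / Real.log x ^ j) = c ^ i * T := by
    rw [hκ, hT, div_pow]
    field_simp
  have hci : 0 < c ^ i := by positivity
  have g6 : |κ * S N x - c ^ i * g N * T| ≤ η * (c ^ i * T) + M := by
    have e1 : κ * S N x - c ^ i * g N * T = κ * (S N x - g N * (x / Real.log x ^ j)) := by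
      rw [mul_sub, mul_left_comm κ (g N), hcT]
      ring
    rw [e1, abs_mul, abs_of_pos hκ0]
    calc κ * |S N x - g N * (x / Real.log x ^ j)| ≤ κ * (η * (x / Real.log x ^ j) + M) :=
          mul_le_mul_of_nonneg_left g5 hκ0.le
      _ = η * (κ * (x / Real.log x ^ j)) + κ * M := by ring
      _ ≤ η * (c ^ i * T) + 1 * M := by
          rw [hcT]
          gcongr
      _ = _ := by ring
  obtain ⟨hg0, hg1⟩ := hg N
  have a1 := abs_le.1 g4
  have a2 := abs_le.1 g6
  set P := c ^ i * T with hP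
  have hP0 : 0 ≤ P := by positivity
  have e3 : c ^ i * g N * T = g N * P := by rw [hP]; ring
  rw [e3] at a2 ⊢
  have g7 : κ * S N x ≤ Γ * P + η * P + M := by
    have : g N * P ≤ Γ * P := mul_le_mul_of_nonneg_right hg1 hP0
    linarith
  have g8 : η * (κ * S N x) ≤ η * (Γ * P) + η * P + M := by
    have k1 : η * (κ * S N x) ≤ η * (Γ * P + η * P + M) := mul_le_mul_of_nonneg_left g7 hη0.le
    have k2 : η * (η * P) ≤ 1 * (η * P) := mul_le_mul_of_nonneg_right hη1 (by positivity)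
    have k3 : η * M ≤ 1 * M := mul_le_mul_of_nonneg_right hη1 hM0.le
    nlinarith
  have g9 : η * (Γ * P) + η * P + η * P ≤ ε * T := by
    calc η * (Γ * P) + η * P + η * P = η * (c ^ i * (Γ + 2)) * T := by rw [hP]; ring
      _ ≤ ε * T := mul_le_mul_of_nonneg_right hηε hT0
  have g10 : (C + 2 * M) * Real.log N = C * Real.log N + 2 * (M * Real.log N) := by ring
  have g11 : M ≤ M * Real.log N := le_mul_of_one_le_right hM0.le hlog1
  rw [g10, abs_le]
  constructor <;> linarith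

/-- **the least element** -/
theorem fin_least (R : ℕ → ℕ → ℝ) (G : ℕ → ℝ) (X : ℕ → ℕ) (i j : ℕ) (γ : ℝ) (hγ : 0 < γ)
    (P : ℕ → Prop) (hP : ∀ᶠ N : ℕ in atTop, P N → γ ≤ G N)
    (hX : ∀ᶠ N : ℕ in atTop, Real.log N ^ (i + 2) ≤ X N)
    (h : ∀ ε : ℝ, 0 < ε → ∃ K : ℝ, 0 < K ∧ ∀ᶠ N : ℕ in atTop, ∀ x : ℕ, 2 ≤ x → x ≤ X N →
      |R N x - G N * (x / (Real.log x ^ j * Real.log N ^ i))| ≤
        ε * (x / (Real.log x ^ j * Real.log N ^ i)) + K * Real.log N) :
    ∃ K : ℝ, 0 < K ∧ ∀ᶠ N : ℕ in atTop, P N → ∃ x : ℕ, 2 ≤ x ∧ x ≤ X N ∧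
      (x : ℝ) ≤ K * Real.log N ^ (i + 1) * Real.log (Real.log N) ^ j ∧ 0 < R N x := by
  obtain ⟨K₁, hK₁0, hK₁⟩ := h (γ / 2) (by positivity)
  set B : ℝ := ((i : ℝ) + 2) ^ j with hB
  have hB0 : 0 < B := by positivity
  set K : ℝ := 4 * B * (K₁ + 1) / γ with hK
  have hK0 : 0 < K := by positivity
  refine ⟨K, hK0, ?_⟩
  have hlog : Tendsto (fun N : ℕ => Real.log (N : ℝ)) atTop atTop :=
    Real.tendsto_log_atTop.comp tendsto_natCast_atTop_atTop
  have hll : Tendsto (fun N : ℕ => Real.log (Real.log (N : ℝ))) atTop atTop :=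
    Real.tendsto_log_atTop.comp hlog
  have h1 : ∀ᶠ N : ℕ in atTop, K * Real.log (Real.log (N : ℝ)) ^ j ≤ Real.log N := by
    have h2 := (isLittleO_log_rpow_rpow_atTop (j : ℝ) (zero_lt_one)).bound
      (show 0 < 1 / K by positivity)
    filter_upwards [hlog.eventually h2, hlog.eventually_ge_atTop 1, hll.eventually_ge_atTop 0]
      with N g1 g2 g3
    rw [Real.norm_eq_abs, Real.norm_eq_abs, abs_of_nonneg (Real.rpow_nonneg g3 _),
      abs_of_nonneg (Real.rpow_nonneg (by linarith) _), Real.rpow_natCast, Real.rpow_one] at g1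
    calc K * Real.log (Real.log (N : ℝ)) ^ j ≤ K * (1 / K * Real.log N) := by gcongr
      _ = Real.log N := by field_simp
  filter_upwards [hK₁, h1, hX, hP, hlog.eventually_ge_atTop 3, hll.eventually_ge_atTop 1,
    hlog.eventually_ge_atTop (6 / K)] with N g1 g2 g3 gP g4 g5 g6 hpar
  have hlN : 0 < Real.log (N : ℝ) := by linarith
  set l := Real.log (N : ℝ) with hl
  set y : ℝ := K * l ^ (i + 1) * Real.log l ^ j with hy
  have hlp : 1 ≤ Real.log l ^ j := one_le_pow₀ g5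
  have hli : 1 ≤ l ^ i := one_le_pow₀ (by linarith)
  have hy6 : 6 ≤ y := by
    have e1 : 6 ≤ K * l := by
      rw [div_le_iff₀ hK0] at g6
      linarith
    calc (6 : ℝ) ≤ K * l := e1
      _ ≤ K * l * (l ^ i * Real.log l ^ j) := by
          apply le_mul_of_one_le_right (by positivity)
          nlinarith
      _ = y := by rw [hy]; ring
  have hy3 : y ≤ l ^ (i + 2) := by
    calc y = (K * Real.log l ^ j) * l ^ (i + 1) := by rw [hy]; ring
      _ ≤ l * l ^ (i + 1) := by gcongr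
      _ = l ^ (i + 2) := by ring
  set x : ℕ := ⌊y⌋₊ with hx
  have hxy : (x : ℝ) ≤ y := Nat.floor_le (by linarith)
  have hxy2 : y / 2 ≤ x := by
    have := Nat.lt_floor_add_one y
    rw [← hx] at this
    linarith
  have hx2 : 2 ≤ x := by
    apply Nat.le_floor
    norm_num
    linarith
  have hxN : x ≤ X N := by
    have e1 : (x : ℝ) ≤ X N := (hxy.trans hy3).trans g3
    exact_mod_cast e1
  have g7 := g1 x hx2 hxN
  have hxR : (2 : ℝ) ≤ x := by exact_mod_cast hx2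
  have hlx : 0 < Real.log (x : ℝ) := Real.log_pos (by linarith)
  have hll0 : 0 < Real.log l := by linarith
  have hlx3 : Real.log (x : ℝ) ≤ ((i : ℝ) + 2) * Real.log l := by
    have e1 : Real.log (x : ℝ) ≤ Real.log (l ^ (i + 2)) :=
      Real.log_le_log (by linarith) (hxy.trans hy3)
    rw [Real.log_pow] at e1
    push_cast at e1
    exact e1
  refine ⟨x, hx2, hxN, hxy, ?_⟩
  -- the main term
  have hmain : K * l / (2 * B) ≤ x / (Real.log x ^ j * l ^ i) := by
    rw [div_le_div_iff₀ (by positivity) (by positivity)]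
    have e1 : Real.log (x : ℝ) ^ j ≤ B * Real.log l ^ j := by
      rw [hB, ← mul_pow]
      exact pow_le_pow_left₀ hlx.le hlx3 _
    calc K * l * (Real.log x ^ j * l ^ i)
        ≤ K * l * ((B * Real.log l ^ j) * l ^ i) := by gcongr
      _ = y / 2 * (2 * B) := by
          rw [hy]
          ring
      _ ≤ x * (2 * B) := by gcongr
  set T : ℝ := x / (Real.log x ^ j * l ^ i) with hT
  have hT0 : 0 ≤ T := by positivity
  have hs := gP hpar
  have e1 := (abs_le.1 g7).1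
  have e2 : γ * T ≤ G N * T := mul_le_mul_of_nonneg_right hs hT0
  have e4 : 2 * (K₁ + 1) * l ≤ γ * T := by
    calc 2 * (K₁ + 1) * l = γ * (K * l / (2 * B)) := by
          rw [hK]
          field_simp
          ring
      _ ≤ γ * T := mul_le_mul_of_nonneg_left hmain hγ.le
  nlinarith

end Pool.Agent.N9.AD
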