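import Mathlib
import Pool.Agent.N9.AD.Ind2

set_option autoImplicit false
set_option linter.unusedSectionVars false

/-! # Weighted sums along a decreasing sequence of integers -/

open MeasureTheory Filter Set
open scoped ENNReal Topology

namespace Pool.Agent.N9.AD

open Pool.Agent.R528.RM Pool.Agent.N893.SM

variable {Ω : Type} {m0 : MeasurableSpace Ω} {μ : Measure Ω} [IsProbabilityMeasure μ]
  {ℱ : Filtration ℕ m0} {A : ℕ → Set Ω}

/-- `log v` against `log N` when `N / 2 ≤ v ≤ D N` -/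
lemma log_near {c ε : ℝ} (hc : 0 < c) (hε : 0 < ε) (hε1 : ε ≤ 1) (D : ℕ) : ∀ᶠ N : ℕ in atTop, ∀ v : ℕ,
    N ≤ 2 * v → v ≤ D * N →
    (1 - ε) * (c / Real.log N) ≤ bb c v ∧ bb c v ≤ (1 + ε) * (c / Real.log N) := by
  have hlog : Tendsto (fun N : ℕ => Real.log (N : ℝ)) atTop atTop :=
    Real.tendsto_log_atTop.comp tendsto_natCast_atTop_atTop
  set LD : ℝ := Real.log (max D 1 : ℝ) with hLD
  have hLD0 : 0 ≤ LD := Real.log_nonneg (le_max_right _ _)
  filter_upwards [hlog.eventually_ge_atTop (c + 1 + 1), hlog.eventually_ge_atTop ((1 + ε) / ε),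
    hlog.eventually_ge_atTop (LD / ε), eventually_ge_atTop 4] with N h1 h2 h2' h3 v hv1 hv2
  have hN : (4 : ℝ) ≤ N := by exact_mod_cast h3
  have hv : (2 : ℝ) ≤ v := by
    have : 2 ≤ v := by omega
    exact_mod_cast this
  have hlN0 : 0 < Real.log (N : ℝ) := by linarith
  have hlv : Real.log (v : ℝ) ≤ Real.log N + LD := by
    have e1 : (v : ℝ) ≤ max (D : ℝ) 1 * N := by
      have e2 : (v : ℝ) ≤ D * N := by exact_mod_cast hv2
      exact e2.trans (mul_le_mul_of_nonneg_right (le_max_left _ _) (by linarith))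
    have e2 := Real.log_le_log (by linarith) e1
    rw [Real.log_mul (by positivity) (by linarith)] at e2
    linarith
  have hl2 : Real.log 2 ≤ 1 := by
    have := Real.log_two_lt_d9
    linarith
  have hlv2 : Real.log N - 1 ≤ Real.log v := by
    have h4 : (N : ℝ) ≤ 2 * v := by exact_mod_cast hv1
    have h5 := Real.log_le_log (by linarith) h4
    rw [Real.log_mul (by norm_num) (by linarith)] at h5
    linarith
  have hlv0 : 0 < Real.log v := by linarith
  have hbb : bb c v = c / Real.log v := by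
    unfold bb
    apply min_eq_right
    rw [div_le_one hlv0]
    linarith
  rw [hbb]
  constructor
  · rw [le_div_iff₀ hlv0]
    have h6 : LD ≤ ε * Real.log N := by
      rw [div_le_iff₀ hε] at h2'
      linarith
    have h7 : (1 - ε) * Real.log v ≤ Real.log N := by
      have : (1 - ε) * Real.log v ≤ (1 - ε) * (Real.log N + LD) :=
        mul_le_mul_of_nonneg_left hlv (by linarith)
      nlinarith
    calc (1 - ε) * (c / Real.log N) * Real.log v = c / Real.log N * ((1 - ε) * Real.log v) := by ring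
      _ ≤ c / Real.log N * Real.log N := mul_le_mul_of_nonneg_left h7 (by positivity)
      _ = c := by field_simp
  · rw [div_le_iff₀ hlv0]
    have h6 : (1 + ε) ≤ ε * Real.log N := by
      rw [div_le_iff₀ hε] at h2
      linarith
    have h7 : Real.log N ≤ (1 + ε) * Real.log v := by
      have : (1 + ε) * (Real.log N - 1) ≤ (1 + ε) * Real.log v :=
        mul_le_mul_of_nonneg_left hlv2 (by linarith)
      linarith
    calc c = c / Real.log N * Real.log N := by field_simp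
      _ ≤ c / Real.log N * ((1 + ε) * Real.log v) :=
          mul_le_mul_of_nonneg_left h7 (by positivity)
      _ = (1 + ε) * (c / Real.log N) * Real.log v := by ring

/-- sums over the values of a decreasing sequence -/
lemma fiber_sum (s₀ X x a b : ℕ) (V : ℕ → ℕ) (u F : ℕ → ℝ) (hx : x ≤ X)
    (ha : ∀ s, s₀ ≤ s → s ≤ X → (a ≤ V s ↔ s ≤ x)) (hb : ∀ s, s₀ ≤ s → s ≤ X → V s < b) :
    ∑ v ∈ Finset.Ico a b, (∑ s ∈ Finset.Icc s₀ X, if V s = v then u s else 0) * F v =
      ∑ s ∈ Finset.Icc s₀ x, u s * F (V s) := by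
  classical
  have e1 : ∀ v ∈ Finset.Ico a b, (∑ s ∈ Finset.Icc s₀ X, if V s = v then u s else 0) * F v =
      ∑ s ∈ Finset.Icc s₀ X, if V s = v then u s * F (V s) else 0 := by
    intro v _
    rw [Finset.sum_mul]
    refine Finset.sum_congr rfl fun s _ => ?_
    split_ifs with h
    · rw [h]
    · rw [zero_mul]
  rw [Finset.sum_congr rfl e1, Finset.sum_comm]
  have e2 : ∀ s ∈ Finset.Icc s₀ X, (∑ v ∈ Finset.Ico a b, if V s = v then u s * F (V s) else 0) =
      if s ≤ x then u s * F (V s) else 0 := by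
    intro s hs
    have hs' := Finset.mem_Icc.1 hs
    rw [Finset.sum_ite_eq]
    by_cases h : s ≤ x
    · rw [if_pos h, if_pos (Finset.mem_Ico.2 ⟨(ha s hs'.1 hs'.2).2 h, hb s hs'.1 hs'.2⟩)]
    · rw [if_neg h, if_neg]
      intro h1
      exact h ((ha s hs'.1 hs'.2).1 (Finset.mem_Ico.1 h1).1)
  rw [Finset.sum_congr rfl e2, ← Finset.sum_filter]
  apply Finset.sum_congr _ fun _ _ => rfl
  ext s
  simp only [Finset.mem_filter, Finset.mem_Icc]
  omega

/-- **weighted sums along a decreasing sequence**: the weight of `V N s` is decided before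
`V N s` -/
theorem comp_gen (hA : ∀ n, MeasurableSet[ℱ n] (A n)) {W : ℕ} (hW : 0 < W)
    (hd : ∀ᵐ ω ∂μ, ∀ ε : ℝ, 0 < ε → ∀ᶠ n : ℕ in atTop,
      |dens μ ℱ A n ω - rhoW W (n + 1)| ≤ ε * rhoW W (n + 1))
    (s₀ : ℕ) (hs₀ : 1 ≤ s₀) (X : ℕ → ℕ) (V : ℕ → ℕ → ℕ) (D : ℕ)
    (hV : ∀ N s t, s₀ ≤ s → s < t → t ≤ X N → V N t < V N s)
    (hV1 : ∀ N s, s₀ ≤ s → s ≤ X N → N ≤ 2 * V N s ∧ V N s ≤ D * N)
    (u : ℕ → ℕ → Ω → ℝ)
    (hu : ∀ N s, s₀ ≤ s → s ≤ X N → StronglyMeasurable[ℱ (V N s - 1)] (u N s))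
    (hu1 : ∀ N s ω, 0 ≤ u N s ω ∧ u N s ω ≤ 1) :
    ∀ᵐ ω ∂μ, ∀ ε : ℝ, 0 < ε → ∃ C : ℝ, 0 < C ∧ ∀ᶠ N : ℕ in atTop, ∀ x : ℕ, x ≤ X N →
      |∑ s ∈ Finset.Icc s₀ x, u N s ω * In A (V N s) ω -
        ((W : ℝ) / Nat.totient W) / Real.log N *
          ∑ s ∈ Finset.Icc s₀ x, (if Nat.Coprime (V N s) W then u N s ω else 0)| ≤
        ε * (((W : ℝ) / Nat.totient W) / Real.log N *
          ∑ s ∈ Finset.Icc s₀ x, (if Nat.Coprime (V N s) W then u N s ω else 0)) +
          C * Real.log N := by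
  classical
  set c : ℝ := (W : ℝ) / Nat.totient W with hc
  have hφ : 0 < Nat.totient W := Nat.totient_pos.2 hW
  have hc0 : 0 < c := by
    have : (0 : ℝ) < W := by exact_mod_cast hW
    have : (0 : ℝ) < Nat.totient W := by exact_mod_cast hφ
    positivity
  have hinj : ∀ N s t, s₀ ≤ s → s ≤ X N → s₀ ≤ t → t ≤ X N → V N s = V N t → s = t := by
    intro N s t h1 h2 h3 h4 h5
    rcases Nat.lt_trichotomy s t with h | h | h
    · have := hV N s t h1 h h4
      omega
    · exact h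
    · have := hV N t s h3 h h2
      omega
  set w : ℕ → ℕ → Ω → ℝ := fun N v ω => ∑ s ∈ Finset.Icc s₀ (X N), if V N s = v then u N s ω else 0
    with hw
  have hw1 : ∀ N v ω, 0 ≤ w N v ω ∧ w N v ω ≤ 1 := by
    intro N v ω
    constructor
    · exact Finset.sum_nonneg fun s _ => by
        split_ifs
        · exact (hu1 N s ω).1
        · exact le_rfl
    · by_cases h : ∃ t ∈ Finset.Icc s₀ (X N), V N t = v
      · obtain ⟨t, ht, htv⟩ := h
        have ht' := Finset.mem_Icc.1 ht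
        have e1 : w N v ω = u N t ω := by
          simp only [hw]
          rw [Finset.sum_eq_single t]
          · rw [if_pos htv]
          · intro s hs hst
            have hs' := Finset.mem_Icc.1 hs
            rw [if_neg]
            intro h1
            exact hst (hinj N s t hs'.1 hs'.2 ht'.1 ht'.2 (h1.trans htv.symm))
          · intro h1
            exact absurd ht h1
        rw [e1]
        exact (hu1 N t ω).2
      · have e1 : w N v ω = 0 := by
          simp only [hw]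
          apply Finset.sum_eq_zero
          intro s hs
          rw [if_neg]
          intro h1
          exact h ⟨s, hs, h1⟩
        rw [e1]
        exact zero_le_one
  have hmeas : ∀ N v : ℕ, 1 ≤ v → StronglyMeasurable[ℱ (v - 1)] (w N v) := by
    intro N v _
    have e1 : w N v = fun ω => ∑ s ∈ Finset.Icc s₀ (X N), (if V N s = v then u N s ω else 0) := rfl
    rw [e1]
    refine Finset.stronglyMeasurable_fun_sum _ fun s hs => ?_
    have hs' := Finset.mem_Icc.1 hs
    by_cases h : V N s = v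
    · simp only [h, if_true]
      rw [← h]
      exact hu N s hs'.1 hs'.2
    · simp only [h, if_false]
      exact @stronglyMeasurable_const _ _ (ℱ (v - 1)) _ _
  filter_upwards [eng (μ := μ) hA (rhoW W) (fun n => ⟨rhoW_nonneg W n, rhoW_le W n⟩) hd 2
    w hmeas hw1] with ω hω ε hε
  set η : ℝ := min 1 (ε / 4) with hη
  have hη0 : 0 < η := by positivity
  have hη1 : η ≤ 1 := min_le_left _ _
  have hηε : η ≤ ε / 4 := min_le_right _ _
  obtain ⟨C, hC0, hC⟩ := hω η hη0
  refine ⟨C, hC0, ?_⟩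
  filter_upwards [hC, log_near hc0 hη0 hη1 D, eventually_ge_atTop 2,
    eventually_ge_atTop (D + 1)] with N hN hh hN2 hND x hx
  have hlog : 0 < Real.log (N : ℝ) := Real.log_pos (by exact_mod_cast hN2)
  rcases Nat.lt_or_ge x s₀ with hxs | hxs
  · rw [Finset.Icc_eq_empty (by omega), Finset.sum_empty, Finset.sum_empty]
    simp only [mul_zero, sub_zero, abs_zero, zero_add]
    positivity
  have hVx := hV1 N x hxs hx
  have hb2 : D * N + 1 ≤ N ^ 2 := by nlinarith
  have h1 := hN (V N x) (D * N + 1) (by omega) hb2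
  have ha : ∀ s, s₀ ≤ s → s ≤ X N → (V N x ≤ V N s ↔ s ≤ x) := by
    intro s hs1 hs2
    constructor
    · intro h
      by_contra hcon
      have := hV N x s hxs (by omega) hs2
      omega
    · intro h
      rcases Nat.lt_or_ge s x with h2 | h2
      · exact (hV N s x hs1 h2 hx).le
      · have : s = x := by omega
        rw [this]
  have hb : ∀ s, s₀ ≤ s → s ≤ X N → V N s < D * N + 1 := by
    intro s hs1 hs2
    have := (hV1 N s hs1 hs2).2
    omega
  have e1 : ∑ v ∈ Finset.Ico (V N x) (D * N + 1), w N v ω * In A v ω =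
      ∑ s ∈ Finset.Icc s₀ x, u N s ω * In A (V N s) ω :=
    fiber_sum s₀ (X N) x (V N x) (D * N + 1) (V N) (fun s => u N s ω) (fun v => In A v ω) hx ha hb
  have e2 : ∑ v ∈ Finset.Ico (V N x) (D * N + 1), w N v ω * rhoW W v =
      ∑ s ∈ Finset.Icc s₀ x, u N s ω * rhoW W (V N s) :=
    fiber_sum s₀ (X N) x (V N x) (D * N + 1) (V N) (fun s => u N s ω) (fun v => rhoW W v) hx ha hb
  rw [e1, e2] at h1
  set R := ∑ s ∈ Finset.Icc s₀ x, u N s ω * In A (V N s) ω with hR
  set Dd := ∑ s ∈ Finset.Icc s₀ x, u N s ω * rhoW W (V N s) with hD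
  set S := ∑ s ∈ Finset.Icc s₀ x, (if Nat.Coprime (V N s) W then u N s ω else 0) with hS
  have hS0 : 0 ≤ S := Finset.sum_nonneg fun s _ => by
    split_ifs
    · exact (hu1 N s ω).1
    · exact le_rfl
  have hD1 : (1 - η) * (c / Real.log N * S) ≤ Dd := by
    rw [hS, hD, ← mul_assoc, Finset.mul_sum]
    apply Finset.sum_le_sum
    intro s hs
    have hs' := Finset.mem_Icc.1 hs
    rw [rhoW_eq]
    split_ifs
    · have h3 := hV1 N s hs'.1 (hs'.2.trans hx)
      have := (hh (V N s) h3.1 h3.2).1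
      rw [mul_comm]
      exact mul_le_mul_of_nonneg_left this (hu1 N s ω).1
    · rw [mul_zero, mul_zero]
  have hD2 : Dd ≤ (1 + η) * (c / Real.log N * S) := by
    rw [hS, hD, ← mul_assoc, Finset.mul_sum]
    apply Finset.sum_le_sum
    intro s hs
    have hs' := Finset.mem_Icc.1 hs
    rw [rhoW_eq]
    split_ifs
    · have h3 := hV1 N s hs'.1 (hs'.2.trans hx)
      have := (hh (V N s) h3.1 h3.2).2
      rw [mul_comm ((1 + η) * (c / Real.log N))]
      exact mul_le_mul_of_nonneg_left this (hu1 N s ω).1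
    · rw [mul_zero, mul_zero]
  set Z : ℝ := c / Real.log N * S with hZ
  have hZ0 : 0 ≤ Z := by positivity
  have a1 := abs_le.1 h1
  have g1 : η * Dd ≤ η * ((1 + η) * Z) := mul_le_mul_of_nonneg_left hD2 hη0.le
  have g2 : η * ((1 + η) * Z) ≤ 2 * (η * Z) := by
    have : (1 + η) * Z ≤ 2 * Z := by nlinarith
    nlinarith
  have g3 : η * Z ≤ ε / 4 * Z := mul_le_mul_of_nonneg_right hηε hZ0
  have g4 : 0 ≤ ε * Z := mul_nonneg hε.le hZ0
  rw [abs_le]
  constructor <;> nlinarith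

/-- **two conditions** -/
theorem comp_two (hA : ∀ n, MeasurableSet[ℱ n] (A n)) {W : ℕ} (hW : 0 < W)
    (hd : ∀ᵐ ω ∂μ, ∀ ε : ℝ, 0 < ε → ∀ᶠ n : ℕ in atTop,
      |dens μ ℱ A n ω - rhoW W (n + 1)| ≤ ε * rhoW W (n + 1))
    (s₀ : ℕ) (hs₀ : 1 ≤ s₀) (X : ℕ → ℕ) (V V' : ℕ → ℕ → ℕ) (D : ℕ)
    (hV : ∀ N s t, s₀ ≤ s → s < t → t ≤ X N → V N t < V N s)
    (hV1 : ∀ N s, s₀ ≤ s → s ≤ X N → N ≤ 2 * V N s ∧ V N s ≤ D * N)
    (hV' : ∀ N s t, s₀ ≤ s → s < t → t ≤ X N → V' N t < V' N s)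
    (hV'1 : ∀ N s, s₀ ≤ s → s ≤ X N → N ≤ 2 * V' N s ∧ V' N s ≤ D * N)
    (hVV : ∀ N s, s₀ ≤ s → s ≤ X N → V' N s ≤ V N s - 1)
    (u : ℕ → ℕ → Ω → ℝ)
    (hu : ∀ N s, s₀ ≤ s → s ≤ X N → StronglyMeasurable[ℱ (V' N s - 1)] (u N s))
    (hu1 : ∀ N s ω, 0 ≤ u N s ω ∧ u N s ω ≤ 1) :
    ∀ᵐ ω ∂μ, ∀ ε : ℝ, 0 < ε → ∃ C : ℝ, 0 < C ∧ ∀ᶠ N : ℕ in atTop, ∀ x : ℕ, x ≤ X N →
      |∑ s ∈ Finset.Icc s₀ x, u N s ω * In A (V' N s) ω * In A (V N s) ω -
        (((W : ℝ) / Nat.totient W) / Real.log N) ^ 2 *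
          ∑ s ∈ Finset.Icc s₀ x, (if Nat.Coprime (V' N s) W ∧ Nat.Coprime (V N s) W then u N s ω else 0)| ≤
        ε * ((((W : ℝ) / Nat.totient W) / Real.log N) ^ 2 *
          ∑ s ∈ Finset.Icc s₀ x, (if Nat.Coprime (V' N s) W ∧ Nat.Coprime (V N s) W then u N s ω else 0)) +
          C * Real.log N := by
  classical
  set c : ℝ := (W : ℝ) / Nat.totient W with hc
  have hφ : 0 < Nat.totient W := Nat.totient_pos.2 hW
  have hc0 : 0 < c := by
    have : (0 : ℝ) < W := by exact_mod_cast hW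
    have : (0 : ℝ) < Nat.totient W := by exact_mod_cast hφ
    positivity
  have m1 : ∀ N s, s₀ ≤ s → s ≤ X N →
      StronglyMeasurable[ℱ (V N s - 1)] (fun ω => u N s ω * In A (V' N s) ω) := by
    intro N s h1 h2
    have h3 := hVV N s h1 h2
    refine StronglyMeasurable.mul ((hu N s h1 h2).mono (ℱ.mono (by omega))) ?_
    exact (@stronglyMeasurable_const _ _ (ℱ (V N s - 1)) _ _).indicator (ℱ.mono h3 _ (hA (V' N s)))
  have m2 : ∀ N s, s₀ ≤ s → s ≤ X N →
      StronglyMeasurable[ℱ (V' N s - 1)] (fun ω => if Nat.Coprime (V N s) W then u N s ω else 0) := by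
    intro N s h1 h2
    by_cases h : Nat.Coprime (V N s) W
    · rw [show (fun ω => if Nat.Coprime (V N s) W then u N s ω else 0) = u N s from
        funext fun ω => if_pos h]
      exact hu N s h1 h2
    · rw [show (fun ω => if Nat.Coprime (V N s) W then u N s ω else 0) = fun _ => (0 : ℝ) from
        funext fun ω => if_neg h]
      exact @stronglyMeasurable_const _ _ (ℱ (V' N s - 1)) _ _
  filter_upwards [comp_gen (μ := μ) hA hW hd s₀ hs₀ X V D hV hV1
      (fun N s ω => u N s ω * In A (V' N s) ω) m1 (fun N s ω => by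
        have h1 := hu1 N s ω
        have h2 : 0 ≤ In A (V' N s) ω := In_nonneg _ _
        have h3 : In A (V' N s) ω ≤ 1 := In_le _ _
        exact ⟨mul_nonneg h1.1 h2, mul_le_one₀ h1.2 h2 h3⟩),
    comp_gen (μ := μ) hA hW hd s₀ hs₀ X V' D hV' hV'1
      (fun N s ω => if Nat.Coprime (V N s) W then u N s ω else 0) m2 (fun N s ω => by
        split_ifs
        · exact hu1 N s ω
        · exact ⟨le_rfl, zero_le_one⟩)] with ω hω1 hω2 ε hε
  set η : ℝ := min 1 (ε / 4) with hη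
  have hη0 : 0 < η := by positivity
  have hη1 : η ≤ 1 := min_le_left _ _
  have hηε : η ≤ ε / 4 := min_le_right _ _
  obtain ⟨C1, hC10, hC1⟩ := hω1 η hη0
  obtain ⟨C2, hC20, hC2⟩ := hω2 η hη0
  have hlogT : Tendsto (fun N : ℕ => Real.log (N : ℝ)) atTop atTop :=
    Real.tendsto_log_atTop.comp tendsto_natCast_atTop_atTop
  refine ⟨C1 + 2 * C2, by positivity, ?_⟩
  filter_upwards [hC1, hC2, hlogT.eventually_ge_atTop (max 1 c)] with N h1 h2 h3 x hx
  have hlog1 : 1 ≤ Real.log (N : ℝ) := (le_max_left _ _).trans h3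
  have hlogc : c ≤ Real.log (N : ℝ) := (le_max_right _ _).trans h3
  have hlog : 0 < Real.log (N : ℝ) := by linarith
  have h4 := h1 x hx
  have h5 := h2 x hx
  have e1 : ∑ s ∈ Finset.Icc s₀ x, (if Nat.Coprime (V N s) W then u N s ω * In A (V' N s) ω else 0) =
      ∑ s ∈ Finset.Icc s₀ x, (if Nat.Coprime (V N s) W then u N s ω else 0) * In A (V' N s) ω := by
    refine Finset.sum_congr rfl fun s _ => ?_
    split_ifs
    · rfl
    · rw [zero_mul]
  have e2 : ∑ s ∈ Finset.Icc s₀ x, (if Nat.Coprime (V' N s) W then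
        (if Nat.Coprime (V N s) W then u N s ω else 0) else 0) =
      ∑ s ∈ Finset.Icc s₀ x, (if Nat.Coprime (V' N s) W ∧ Nat.Coprime (V N s) W then u N s ω else 0) := by
    refine Finset.sum_congr rfl fun s _ => ?_
    by_cases h6 : Nat.Coprime (V' N s) W
    · by_cases h7 : Nat.Coprime (V N s) W
      · rw [if_pos h6, if_pos h7, if_pos ⟨h6, h7⟩]
      · rw [if_pos h6, if_neg h7, if_neg (fun h => h7 h.2)]
    · rw [if_neg h6, if_neg (fun h => h6 h.1)]
  rw [e1] at h4
  rw [e2] at h5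
  set R := ∑ s ∈ Finset.Icc s₀ x, u N s ω * In A (V' N s) ω * In A (V N s) ω with hR
  set S1 := ∑ s ∈ Finset.Icc s₀ x, (if Nat.Coprime (V N s) W then u N s ω else 0) * In A (V' N s) ω
    with hS1
  set S := ∑ s ∈ Finset.Icc s₀ x, (if Nat.Coprime (V' N s) W ∧ Nat.Coprime (V N s) W then u N s ω else 0)
    with hS
  have hS0 : 0 ≤ S := Finset.sum_nonneg fun s _ => by
    split_ifs
    · exact (hu1 N s ω).1
    · exact le_rfl
  set κ : ℝ := c / Real.log N with hκ
  have hκ0 : 0 < κ := by positivity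
  have hκ1 : κ ≤ 1 := by
    rw [hκ, div_le_one hlog]
    exact hlogc
  have e3 : κ ^ 2 * S = κ * (κ * S) := by ring
  rw [e3]
  set Z := κ * (κ * S) with hZ
  have hZ0 : 0 ≤ Z := by positivity
  -- from `S1` to `κ S`
  have h6 : |κ * S1 - Z| ≤ η * Z + C2 * Real.log N := by
    have e4 : κ * S1 - Z = κ * (S1 - κ * S) := by rw [hZ]; ring
    rw [e4, abs_mul, abs_of_pos hκ0]
    calc κ * |S1 - κ * S| ≤ κ * (η * (κ * S) + C2 * Real.log N) :=
          mul_le_mul_of_nonneg_left h5 hκ0.le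
      _ = η * Z + κ * (C2 * Real.log N) := by rw [hZ]; ring
      _ ≤ η * Z + 1 * (C2 * Real.log N) := by gcongr
      _ = _ := by ring
  have a1 := abs_le.1 h4
  have a2 := abs_le.1 h6
  have g1 : η * (κ * S1) ≤ 2 * (η * Z) + C2 * Real.log N := by
    have g2 : κ * S1 ≤ (1 + η) * Z + C2 * Real.log N := by linarith
    have g3 : η * (κ * S1) ≤ η * ((1 + η) * Z + C2 * Real.log N) :=
      mul_le_mul_of_nonneg_left g2 hη0.le
    have g4 : η * (C2 * Real.log N) ≤ 1 * (C2 * Real.log N) :=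
      mul_le_mul_of_nonneg_right hη1 (by positivity)
    have g5 : η * ((1 + η) * Z) ≤ η * (2 * Z) :=
      mul_le_mul_of_nonneg_left (mul_le_mul_of_nonneg_right (by linarith) hZ0) hη0.le
    nlinarith
  have g3 : η * Z ≤ ε / 4 * Z := mul_le_mul_of_nonneg_right hηε hZ0
  have g4 : 0 ≤ ε * Z := mul_nonneg hε.le hZ0
  have g5 : (C1 + 2 * C2) * Real.log N = C1 * Real.log N + 2 * (C2 * Real.log N) := by ring
  rw [g5, abs_le]
  constructor <;> nlinarith

end Pool.Agent.N9.AD
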