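import Mathlib
import Pool.Agent.N9.AD.Cnt
import Pool.Agent.N909.TF.Tools

set_option autoImplicit false
set_option linter.unusedSectionVars false

/-! # Twins in adapted sets -/

open MeasureTheory Filter Set
open scoped ENNReal Topology

namespace Pool.Agent.N9.AD

open Pool.Agent.R528.RM Pool.Agent.N893.SM Pool.Agent.N909.TF

/-- partial summation -/
lemma psum (χ : ℕ → ℝ) (hχ : ∀ v, 0 ≤ χ v ∧ χ v ≤ 1) (c τ : ℝ) (hc : 0 < c) (j : ℕ)
    (h : Tendsto (fun x : ℕ => (∑ v ∈ Finset.Icc 1 x, χ v) * Real.log x ^ j / x) atTop (𝓝 τ)) :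
    Tendsto (fun x : ℕ => (∑ v ∈ Finset.Icc 1 x, χ v * bb c (v + 2)) * Real.log x ^ (j + 1) / x)
      atTop (𝓝 (c * τ)) := by
  have hlog : Tendsto (fun N : ℕ => Real.log (N : ℝ)) atTop atTop :=
    Real.tendsto_log_atTop.comp tendsto_natCast_atTop_atTop
  have hτ0 : 0 ≤ τ := by
    apply ge_of_tendsto' h
    intro x
    have h1 : 0 ≤ ∑ v ∈ Finset.Icc 1 x, χ v := Finset.sum_nonneg fun v _ => (hχ v).1
    have h2 : 0 ≤ Real.log (x : ℝ) := Real.log_natCast_nonneg x
    positivity
  -- it is enough to treat the difference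
  have hdiff : Tendsto (fun x : ℕ => (∑ v ∈ Finset.Icc 1 x, χ v * bb c (v + 2)) * Real.log x ^ (j + 1) / x -
      c * ((∑ v ∈ Finset.Icc 1 x, χ v) * Real.log x ^ j / x)) atTop (𝓝 0) := by
    rw [Metric.tendsto_atTop]
    intro ε hε
    set δ : ℝ := min (1 / 2) (ε / (4 * c * (τ + 1))) with hδ
    have hδ0 : 0 < δ := by positivity
    have hδ1 : δ ≤ 1 / 2 := min_le_left _ _
    have hδε : δ * (4 * c * (τ + 1)) ≤ ε := by
      have : δ ≤ ε / (4 * c * (τ + 1)) := min_le_right _ _
      rwa [le_div_iff₀ (by positivity)] at this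
    -- the small `v`
    have h1 : ∀ᶠ x : ℕ in atTop, ((x : ℝ) ^ (1 - δ) + 1) * Real.log x ^ (j + 1) / x < ε / 2 := by
      have g1 := (pow_log 1 δ one_pos hδ0 (j + 1)).eventually_gt_atTop (2 * 2 / ε)
      filter_upwards [g1, eventually_gt_atTop 1, hlog.eventually_gt_atTop 0] with x k1 k2 k3
      have hx : (1 : ℝ) < x := by exact_mod_cast k2
      have hx0 : (0 : ℝ) < x := by linarith
      have hp : 0 < Real.log (x : ℝ) ^ (j + 1) := by positivity
      rw [one_mul, div_lt_div_iff₀ hε hp] at k1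
      have e1 : (x : ℝ) = (x : ℝ) ^ (1 - δ) * (x : ℝ) ^ δ := by
        rw [← Real.rpow_add hx0]
        norm_num
      have e2 : 1 ≤ (x : ℝ) ^ (1 - δ) := Real.one_le_rpow hx.le (by linarith)
      rw [div_lt_iff₀ hx0]
      calc ((x : ℝ) ^ (1 - δ) + 1) * Real.log x ^ (j + 1)
          ≤ (2 * (x : ℝ) ^ (1 - δ)) * Real.log x ^ (j + 1) :=
            mul_le_mul_of_nonneg_right (by linarith) hp.le
        _ = (x : ℝ) ^ (1 - δ) / 2 * (2 * 2 * Real.log x ^ (j + 1)) := by ring
        _ < (x : ℝ) ^ (1 - δ) / 2 * ((x : ℝ) ^ δ * ε) := by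
            apply mul_lt_mul_of_pos_left k1
            positivity
        _ = ε / 2 * x := by
            conv_rhs => rw [e1]
            ring
    have h2 : ∀ᶠ x : ℕ in atTop, (∑ v ∈ Finset.Icc 1 x, χ v) * Real.log x ^ j / x < τ + 1 :=
      h.eventually (gt_mem_nhds (by linarith))
    obtain ⟨x₀, hx₀⟩ := eventually_atTop.1 ((h1.and h2).and ((near_log 3 δ hδ0).and
      ((hlog.eventually_ge_atTop (2 * c + 2)).and (eventually_gt_atTop 1))))
    refine ⟨x₀, fun x hx => ?_⟩
    obtain ⟨⟨k1, k2⟩, k3, k4, k5⟩ := hx₀ x hx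
    have hx1 : (1 : ℝ) < x := by exact_mod_cast k5
    have hx0 : (0 : ℝ) < x := by linarith
    have hL : 0 < Real.log (x : ℝ) := by linarith
    have hp : 0 < Real.log (x : ℝ) ^ (j + 1) := by positivity
    rw [Real.dist_eq, sub_zero]
    -- pointwise
    have hpt : ∀ v ∈ Finset.Icc 1 x, |χ v * bb c (v + 2) - χ v * (c / Real.log x)| ≤
        (if (v : ℝ) < (x : ℝ) ^ (1 - δ) then 1 else 0) + 2 * δ * (c / Real.log x) * χ v := by
      intro v hv
      have hv' := Finset.mem_Icc.1 hv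
      obtain ⟨c0, c1⟩ := hχ v
      have hcl : 0 < c / Real.log x := by positivity
      rw [← mul_sub, abs_mul, abs_of_nonneg c0]
      split_ifs with hlt
      · have b0 : 0 ≤ bb c (v + 2) := bb_nonneg hc.le _
        have b1 : bb c (v + 2) ≤ 1 := min_le_left _ _
        have b2 : c / Real.log x ≤ 1 := by
          rw [div_le_one hL]
          linarith
        have b3 : |bb c (v + 2) - c / Real.log x| ≤ 1 := by
          rw [abs_le]
          constructor <;> linarith
        have b4 : χ v * |bb c (v + 2) - c / Real.log x| ≤ 1 := mul_le_one₀ c1 (abs_nonneg _) b3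
        have b5 : 0 ≤ 2 * δ * (c / Real.log x) * χ v := by positivity
        linarith
      · rw [not_lt] at hlt
        have ht1 : (x : ℝ) ^ (1 - δ) ≤ ((v + 2 : ℕ) : ℝ) := by
          push_cast
          linarith
        have ht2 : ((v + 2 : ℕ) : ℝ) ≤ 3 * x := by
          have : v + 2 ≤ 3 * x := by omega
          exact_mod_cast this
        have h3 := abs_le.1 (k3 (v + 2) ht1 ht2)
        set lv := Real.log ((v + 2 : ℕ) : ℝ) with hlv
        have hlv1 : (1 - δ) * Real.log x ≤ lv := by linarith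
        have hlv2 : lv ≤ (1 + δ) * Real.log x := by linarith
        have hlv3 : c ≤ lv := by nlinarith
        have hlv0 : 0 < lv := by linarith
        have hbb : bb c (v + 2) = c / lv := by
          unfold bb
          apply min_eq_right
          rw [div_le_one hlv0]
          exact hlv3
        rw [hbb, zero_add]
        have e1 : |c / lv - c / Real.log x| ≤ 2 * δ * (c / Real.log x) := by
          have e2 : c / lv - c / Real.log x = c / Real.log x * ((Real.log x - lv) / lv) := by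
            field_simp
          rw [e2, abs_mul, abs_of_pos hcl, mul_comm (2 * δ)]
          apply mul_le_mul_of_nonneg_left _ hcl.le
          rw [abs_div, abs_of_pos hlv0, div_le_iff₀ hlv0, abs_le]
          have e3 : δ * Real.log x ≤ 2 * δ * lv := by nlinarith
          constructor <;> linarith
        calc χ v * |c / lv - c / Real.log x| ≤ χ v * (2 * δ * (c / Real.log x)) :=
              mul_le_mul_of_nonneg_left e1 c0
          _ = _ := by ring
    have hsmall : ∑ v ∈ Finset.Icc 1 x, (if (v : ℝ) < (x : ℝ) ^ (1 - δ) then (1 : ℝ) else 0) ≤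
        (x : ℝ) ^ (1 - δ) + 1 := by
      rw [Finset.sum_boole]
      have e1 : (Finset.Icc 1 x).filter (fun v : ℕ => (v : ℝ) < (x : ℝ) ^ (1 - δ)) ⊆
          Finset.range (⌊(x : ℝ) ^ (1 - δ)⌋₊ + 1) := by
        intro v hv
        obtain ⟨_, h3⟩ := Finset.mem_filter.1 hv
        rw [Finset.mem_range, Nat.lt_succ_iff]
        exact Nat.le_floor h3.le
      have e2 := Finset.card_le_card e1
      rw [Finset.card_range] at e2
      have e3 : (((Finset.Icc 1 x).filter (fun v : ℕ => (v : ℝ) < (x : ℝ) ^ (1 - δ))).card : ℝ) ≤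
          (⌊(x : ℝ) ^ (1 - δ)⌋₊ : ℝ) + 1 := by exact_mod_cast e2
      have e4 : (⌊(x : ℝ) ^ (1 - δ)⌋₊ : ℝ) ≤ (x : ℝ) ^ (1 - δ) := Nat.floor_le (by positivity)
      linarith
    set Sχ := ∑ v ∈ Finset.Icc 1 x, χ v with hSχ
    have hS0 : 0 ≤ Sχ := Finset.sum_nonneg fun v _ => (hχ v).1
    have hsum : |∑ v ∈ Finset.Icc 1 x, χ v * bb c (v + 2) - c / Real.log x * Sχ| ≤
        ((x : ℝ) ^ (1 - δ) + 1) + 2 * δ * (c / Real.log x) * Sχ := by
      have e1 : ∑ v ∈ Finset.Icc 1 x, χ v * bb c (v + 2) - c / Real.log x * Sχ =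
          ∑ v ∈ Finset.Icc 1 x, (χ v * bb c (v + 2) - χ v * (c / Real.log x)) := by
        rw [Finset.sum_sub_distrib, ← Finset.sum_mul, mul_comm (c / Real.log x)]
      rw [e1]
      refine (Finset.abs_sum_le_sum_abs _ _).trans ((Finset.sum_le_sum hpt).trans ?_)
      rw [Finset.sum_add_distrib, ← Finset.mul_sum]
      linarith
    have e1 : (∑ v ∈ Finset.Icc 1 x, χ v * bb c (v + 2)) * Real.log x ^ (j + 1) / x -
        c * (Sχ * Real.log x ^ j / x) =
        (∑ v ∈ Finset.Icc 1 x, χ v * bb c (v + 2) - c / Real.log x * Sχ) * (Real.log x ^ (j + 1) / x) := by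
      field_simp
      ring
    have hq : 0 < Real.log (x : ℝ) ^ (j + 1) / x := by positivity
    rw [e1, abs_mul, abs_of_pos hq]
    calc |∑ v ∈ Finset.Icc 1 x, χ v * bb c (v + 2) - c / Real.log x * Sχ| * (Real.log x ^ (j + 1) / x)
        ≤ (((x : ℝ) ^ (1 - δ) + 1) + 2 * δ * (c / Real.log x) * Sχ) * (Real.log x ^ (j + 1) / x) :=
          mul_le_mul_of_nonneg_right hsum hq.le
      _ = ((x : ℝ) ^ (1 - δ) + 1) * Real.log x ^ (j + 1) / x +
            2 * δ * c * (Sχ * Real.log x ^ j / x) := by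
          field_simp
          ring
      _ < ε / 2 + 2 * δ * c * (τ + 1) := by
          have : 2 * δ * c * (Sχ * Real.log x ^ j / x) ≤ 2 * δ * c * (τ + 1) :=
            mul_le_mul_of_nonneg_left k2.le (by positivity)
          linarith
      _ ≤ ε := by nlinarith
  have h3 := hdiff.add (h.const_mul c)
  rw [zero_add] at h3
  refine h3.congr fun x => ?_
  ring

variable {Ω : Type} {m0 : MeasurableSpace Ω} {μ : Measure Ω} [IsProbabilityMeasure μ]
  {ℱ : Filtration ℕ m0} {A : ℕ → Set Ω}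

lemma cop_mod (v : ℕ) {W : ℕ} : Nat.Coprime (v % W) W ↔ Nat.Coprime v W := by
  rw [Nat.Coprime, Nat.Coprime, ← Nat.gcd_rec, Nat.gcd_comm]

/-- `log N` is small -/
lemma log_small (C : ℝ) (j : ℕ) :
    Tendsto (fun x : ℕ => C * Real.log x * Real.log x ^ j / x) atTop (𝓝 0) := by
  have h1 : Tendsto (fun x : ℝ => Real.log x ^ ((j + 1 : ℕ) : ℝ) / x ^ (1 : ℝ)) atTop (𝓝 0) :=
    (isLittleO_log_rpow_rpow_atTop ((j + 1 : ℕ) : ℝ) one_pos).tendsto_div_nhds_zero
  have h2 := (h1.comp tendsto_natCast_atTop_atTop).const_mul C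
  rw [mul_zero] at h2
  refine h2.congr fun x => ?_
  simp only [Function.comp_apply]
  rw [Real.rpow_natCast, Real.rpow_one, pow_succ]
  ring

/-- **twins with the lower member in an adapted set** -/
theorem twin_law (hA : ∀ n, MeasurableSet[ℱ n] (A n)) {W : ℕ} (hW : 0 < W)
    (hd : ∀ᵐ ω ∂μ, ∀ ε : ℝ, 0 < ε → ∀ᶠ n : ℕ in atTop,
      |dens μ ℱ A n ω - rhoW W (n + 1)| ≤ ε * rhoW W (n + 1))
    (B : ℕ → Set Ω) (hB : ∀ n, MeasurableSet[ℱ n] (B n)) (j : ℕ) (τ : ℕ → ℝ)
    (hτ : ∀ᵐ ω ∂μ, ∀ b < W, Nat.Coprime (b + 2) W →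
      Tendsto (fun x : ℕ => (∑ v ∈ Finset.Icc 1 x, (if v % W = b then In B v ω else 0)) *
        Real.log x ^ j / x) atTop (𝓝 (τ b))) :
    ∀ᵐ ω ∂μ, Tendsto (fun x : ℕ => (∑ v ∈ Finset.Icc 1 x, In B v ω * In A (v + 2) ω) *
      Real.log x ^ (j + 1) / x) atTop (𝓝 (((W : ℝ) / Nat.totient W) *
        ∑ b ∈ (Finset.range W).filter (fun b => Nat.Coprime (b + 2) W), τ b)) := by
  classical
  set c : ℝ := (W : ℝ) / Nat.totient W with hc
  have hφ : 0 < Nat.totient W := Nat.totient_pos.2 hW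
  have hc0 : 0 < c := by
    have : (0 : ℝ) < W := by exact_mod_cast hW
    have : (0 : ℝ) < Nat.totient W := by exact_mod_cast hφ
    positivity
  have hmeas : ∀ N v : ℕ, 1 ≤ v → StronglyMeasurable[ℱ (v - 1)]
      (fun ω => if 3 ≤ v then In B (v - 2) ω else 0) := by
    intro N v hv
    by_cases h : 3 ≤ v
    · simp only [h, if_true]
      exact (@stronglyMeasurable_const _ _ (ℱ (v - 1)) _ _).indicator
        (ℱ.mono (by omega) _ (hB (v - 2)))
    · simp only [h, if_false]
      exact @stronglyMeasurable_const _ _ (ℱ (v - 1)) _ _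
  filter_upwards [hτ, eng (μ := μ) hA (rhoW W) (fun n => ⟨rhoW_nonneg W n, rhoW_le W n⟩) hd 2
    (fun _ v ω => if 3 ≤ v then In B (v - 2) ω else 0) hmeas (by
      intro N v ω
      split_ifs
      · exact ⟨In_nonneg _ _, In_le _ _⟩
      · exact ⟨le_rfl, zero_le_one⟩)] with ω hω1 hω2
  -- the predictable sum
  have hpred : Tendsto (fun x : ℕ => (∑ v ∈ Finset.Icc 1 x, In B v ω * rhoW W (v + 2)) *
      Real.log x ^ (j + 1) / x) atTop (𝓝 (c *
        ∑ b ∈ (Finset.range W).filter (fun b => Nat.Coprime (b + 2) W), τ b)) := by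
    have h1 : Tendsto (fun x : ℕ => ∑ b ∈ (Finset.range W).filter (fun b => Nat.Coprime (b + 2) W),
        (∑ v ∈ Finset.Icc 1 x, (if v % W = b then In B v ω else 0) * bb c (v + 2)) *
          Real.log x ^ (j + 1) / x) atTop
        (𝓝 (∑ b ∈ (Finset.range W).filter (fun b => Nat.Coprime (b + 2) W), c * τ b)) := by
      apply tendsto_finsetSum
      intro b hb
      obtain ⟨hb1, hb2⟩ := Finset.mem_filter.1 hb
      apply psum _ _ c (τ b) hc0 j (hω1 b (Finset.mem_range.1 hb1) hb2)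
      intro v
      split_ifs
      · exact ⟨In_nonneg _ _, In_le _ _⟩
      · exact ⟨le_rfl, zero_le_one⟩
    rw [Finset.mul_sum]
    refine h1.congr fun x => ?_
    rw [← Finset.sum_div, ← Finset.sum_mul, Finset.sum_comm]
    congr 2
    refine Finset.sum_congr rfl fun v _ => ?_
    rw [rhoW_eq]
    have h2 : ∀ b ∈ (Finset.range W).filter (fun b => Nat.Coprime (b + 2) W),
        (if v % W = b then In B v ω else 0) * bb c (v + 2) =
        if v % W = b then In B v ω * bb c (v + 2) else 0 := by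
      intro b _
      split_ifs
      · rfl
      · rw [zero_mul]
    rw [Finset.sum_congr rfl h2, Finset.sum_ite_eq]
    have h3 : v % W ∈ (Finset.range W).filter (fun b => Nat.Coprime (b + 2) W) ↔
        Nat.Coprime (v + 2) W := by
      rw [Finset.mem_filter, Finset.mem_range]
      have h4 : Nat.Coprime (v % W + 2) W ↔ Nat.Coprime (v + 2) W := by
        have h5 : (v % W + 2) % W = (v + 2) % W := Nat.mod_add_mod v W 2
        rw [← cop_mod (v % W + 2), h5, cop_mod]
      rw [h4]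
      exact ⟨fun h => h.2, fun h => ⟨Nat.mod_lt _ hW, h⟩⟩
    by_cases h4 : Nat.Coprime (v + 2) W
    · rw [if_pos (h3.2 h4), if_pos h4]
    · rw [if_neg (fun h => h4 (h3.1 h)), if_neg h4, mul_zero]
  set L : ℝ := c * ∑ b ∈ (Finset.range W).filter (fun b => Nat.Coprime (b + 2) W), τ b with hL
  -- the difference
  have hdiff : Tendsto (fun x : ℕ => (∑ v ∈ Finset.Icc 1 x, In B v ω * In A (v + 2) ω) *
      Real.log x ^ (j + 1) / x - (∑ v ∈ Finset.Icc 1 x, In B v ω * rhoW W (v + 2)) *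
      Real.log x ^ (j + 1) / x) atTop (𝓝 0) := by
    rw [Metric.tendsto_atTop]
    intro ε hε
    have hL0 : 0 ≤ L := by
      apply ge_of_tendsto' hpred
      intro x
      have h1 : 0 ≤ ∑ v ∈ Finset.Icc 1 x, In B v ω * rhoW W (v + 2) :=
        Finset.sum_nonneg fun v _ => mul_nonneg (In_nonneg _ _) (rhoW_nonneg _ _)
      have h2 : 0 ≤ Real.log (x : ℝ) := Real.log_natCast_nonneg x
      positivity
    obtain ⟨C, hC0, hC⟩ := hω2 (ε / (2 * (L + 1))) (by positivity)
    have h1 := (log_small C (j + 1)).eventually (gt_mem_nhds (show (0 : ℝ) < ε / 2 by positivity))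
    have h2 := hpred.eventually (gt_mem_nhds (show L < L + 1 by linarith))
    obtain ⟨x₀, hx₀⟩ := eventually_atTop.1 ((h1.and h2).and (hC.and (eventually_ge_atTop 3)))
    refine ⟨x₀, fun x hx => ?_⟩
    obtain ⟨⟨k1, k2⟩, k3, k4⟩ := hx₀ x hx
    have hx1 : (3 : ℝ) ≤ x := by exact_mod_cast k4
    have hx0 : (0 : ℝ) < x := by linarith
    have hL' : 0 < Real.log (x : ℝ) := Real.log_pos (by linarith)
    have k5 := k3 3 (x + 3) (by norm_num) (by nlinarith)
    have hre : ∀ F : ℕ → ℝ, ∑ v ∈ Finset.Ico 3 (x + 3), (if 3 ≤ v then In B (v - 2) ω else 0) * F v =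
        ∑ v ∈ Finset.Icc 1 x, In B v ω * F (v + 2) := by
      intro F
      have e1 : Finset.Ico 3 (x + 3) = (Finset.Icc 1 x).image (fun v => v + 2) := by
        ext v
        simp only [Finset.mem_Ico, Finset.mem_image, Finset.mem_Icc]
        constructor
        · intro h
          exact ⟨v - 2, by omega, by omega⟩
        · rintro ⟨a, h, rfl⟩
          omega
      rw [e1, Finset.sum_image (by
        intro a _ b _ hab
        simp only at hab
        omega)]
      refine Finset.sum_congr rfl fun v hv => ?_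
      have hv' := Finset.mem_Icc.1 hv
      rw [if_pos (by omega), Nat.add_sub_cancel]
    rw [hre (fun v => In A v ω), hre (fun v => rhoW W v)] at k5
    set P := ∑ v ∈ Finset.Icc 1 x, In B v ω * rhoW W (v + 2) with hP
    set R := ∑ v ∈ Finset.Icc 1 x, In B v ω * In A (v + 2) ω with hR
    rw [Real.dist_eq, sub_zero]
    have hq : 0 < Real.log (x : ℝ) ^ (j + 1) / x := by positivity
    have e1 : R * Real.log x ^ (j + 1) / x - P * Real.log x ^ (j + 1) / x =
        (R - P) * (Real.log x ^ (j + 1) / x) := by ring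
    rw [e1, abs_mul, abs_of_pos hq]
    calc |R - P| * (Real.log x ^ (j + 1) / x)
        ≤ (ε / (2 * (L + 1)) * P + C * Real.log x) * (Real.log x ^ (j + 1) / x) :=
          mul_le_mul_of_nonneg_right k5 hq.le
      _ = ε / (2 * (L + 1)) * (P * Real.log x ^ (j + 1) / x) +
            C * Real.log x * Real.log x ^ (j + 1) / x := by ring
      _ < ε / (2 * (L + 1)) * (L + 1) + ε / 2 := by
          have : ε / (2 * (L + 1)) * (P * Real.log x ^ (j + 1) / x) ≤ ε / (2 * (L + 1)) * (L + 1) :=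
            mul_le_mul_of_nonneg_left k2.le (by positivity)
          linarith
      _ = ε := by
          field_simp
          ring
  have h3 := hdiff.add hpred
  rw [zero_add] at h3
  refine h3.congr fun x => ?_
  ring

/-- **the chosen integers with index in `T`, in residue classes** -/
theorem cls_law (hA : ∀ n, MeasurableSet[ℱ n] (A n)) {W : ℕ} (hW : 0 < W)
    (hcop : ∀ n, ¬ Nat.Coprime n W → A n = ∅)
    (hd : ∀ᵐ ω ∂μ, ∀ ε : ℝ, 0 < ε → ∀ᶠ n : ℕ in atTop,
      |dens μ ℱ A n ω - rhoW W (n + 1)| ≤ ε * rhoW W (n + 1))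
    (T : ℕ → Set Ω) (hT : ∀ n, MeasurableSet[ℱ n] (T n)) (j : ℕ) (τ : ℝ)
    (hτ : ∀ᵐ ω ∂μ, Tendsto (fun x : ℕ => (∑ v ∈ Finset.Icc 1 x, In (Us A T) v ω) *
        Real.log x ^ j / x) atTop (𝓝 τ)) :
    ∀ᵐ ω ∂μ, ∀ b < W, Nat.Coprime b W → Tendsto (fun x : ℕ =>
      (∑ v ∈ Finset.Icc 1 x, (if v % W = b then In (Us A T) v ω else 0)) *
      Real.log x ^ j / x) atTop (𝓝 (τ / Nat.totient W)) := by
  classical
  have hφ : 0 < Nat.totient W := Nat.totient_pos.2 hW
  have hφR : (0 : ℝ) < Nat.totient W := by exact_mod_cast hφ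
  filter_upwards [hτ, index_law (μ := μ) hA hW hcop hd hT 2] with ω hω1 hω2 b hb hbW
  have hdiff : Tendsto (fun x : ℕ =>
      (Nat.totient W : ℝ) * (∑ v ∈ Finset.Icc 1 x, (if v % W = b then In (Us A T) v ω else 0)) *
      Real.log x ^ j / x - (∑ v ∈ Finset.Icc 1 x, In (Us A T) v ω) *
        Real.log x ^ j / x) atTop (𝓝 0) := by
    rw [Metric.tendsto_atTop]
    intro ε hε
    have hL0 : 0 ≤ τ := by
      apply ge_of_tendsto' hω1
      intro x
      have h1 : 0 ≤ ∑ v ∈ Finset.Icc 1 x, In (Us A T) v ω :=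
        Finset.sum_nonneg fun v _ => In_nonneg _ _
      have h2 : 0 ≤ Real.log (x : ℝ) := Real.log_natCast_nonneg x
      positivity
    obtain ⟨C, hC0, hC⟩ := hω2 (ε / (2 * (τ + 1))) (by positivity)
    have h1 := (log_small C j).eventually (gt_mem_nhds (show (0 : ℝ) < ε / 2 by positivity))
    have h2 := hω1.eventually (gt_mem_nhds (show τ < τ + 1 by linarith))
    obtain ⟨x₀, hx₀⟩ := eventually_atTop.1 ((h1.and h2).and (hC.and (eventually_ge_atTop 3)))
    refine ⟨x₀, fun x hx => ?_⟩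
    obtain ⟨⟨k1, k2⟩, k3, k4⟩ := hx₀ x hx
    have hx1 : (3 : ℝ) ≤ x := by exact_mod_cast k4
    have hx0 : (0 : ℝ) < x := by linarith
    have hL' : 0 < Real.log (x : ℝ) := Real.log_pos (by linarith)
    have k5 := k3 x (by nlinarith) b hb hbW
    set P := ∑ v ∈ Finset.Icc 1 x, In (Us A T) v ω with hP
    set R := (Nat.totient W : ℝ) * ∑ v ∈ Finset.Icc 1 x, (if v % W = b then In (Us A T) v ω else 0)
      with hR
    rw [Real.dist_eq, sub_zero]
    have hq : 0 < Real.log (x : ℝ) ^ j / x := by positivity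
    have e1 : R * Real.log x ^ j / x - P * Real.log x ^ j / x =
        (R - P) * (Real.log x ^ j / x) := by ring
    rw [e1, abs_mul, abs_of_pos hq]
    calc |R - P| * (Real.log x ^ j / x)
        ≤ (ε / (2 * (τ + 1)) * P + C * Real.log x) * (Real.log x ^ j / x) :=
          mul_le_mul_of_nonneg_right k5 hq.le
      _ = ε / (2 * (τ + 1)) * (P * Real.log x ^ j / x) +
            C * Real.log x * Real.log x ^ j / x := by ring
      _ < ε / (2 * (τ + 1)) * (τ + 1) + ε / 2 := by
          have : ε / (2 * (τ + 1)) * (P * Real.log x ^ j / x) ≤ ε / (2 * (τ + 1)) * (τ + 1) :=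
            mul_le_mul_of_nonneg_left k2.le (by positivity)
          linarith
      _ = ε := by
          field_simp
          ring
  have h3 := (hdiff.add hω1).div_const (Nat.totient W : ℝ)
  rw [zero_add] at h3
  refine h3.congr fun x => ?_
  field_simp
  ring

end Pool.Agent.N9.AD
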