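import Mathlib
import Pool.Agent.N9.AD.Gen
import Pool.Agent.N9.AD.Fin
import Pool.Agent.N9.AD.Twin
import Pool.Agent.N9.AD.Dub
import Pool.Agent.N9.AD.Ab

set_option autoImplicit false
set_option linter.unusedSectionVars false

/-! # Sums of two twins in sieved models -/

open MeasureTheory Filter Set
open scoped ENNReal Topology

namespace Pool.Agent.N9.AD

open Pool.Agent.R528.RM Pool.Agent.N893.SM Pool.Agent.N909.TF

/-- a sum over the `s` with a property of `s % W` -/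
lemma split_classes {W : ℕ} (P : ℕ → Prop) [DecidablePred P] (G : Finset ℕ) (F : ℕ → ℝ) (x : ℕ)
    (h : ∀ s ∈ Finset.Icc 1 x, F s ≠ 0 → (P s ↔ s % W ∈ G)) :
    ∑ s ∈ Finset.Icc 1 x, (if P s then F s else 0) =
      ∑ a ∈ G, ∑ s ∈ Finset.Icc 1 x, (if s % W = a then F s else 0) := by
  classical
  rw [Finset.sum_comm]
  refine Finset.sum_congr rfl fun s hs => ?_
  rw [Finset.sum_ite_eq]
  by_cases hF : F s = 0
  · rw [hF]
    split_ifs <;> rfl
  · have h1 := h s hs hF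
    by_cases h2 : P s
    · rw [if_pos h2, if_pos (h1.1 h2)]
    · rw [if_neg h2, if_neg (fun h3 => h2 (h1.2 h3))]

/-- coprimality of `N - s` in terms of `s % W` -/
lemma cop_sub {W N s : ℕ} (hW : 0 < W) (hs : s ≤ N) (e : ℕ) :
    Nat.Coprime (N + (W - 1) * (s % W) + e) W ↔ Nat.Coprime (N - s + e) W := by
  have h3 : N + (W - 1) * s + e = (N - s + e) + W * s := by
    obtain ⟨w, rfl⟩ : ∃ w, W = w + 1 := ⟨W - 1, by omega⟩
    rw [Nat.add_sub_cancel]
    have : (w + 1) * s = w * s + s := by ring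
    rw [this]
    omega
  have h4 : (N + (W - 1) * (s % W) + e) % W = (N - s + e) % W := by
    have h5 : (N + (W - 1) * (s % W) + e) % W = (N + (W - 1) * s + e) % W := by
      have h6 : (W - 1) * (s % W) ≡ (W - 1) * s [MOD W] := (Nat.mod_modEq s W).mul_left _
      exact (h6.add_left N).add_right e
    rw [h5, h3, Nat.add_mul_mod_self_left]
  rw [← cop_mod (N - s + e), ← h4, cop_mod]

/-- the residue classes of the lower members -/
def GD (W N : ℕ) : Finset ℕ := (Finset.range W).filter (fun a => Nat.Coprime a W ∧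
  Nat.Coprime (a + 2) W ∧ Nat.Coprime (N + (W - 1) * a + 0) W ∧ Nat.Coprime (N + (W - 1) * a + 2) W)

lemma GD_iff {W N s : ℕ} (hW : 0 < W) (hs : s ≤ N) : s % W ∈ GD W N ↔ Nat.Coprime s W ∧
    Nat.Coprime (s + 2) W ∧ Nat.Coprime (N - s) W ∧ Nat.Coprime (N - s + 2) W := by
  unfold GD
  rw [Finset.mem_filter, Finset.mem_range, cop_mod, cop_sub hW hs 0, cop_sub hW hs 2, add_zero]
  have h5 : Nat.Coprime (s % W + 2) W ↔ Nat.Coprime (s + 2) W := by
    rw [← cop_mod (s % W + 2), Nat.mod_add_mod s W 2, cop_mod]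
  rw [h5]
  exact ⟨fun h => h.2, fun h => ⟨Nat.mod_lt _ hW, h⟩⟩

/-- there is a good class -/
lemma GD_pos (W : ℕ) (hW : 0 < W) (m : ℕ) (h2 : 2 ∣ W → Even m) (h3 : 3 ∣ W → m % 3 = 1) :
    1 ≤ (GD W m).card := by
  classical
  choose! r hr using fun l (h : l.Prime ∧ l ∣ W) => DT_res m l h.1 (fun h' => h2 (h' ▸ h.2))
    (fun h' => h3 (h' ▸ h.2))
  obtain ⟨x, hx⟩ := crt_primes W r
  have hmem : x % W ∈ GD W m := by
    unfold GD
    rw [Finset.mem_filter, Finset.mem_range]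
    have key : ∀ t : ℕ, (∀ l, l.Prime → l ∣ W → (t : ZMod l) ≠ 0) → Nat.Coprime t W := by
      intro t ht
      rw [coprime_iff_primes]
      intro l hl hlQ hlt
      exact ht l hl hlQ ((ZMod.natCast_eq_zero_iff t l).2 hlt)
    have hxr : ∀ l, l.Prime → l ∣ W → (((x % W : ℕ)) : ZMod l) = (r l : ZMod l) := by
      intro l hl hlQ
      exact (ZMod.natCast_eq_natCast_iff _ _ _).2 (hx (x % W) (Nat.mod_modEq x W) l hl hlQ hW.ne')
    have hW1 : ∀ l, l.Prime → l ∣ W → ((W - 1 : ℕ) : ZMod l) = -1 := by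
      intro l hl hlQ
      have e1 : ((W : ℕ) : ZMod l) = 0 := (ZMod.natCast_eq_zero_iff W l).2 hlQ
      rw [Nat.cast_sub (by omega), e1]
      simp
    refine ⟨Nat.mod_lt _ hW, key _ ?_, key _ ?_, key _ ?_, key _ ?_⟩
    · intro l hl hlQ
      rw [hxr l hl hlQ]
      exact (hr l ⟨hl, hlQ⟩).1
    · intro l hl hlQ
      rw [Nat.cast_add, hxr l hl hlQ]
      exact (hr l ⟨hl, hlQ⟩).2.1
    · intro l hl hlQ
      rw [add_zero, Nat.cast_add, Nat.cast_mul, hxr l hl hlQ, hW1 l hl hlQ]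
      have := (hr l ⟨hl, hlQ⟩).2.2.1
      intro h
      apply this
      rw [← h]
      ring
    · intro l hl hlQ
      rw [Nat.cast_add, Nat.cast_add, Nat.cast_mul, hxr l hl hlQ, hW1 l hl hlQ]
      have := (hr l ⟨hl, hlQ⟩).2.2.2
      intro h
      apply this
      rw [← h]
      push_cast
      ring
  exact Finset.card_pos.2 ⟨_, hmem⟩

variable {Ω : Type} {m0 : MeasurableSpace Ω} {μ : Measure Ω} [IsProbabilityMeasure μ]
  {ℱ : Filtration ℕ m0} {A : ℕ → Set Ω}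

/-- the chosen integers in a class -/
def Bc (A : ℕ → Set Ω) (W a : ℕ) (v : ℕ) : Set Ω := {ω | v % W = a ∧ ω ∈ A v}

lemma Bc_meas (hA : ∀ n, MeasurableSet[ℱ n] (A n)) (W a : ℕ) : ∀ n, MeasurableSet[ℱ n] (Bc A W a n) := by
  intro n
  by_cases h : n % W = a
  · rw [show Bc A W a n = A n from by ext ω; simp [Bc, h]]
    exact hA n
  · rw [show Bc A W a n = ∅ from by ext ω; simp [Bc, h]]
    exact @MeasurableSet.empty _ (ℱ n)

lemma Bc_In (W a v : ℕ) (ω : Ω) : In (Bc A W a) v ω = if v % W = a then In A v ω else 0 := by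
  unfold In
  by_cases h : v % W = a
  · rw [if_pos h]
    by_cases h1 : ω ∈ A v
    · rw [indicator_of_mem h1, indicator_of_mem (show ω ∈ Bc A W a v from ⟨h, h1⟩)]
    · rw [indicator_of_notMem h1, indicator_of_notMem (fun h2 : ω ∈ Bc A W a v => h1 h2.2)]
  · rw [if_neg h, indicator_of_notMem (fun h2 : ω ∈ Bc A W a v => h h2.1)]

/-- the chosen integers in a class: counting -/
theorem A_cls (hA : ∀ n, MeasurableSet[ℱ n] (A n)) (Q : Finset ℕ) (hQ : ∀ p ∈ Q, p.Prime)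
    (hcop : ∀ n, (∃ p ∈ Q, p ∣ n) → A n = ∅)
    (hd : ∀ᵐ ω ∂μ, Tendsto (fun n : ℕ => dens μ ℱ A n ω * Real.log n)
      (atTop ⊓ 𝓟 {n : ℕ | ∀ p ∈ Q, ¬ p ∣ n + 1}) (𝓝 (∏ p ∈ Q, (1 - 1 / (p : ℝ))⁻¹))) :
    ∀ᵐ ω ∂μ, ∀ b < ∏ p ∈ Q, p, Nat.Coprime b (∏ p ∈ Q, p) → Tendsto (fun x : ℕ =>
      (∑ v ∈ Finset.Icc 1 x, (if v % (∏ p ∈ Q, p) = b then In A v ω else 0)) *
      Real.log x ^ 1 / x) atTop (𝓝 (1 / Nat.totient (∏ p ∈ Q, p))) := by
  classical
  set W := ∏ p ∈ Q, p with hWdef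
  have hW : 0 < W := Finset.prod_pos fun q hq => (hQ q hq).pos
  have hprof := profile (μ := μ) hA Q hQ hcop hd
  have hcop' : ∀ n, ¬ Nat.Coprime n W → A n = ∅ := by
    intro n hn
    apply hcop
    rw [coprime_prod_iff Q hQ] at hn
    push Not at hn
    exact hn
  have h := cls_law (μ := μ) hA hW hcop' hprof (fun _ => univ) (fun n => @MeasurableSet.univ _ (ℱ n)) 1 1 (by
    filter_upwards [cnt_law (μ := μ) hA Q hQ hcop hd] with ω hω
    refine hω.congr fun x => ?_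
    rw [Us_univ, cnt_cast, pow_one])
  rw [Us_univ] at h
  exact h

/-- twins in a class: counting -/
theorem tw_cls (hA : ∀ n, MeasurableSet[ℱ n] (A n)) (Q : Finset ℕ) (hQ : ∀ p ∈ Q, p.Prime)
    (hcop : ∀ n, (∃ p ∈ Q, p ∣ n) → A n = ∅)
    (hd : ∀ᵐ ω ∂μ, Tendsto (fun n : ℕ => dens μ ℱ A n ω * Real.log n)
      (atTop ⊓ 𝓟 {n : ℕ | ∀ p ∈ Q, ¬ p ∣ n + 1}) (𝓝 (∏ p ∈ Q, (1 - 1 / (p : ℝ))⁻¹)))
    (a : ℕ) (ha : a < ∏ p ∈ Q, p) (ha1 : Nat.Coprime a (∏ p ∈ Q, p))
    (ha2 : Nat.Coprime (a + 2) (∏ p ∈ Q, p)) :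
    ∀ᵐ ω ∂μ, Tendsto (fun x : ℕ =>
      (∑ v ∈ Finset.Icc 1 x, (if v % (∏ p ∈ Q, p) = a then In A v ω * In A (v + 2) ω else 0)) *
      Real.log x ^ 2 / x) atTop (𝓝 ((((∏ p ∈ Q, p : ℕ) : ℝ) / Nat.totient (∏ p ∈ Q, p)) *
        (1 / Nat.totient (∏ p ∈ Q, p)))) := by
  classical
  set W := ∏ p ∈ Q, p with hWdef
  have hW : 0 < W := Finset.prod_pos fun q hq => (hQ q hq).pos
  have hprof := profile (μ := μ) hA Q hQ hcop hd
  have h := twin_law (μ := μ) hA hW hprof (Bc A W a) (Bc_meas hA W a) 1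
    (fun b => if b = a then 1 / (Nat.totient W : ℝ) else 0) (by
      filter_upwards [A_cls (μ := μ) hA Q hQ hcop hd] with ω hω b hb hb2
      by_cases hba : b = a
      · subst hba
        rw [if_pos rfl]
        refine (hω b ha ha1).congr fun x => ?_
        congr 2
        refine Finset.sum_congr rfl fun v _ => ?_
        rw [Bc_In]
        split_ifs <;> rfl
      · rw [if_neg hba]
        refine (tendsto_const_nhds (x := (0 : ℝ))).congr fun x => ?_
        rw [Finset.sum_eq_zero, zero_mul, zero_div]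
        intro v _
        rw [Bc_In]
        split_ifs with h1 h2
        · exact absurd (h1.symm.trans h2) hba
        · rfl
        · rfl)
  filter_upwards [h] with ω hω
  rw [Finset.sum_ite_eq' , if_pos (Finset.mem_filter.2 ⟨Finset.mem_range.2 ha, ha2⟩)] at hω
  refine hω.congr fun x => ?_
  congr 2
  refine Finset.sum_congr rfl fun v _ => ?_
  rw [Bc_In]
  split_ifs
  · rfl
  · rw [zero_mul]

/-- **the law for the sums of two twins** -/
theorem dub_law (hA : ∀ n, MeasurableSet[ℱ n] (A n)) (Q : Finset ℕ) (hQ : ∀ p ∈ Q, p.Prime)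
    (hcop : ∀ n, (∃ p ∈ Q, p ∣ n) → A n = ∅)
    (hd : ∀ᵐ ω ∂μ, Tendsto (fun n : ℕ => dens μ ℱ A n ω * Real.log n)
      (atTop ⊓ 𝓟 {n : ℕ | ∀ p ∈ Q, ¬ p ∣ n + 1}) (𝓝 (∏ p ∈ Q, (1 - 1 / (p : ℝ))⁻¹))) :
    ∀ᵐ ω ∂μ, ∀ ε : ℝ, 0 < ε → ∃ K : ℝ, 0 < K ∧ ∀ᶠ N : ℕ in atTop, ∀ x : ℕ, 2 ≤ x → x ≤ (N - 3) / 2 →
      |∑ s ∈ Finset.Icc 1 x, In A s ω * In A (s + 2) ω * In A (N - s) ω * In A (N - s + 2) ω -
        (((∏ p ∈ Q, p : ℕ) : ℝ) / Nat.totient (∏ p ∈ Q, p)) ^ 2 *
        (((GD (∏ p ∈ Q, p) N).card : ℝ) * ((((∏ p ∈ Q, p : ℕ) : ℝ) / Nat.totient (∏ p ∈ Q, p)) *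
          (1 / Nat.totient (∏ p ∈ Q, p)))) * (x / (Real.log x ^ 2 * Real.log N ^ 2))| ≤
        ε * (x / (Real.log x ^ 2 * Real.log N ^ 2)) + K * Real.log N := by
  classical
  set W := ∏ p ∈ Q, p with hWdef
  have hW : 0 < W := Finset.prod_pos fun q hq => (hQ q hq).pos
  have hprof := profile (μ := μ) hA Q hQ hcop hd
  have hcop' : ∀ n, ¬ Nat.Coprime n W → A n = ∅ := by
    intro n hn
    apply hcop
    rw [coprime_prod_iff Q hQ] at hn
    push Not at hn
    exact hn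
  set c : ℝ := (W : ℝ) / Nat.totient W with hc
  have hφ : 0 < Nat.totient W := Nat.totient_pos.2 hW
  have hφR : (0 : ℝ) < Nat.totient W := by exact_mod_cast hφ
  have hWR : (0 : ℝ) < W := by exact_mod_cast hW
  have hc0 : 0 < c := by positivity
  have hcls : ∀ᵐ ω ∂μ, ∀ a ∈ (Finset.range W).filter (fun a => Nat.Coprime a W ∧ Nat.Coprime (a + 2) W),
      Tendsto (fun x : ℕ =>
      (∑ v ∈ Finset.Icc 1 x, (if v % W = a then In A v ω * In A (v + 2) ω else 0)) *
      Real.log x ^ 2 / x) atTop (𝓝 (c * (1 / Nat.totient W))) := by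
    rw [eventually_all_finset]
    intro a ha
    obtain ⟨h1, h2, h3⟩ := Finset.mem_filter.1 ha
    exact tw_cls (μ := μ) hA Q hQ hcop hd a (Finset.mem_range.1 h1) h2 h3
  filter_upwards [hcls, comp_two (μ := μ) hA hW hprof 1 le_rfl (fun N => (N - 3) / 2)
    (fun N s => N - s + 2) (fun N s => N - s) 2 (by intros; omega) (by intros; omega)
    (by intros; omega) (by intros; omega) (by intros; omega)
    (fun _ s ω => In A s ω * In A (s + 2) ω) (by
      intro N s h1 h2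
      refine StronglyMeasurable.mul ?_ ?_
      · exact (@stronglyMeasurable_const _ _ (ℱ (N - s - 1)) _ _).indicator
          (ℱ.mono (by omega) _ (hA s))
      · exact (@stronglyMeasurable_const _ _ (ℱ (N - s - 1)) _ _).indicator
          (ℱ.mono (by omega) _ (hA (s + 2)))) (by
      intro N s ω
      exact ⟨mul_nonneg (In_nonneg _ _) (In_nonneg _ _),
        mul_le_one₀ (In_le _ _) (In_nonneg _ _) (In_le _ _)⟩)] with ω hω1 hω2
  apply fin_law
    (fun N x => ∑ s ∈ Finset.Icc 1 x, In A s ω * In A (s + 2) ω * In A (N - s) ω * In A (N - s + 2) ω)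
    (fun N x => ∑ s ∈ Finset.Icc 1 x, (if Nat.Coprime (N - s) W ∧ Nat.Coprime (N - s + 2) W then
      In A s ω * In A (s + 2) ω else 0))
    (fun N => ((GD W N).card : ℝ) * (c * (1 / Nat.totient W))) (fun N => (N - 3) / 2) c
    (W * (c * (1 / Nat.totient W))) hc0 2 2 (by positivity) hω2
  · intro N
    refine ⟨by positivity, ?_⟩
    apply mul_le_mul_of_nonneg_right _ (by positivity)
    have : (GD W N).card ≤ W := by
      have := Finset.card_filter_le (Finset.range W) (fun a => Nat.Coprime a W ∧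
        Nat.Coprime (a + 2) W ∧ Nat.Coprime (N + (W - 1) * a + 0) W ∧ Nat.Coprime (N + (W - 1) * a + 2) W)
      rw [Finset.card_range] at this
      exact this
    exact_mod_cast this
  · intro η hη
    obtain ⟨M, hM0, hM⟩ := class_unif
      (fun a x => ∑ v ∈ Finset.Icc 1 x, (if v % W = a then In A v ω * In A (v + 2) ω else 0))
      ((Finset.range W).filter (fun a => Nat.Coprime a W ∧ Nat.Coprime (a + 2) W))
      (c * (1 / Nat.totient W)) 2 hω1 η hη
    refine ⟨M, hM0, ?_⟩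
    filter_upwards [eventually_ge_atTop 0] with N _ x hx2 hx
    have hG : GD W N ⊆ (Finset.range W).filter (fun a => Nat.Coprime a W ∧ Nat.Coprime (a + 2) W) := by
      intro a ha
      obtain ⟨h1, h2⟩ := Finset.mem_filter.1 ha
      exact Finset.mem_filter.2 ⟨h1, h2.1, h2.2.1⟩
    have h3 := hM (GD W N) hG x hx2
    have e1 : ∑ s ∈ Finset.Icc 1 x, (if Nat.Coprime (N - s) W ∧ Nat.Coprime (N - s + 2) W then
        In A s ω * In A (s + 2) ω else 0) =
        ∑ a ∈ GD W N, ∑ v ∈ Finset.Icc 1 x, (if v % W = a then In A v ω * In A (v + 2) ω else 0) := by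
      apply split_classes (W := W) (fun s => Nat.Coprime (N - s) W ∧ Nat.Coprime (N - s + 2) W)
        (GD W N) (fun s => In A s ω * In A (s + 2) ω) x
      intro s hs hne
      have hs' := Finset.mem_Icc.1 hs
      rw [GD_iff hW (by omega)]
      have k1 : Nat.Coprime s W := by
        by_contra hcon
        apply hne
        rw [show In A s ω = 0 from by unfold In; rw [hcop' s hcon]; simp, zero_mul]
      have k2 : Nat.Coprime (s + 2) W := by
        by_contra hcon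
        apply hne
        rw [show In A (s + 2) ω = 0 from by unfold In; rw [hcop' (s + 2) hcon]; simp, mul_zero]
      tauto
    rw [e1]
    exact h3

end Pool.Agent.N9.AD
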