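import Mathlib
import Pool.Agent.N9.AD.Dub2

set_option autoImplicit false
set_option linter.unusedSectionVars false

/-! # Sums over the indices of twins -/

open MeasureTheory Filter Set
open scoped ENNReal Topology

namespace Pool.Agent.N9.AD

open Pool.Agent.R528.RM Pool.Agent.N893.SM Pool.Agent.N909.TF

variable {Ω : Type} {m0 : MeasurableSpace Ω} {μ : Measure Ω} [IsProbabilityMeasure μ]
  {ℱ : Filtration ℕ m0} {A : ℕ → Set Ω}

/-- the `m`-th chosen integer is at most `M` and is the lower member of a twin -/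
noncomputable def uI (A : ℕ → Set Ω) (M m : ℕ) (ω : Ω) : ℝ :=
  ∑ s ∈ Finset.Icc 1 M, if cnt A ω s = m then In A s ω * In A (s + 2) ω else 0

lemma cnt_lt_of_mem {ω : Ω} {s t : ℕ} (h : ω ∈ A t) (hst : s < t) : cnt A ω s < cnt A ω t := by
  obtain ⟨k, rfl⟩ : ∃ k, t = k + 1 := ⟨t - 1, by omega⟩
  rw [cnt_succ_mem h]
  exact Nat.lt_succ_of_le (cnt_mono (A := A) ω (by omega))

lemma uI_bounds (M m : ℕ) (ω : Ω) : 0 ≤ uI A M m ω ∧ uI A M m ω ≤ 1 := by
  classical
  unfold uI
  constructor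
  · exact Finset.sum_nonneg fun s _ => by
      split_ifs
      · exact mul_nonneg (In_nonneg _ _) (In_nonneg _ _)
      · exact le_rfl
  · by_cases h : ∃ t ∈ Finset.Icc 1 M, cnt A ω t = m ∧ ω ∈ A t
    · obtain ⟨t, ht, htm, htA⟩ := h
      rw [Finset.sum_eq_single t]
      · rw [if_pos htm]
        exact mul_le_one₀ (In_le _ _) (In_nonneg _ _) (In_le _ _)
      · intro s _ hst
        split_ifs with h1
        · by_cases hsA : ω ∈ A s
          · exfalso
            rcases Nat.lt_trichotomy s t with h2 | h2 | h2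
            · have := cnt_lt_of_mem htA h2
              omega
            · exact hst h2
            · have := cnt_lt_of_mem hsA h2
              omega
          · rw [show In A s ω = 0 from indicator_of_notMem hsA _, zero_mul]
        · rfl
      · intro h1
        exact absurd ht h1
    · rw [Finset.sum_eq_zero]
      · exact zero_le_one
      · intro s hs
        split_ifs with h1
        · by_cases hsA : ω ∈ A s
          · exact absurd ⟨s, hs, h1, hsA⟩ h
          · rw [show In A s ω = 0 from indicator_of_notMem hsA _, zero_mul]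
        · rfl

lemma uI_meas (hA : ∀ n, MeasurableSet[ℱ n] (A n)) (M m j : ℕ) (hj : M + 2 ≤ j) :
    StronglyMeasurable[ℱ j] (uI A M m) := by
  classical
  have e1 : uI A M m = fun ω => ∑ s ∈ Finset.Icc 1 M,
      {ω | cnt A ω s = m}.indicator (fun ω => In A s ω * In A (s + 2) ω) ω := by
    funext ω
    unfold uI
    refine Finset.sum_congr rfl fun s _ => ?_
    by_cases h : cnt A ω s = m
    · rw [if_pos h, indicator_of_mem (show ω ∈ {ω | cnt A ω s = m} from h)]
    · rw [if_neg h, indicator_of_notMem (show ω ∉ {ω | cnt A ω s = m} from h)]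
  rw [e1]
  refine Finset.stronglyMeasurable_fun_sum _ fun s hs => ?_
  have hs' := Finset.mem_Icc.1 hs
  refine StronglyMeasurable.indicator ?_ (ℱ.mono (by omega) _ (cnt_meas hA s m))
  refine StronglyMeasurable.mul ?_ ?_
  · exact (@stronglyMeasurable_const _ _ (ℱ j) _ _).indicator (ℱ.mono (by omega) _ (hA s))
  · exact (@stronglyMeasurable_const _ _ (ℱ j) _ _).indicator (ℱ.mono (by omega) _ (hA (s + 2)))

/-- sums over the indices as sums over the chosen integers -/
lemma idx_sum (ω : Ω) (M x s₀ : ℕ) (hx : x ≤ M) (F : ℕ → ℝ) :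
    ∑ m ∈ Finset.Icc s₀ (cnt A ω x), uI A M m ω * F m =
      ∑ s ∈ Finset.Icc 1 x, (if s₀ ≤ cnt A ω s then In A s ω * In A (s + 2) ω * F (cnt A ω s) else 0) := by
  classical
  unfold uI
  have e1 : ∀ m ∈ Finset.Icc s₀ (cnt A ω x), (∑ s ∈ Finset.Icc 1 M, if cnt A ω s = m then
      In A s ω * In A (s + 2) ω else 0) * F m =
      ∑ s ∈ Finset.Icc 1 M, if cnt A ω s = m then In A s ω * In A (s + 2) ω * F (cnt A ω s) else 0 := by
    intro m _
    rw [Finset.sum_mul]
    refine Finset.sum_congr rfl fun s _ => ?_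
    split_ifs with h
    · rw [h]
    · rw [zero_mul]
  rw [Finset.sum_congr rfl e1, Finset.sum_comm]
  have e2 : ∀ s ∈ Finset.Icc 1 M, (∑ m ∈ Finset.Icc s₀ (cnt A ω x), if cnt A ω s = m then
      In A s ω * In A (s + 2) ω * F (cnt A ω s) else 0) =
      if s ≤ x then (if s₀ ≤ cnt A ω s then In A s ω * In A (s + 2) ω * F (cnt A ω s) else 0) else 0 := by
    intro s hs
    have hs' := Finset.mem_Icc.1 hs
    rw [Finset.sum_ite_eq]
    by_cases hsx : s ≤ x
    · have h1 : cnt A ω s ≤ cnt A ω x := cnt_mono (A := A) ω hsx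
      rw [if_pos hsx]
      by_cases h2 : s₀ ≤ cnt A ω s
      · rw [if_pos h2, if_pos (Finset.mem_Icc.2 ⟨h2, h1⟩)]
      · rw [if_neg h2, if_neg (fun h => h2 (Finset.mem_Icc.1 h).1)]
    · rw [if_neg hsx]
      by_cases hsA : ω ∈ A s
      · have h1 := cnt_lt_of_mem hsA (show x < s by omega)
        rw [if_neg]
        intro h
        have := (Finset.mem_Icc.1 h).2
        omega
      · rw [show In A s ω = 0 from indicator_of_notMem hsA _]
        split_ifs
        · rw [zero_mul, zero_mul]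
        · rfl
  rw [Finset.sum_congr rfl e2, ← Finset.sum_filter]
  apply Finset.sum_congr _ fun _ _ => rfl
  ext s
  simp only [Finset.mem_filter, Finset.mem_Icc]
  omega

/-- the indices in a class -/
def Ta (Ω : Type) (W a : ℕ) (k : ℕ) : Set Ω := {_ω | k % W = a}

lemma Ta_meas (W a : ℕ) : ∀ n, MeasurableSet[ℱ n] (Ta Ω W a n) := by
  intro n
  by_cases h : n % W = a
  · rw [show Ta Ω W a n = univ from by ext ω; simp [Ta, h]]
    exact @MeasurableSet.univ _ (ℱ n)
  · rw [show Ta Ω W a n = ∅ from by ext ω; simp [Ta, h]]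
    exact @MeasurableSet.empty _ (ℱ n)

lemma Ta_In (W a k : ℕ) (ω : Ω) : In (Ta Ω W a) k ω = if k % W = a then 1 else 0 := by
  unfold In
  by_cases h : k % W = a
  · rw [if_pos h, indicator_of_mem (show ω ∈ Ta Ω W a k from h)]
  · rw [if_neg h, indicator_of_notMem (show ω ∉ Ta Ω W a k from h)]

/-- the number of the integers up to `y` in a class -/
lemma cls_count {W a : ℕ} (hW : 0 < W) (ha : a < W) (y : ℕ) :
    |(∑ k ∈ Finset.Icc 1 y, (if k % W = a then (1 : ℝ) else 0)) - y / W| ≤ 1 := by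
  have hWR : (0 : ℝ) < W := by exact_mod_cast hW
  rw [Finset.sum_boole]
  have h1 : (Finset.Icc 1 y).filter (fun k => k % W = a) = (Finset.Ioc 0 y).filter (fun k => k ≡ a [MOD W]) := by
    ext k
    simp only [Finset.mem_filter, Finset.mem_Icc, Finset.mem_Ioc, Nat.ModEq, Nat.mod_eq_of_lt ha]
    constructor
    · rintro ⟨h1, h2⟩
      exact ⟨by omega, h2⟩
    · rintro ⟨h1, h2⟩
      exact ⟨by omega, h2⟩
  rw [h1]
  have h2 := Nat.Ioc_filter_modEq_card 0 y (r := W) hW a
  have h3 : ((((Finset.Ioc 0 y).filter (fun k => k ≡ a [MOD W])).card : ℤ) : ℝ) =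
      ((max (⌊((y : ℚ) - a) / W⌋ - ⌊(((0 : ℕ) : ℚ) - a) / W⌋) 0 : ℤ) : ℝ) := by
    rw [h2]
  rw [show ((((Finset.Ioc 0 y).filter (fun k => k ≡ a [MOD W])).card : ℕ) : ℝ) =
    ((((Finset.Ioc 0 y).filter (fun k => k ≡ a [MOD W])).card : ℤ) : ℝ) by push_cast; rfl, h3]
  have hWQ : (0 : ℚ) < W := by exact_mod_cast hW
  have hle : ⌊(((0 : ℕ) : ℚ) - a) / W⌋ ≤ ⌊((y : ℚ) - a) / W⌋ := by
    apply Int.floor_le_floor
    apply div_le_div_of_nonneg_right _ hWQ.le
    have : (0 : ℚ) ≤ y := Nat.cast_nonneg y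
    push_cast
    linarith
  rw [max_eq_left (by omega)]
  have a1 := Int.floor_le (((y : ℚ) - a) / W)
  have a2 := Int.lt_floor_add_one (((y : ℚ) - a) / W)
  have a3 := Int.floor_le ((((0 : ℕ) : ℚ) - a) / W)
  have a4 := Int.lt_floor_add_one ((((0 : ℕ) : ℚ) - a) / W)
  have e1 : ((y : ℚ) - a) / W - (((0 : ℕ) : ℚ) - a) / W = y / W := by
    rw [← sub_div]
    congr 1
    push_cast
    ring
  have b1 : ((⌊((y : ℚ) - a) / W⌋ - ⌊(((0 : ℕ) : ℚ) - a) / W⌋ : ℤ) : ℚ) ≤ y / W + 1 := by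
    push_cast
    push_cast at a1 a2 a3 a4 e1
    linarith
  have b2 : (y : ℚ) / W - 1 ≤ ((⌊((y : ℚ) - a) / W⌋ - ⌊(((0 : ℕ) : ℚ) - a) / W⌋ : ℤ) : ℚ) := by
    push_cast
    push_cast at a1 a2 a3 a4 e1
    linarith
  generalize (⌊((y : ℚ) - a) / W⌋ - ⌊(((0 : ℕ) : ℚ) - a) / W⌋ : ℤ) = z at b1 b2 ⊢
  have b1' : (z : ℝ) ≤ y / W + 1 := by
    have := (Rat.cast_le (K := ℝ)).2 b1
    push_cast at this
    exact this
  have b2' : (y : ℝ) / W - 1 ≤ (z : ℝ) := by
    have := (Rat.cast_le (K := ℝ)).2 b2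
    push_cast at this
    exact this
  rw [abs_le]
  constructor <;> linarith

/-- the number of the indices up to `cnt x` in a class -/
lemma ta_tendsto {ω : Ω} (h : Tendsto (fun x : ℕ => (cnt A ω x : ℝ) * Real.log x / x) atTop (𝓝 1))
    {W a : ℕ} (hW : 0 < W) (ha : a < W) :
    Tendsto (fun x : ℕ => (∑ v ∈ Finset.Icc 1 x, In (Us A (Ta Ω W a)) v ω) * Real.log x ^ 1 / x)
      atTop (𝓝 (1 / W)) := by
  have hWR : (0 : ℝ) < W := by exact_mod_cast hW
  have h1 := h.div_const (W : ℝ)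
  have h2 : Tendsto (fun x : ℕ => (∑ v ∈ Finset.Icc 1 x, In (Us A (Ta Ω W a)) v ω) * Real.log x ^ 1 / x -
      (cnt A ω x : ℝ) * Real.log x / x / W) atTop (𝓝 0) := by
    have h3 : Tendsto (fun x : ℕ => Real.log (x : ℝ) / x) atTop (𝓝 0) := by
      have := Real.isLittleO_log_id_atTop.tendsto_div_nhds_zero
      exact this.comp tendsto_natCast_atTop_atTop
    refine squeeze_zero_norm (fun x => ?_) h3
    have hl : 0 ≤ Real.log (x : ℝ) := Real.log_natCast_nonneg x
    rw [Real.norm_eq_abs, Us_sum]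
    have e1 : ∑ k ∈ Finset.Icc 1 (cnt A ω x), In (Ta Ω W a) k ω =
        ∑ k ∈ Finset.Icc 1 (cnt A ω x), (if k % W = a then (1 : ℝ) else 0) :=
      Finset.sum_congr rfl fun k _ => Ta_In W a k ω
    rw [e1]
    have e2 : (∑ k ∈ Finset.Icc 1 (cnt A ω x), (if k % W = a then (1 : ℝ) else 0)) * Real.log x ^ 1 / x -
        (cnt A ω x : ℝ) * Real.log x / x / W =
        ((∑ k ∈ Finset.Icc 1 (cnt A ω x), (if k % W = a then (1 : ℝ) else 0)) - (cnt A ω x : ℝ) / W) *
          (Real.log x / x) := by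
      field_simp
    rw [e2, abs_mul, abs_of_nonneg (by positivity : 0 ≤ Real.log (x : ℝ) / x)]
    have := cls_count hW ha (cnt A ω x)
    exact mul_le_of_le_one_left (by positivity) this
  have h3 := h2.add h1
  rw [zero_add] at h3
  refine h3.congr fun x => ?_
  ring

/-- twins with the index in a class -/
theorem ti_law (hA : ∀ n, MeasurableSet[ℱ n] (A n)) (Q : Finset ℕ) (hQ : ∀ p ∈ Q, p.Prime)
    (hcop : ∀ n, (∃ p ∈ Q, p ∣ n) → A n = ∅)
    (hd : ∀ᵐ ω ∂μ, Tendsto (fun n : ℕ => dens μ ℱ A n ω * Real.log n)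
      (atTop ⊓ 𝓟 {n : ℕ | ∀ p ∈ Q, ¬ p ∣ n + 1}) (𝓝 (∏ p ∈ Q, (1 - 1 / (p : ℝ))⁻¹)))
    (T : ℕ → Set Ω) (hT : ∀ n, MeasurableSet[ℱ n] (T n)) (j : ℕ) (τ : ℝ)
    (hτ : ∀ᵐ ω ∂μ, Tendsto (fun x : ℕ => (∑ v ∈ Finset.Icc 1 x, In (Us A T) v ω) *
        Real.log x ^ j / x) atTop (𝓝 τ)) :
    ∀ᵐ ω ∂μ, Tendsto (fun x : ℕ => (∑ v ∈ Finset.Icc 1 x, In (Us A T) v ω * In A (v + 2) ω) *
      Real.log x ^ (j + 1) / x) atTop (𝓝 ((((∏ p ∈ Q, p : ℕ) : ℝ) / Nat.totient (∏ p ∈ Q, p)) *
        ((((Finset.range (∏ p ∈ Q, p)).filter (fun b => Nat.Coprime b (∏ p ∈ Q, p) ∧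
          Nat.Coprime (b + 2) (∏ p ∈ Q, p))).card : ℝ) * (τ / Nat.totient (∏ p ∈ Q, p))))) := by
  classical
  set W := ∏ p ∈ Q, p with hWdef
  have hW : 0 < W := Finset.prod_pos fun q hq => (hQ q hq).pos
  have hprof := profile (μ := μ) hA Q hQ hcop hd
  have hcop' : ∀ n, ¬ Nat.Coprime n W → A n = ∅ := by
    intro n hn
    apply hcop
    rw [coprime_prod_iff Q hQ] at hn
    push Not at hn
    exact hn
  have h := twin_law (μ := μ) hA hW hprof (Us A T) (Us_meas hA hT) j
    (fun b => if Nat.Coprime b W then τ / Nat.totient W else 0) (by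
      filter_upwards [cls_law (μ := μ) hA hW hcop' hprof T hT j τ hτ] with ω hω b hb hb2
      by_cases hbW : Nat.Coprime b W
      · rw [if_pos hbW]
        exact hω b hb hbW
      · rw [if_neg hbW]
        refine (tendsto_const_nhds (x := (0 : ℝ))).congr fun x => ?_
        rw [Finset.sum_eq_zero, zero_mul, zero_div]
        intro v _
        split_ifs with h1
        · apply indicator_of_notMem
          intro h2
          have h3 := h2.1
          rw [hcop' v (fun h4 => hbW (by rw [← h1, cop_mod]; exact h4))] at h3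
          exact h3
        · rfl)
  filter_upwards [h] with ω hω
  have e1 : ∑ b ∈ (Finset.range W).filter (fun b => Nat.Coprime (b + 2) W),
      (if Nat.Coprime b W then τ / (Nat.totient W : ℝ) else 0) =
      (((Finset.range W).filter (fun b => Nat.Coprime b W ∧ Nat.Coprime (b + 2) W)).card : ℝ) *
        (τ / Nat.totient W) := by
    rw [← Finset.sum_filter, Finset.sum_const, nsmul_eq_mul, Finset.filter_filter]
    congr 3
    ext b
    simp only [Finset.mem_filter]
    tauto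
  rw [e1] at hω
  exact hω

end Pool.Agent.N9.AD
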