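import Mathlib
import Pool.Agent.N9.AD.Idx

set_option autoImplicit false
set_option linter.unusedSectionVars false

/-! # Sums of two indices of twin type, and Goldbach with a twin condition on the index -/

open MeasureTheory Filter Set
open scoped ENNReal Topology

namespace Pool.Agent.N9.AD

open Pool.Agent.R528.RM Pool.Agent.N893.SM Pool.Agent.N909.TF

/-- the residue classes of the indices `m` with `6 (N - m) ± 1` coprime to `W` -/
def G6 (W N : ℕ) : Finset ℕ := (Finset.range W).filter (fun a =>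
  Nat.Coprime (6 * (N + (W - 1) * a) - 1) W ∧ Nat.Coprime (6 * (N + (W - 1) * a) + 1) W)

lemma G6_iff {W N m : ℕ} (hW : 0 < W) (hm : m < N) : m % W ∈ G6 W N ↔
    Nat.Coprime (6 * (N - m) - 1) W ∧ Nat.Coprime (6 * (N - m) + 1) W := by
  have h0 : N + (W - 1) * m = (N - m) + W * m := by
    obtain ⟨w, rfl⟩ : ∃ w, W = w + 1 := ⟨W - 1, by omega⟩
    rw [Nat.add_sub_cancel]
    have : (w + 1) * m = w * m + m := by ring
    rw [this]
    omega
  have h1 : N + (W - 1) * (m % W) ≡ N - m [MOD W] := by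
    have h2 : (W - 1) * (m % W) ≡ (W - 1) * m [MOD W] := (Nat.mod_modEq m W).mul_left _
    have h3 : N + (W - 1) * (m % W) ≡ N + (W - 1) * m [MOD W] := h2.add_left N
    refine h3.trans ?_
    rw [h0]
    show (N - m + W * m) % W = (N - m) % W
    rw [Nat.add_mul_mod_self_left]
  have h2 : 6 * (N + (W - 1) * (m % W)) + 1 ≡ 6 * (N - m) + 1 [MOD W] := (h1.mul_left 6).add_right 1
  have h3 : 6 * (N + (W - 1) * (m % W)) - 1 ≡ 6 * (N - m) - 1 [MOD W] := by
    apply Nat.ModEq.add_right_cancel' 1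
    rw [Nat.sub_add_cancel, Nat.sub_add_cancel]
    · exact h1.mul_left 6
    · omega
    · have : 1 ≤ N := by omega
      have h5 : N ≤ N + (W - 1) * (m % W) := Nat.le_add_right _ _
      omega
  unfold G6
  rw [Finset.mem_filter, Finset.mem_range, ← cop_mod (6 * (N + (W - 1) * (m % W)) - 1),
    ← cop_mod (6 * (N + (W - 1) * (m % W)) + 1), h2, h3, cop_mod, cop_mod]
  exact ⟨fun h => h.2, fun h => ⟨Nat.mod_lt _ hW, h⟩⟩

variable {Ω : Type} {m0 : MeasurableSpace Ω} {μ : Measure Ω} [IsProbabilityMeasure μ]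
  {ℱ : Filtration ℕ m0} {A : ℕ → Set Ω}

lemma Us_In (T : ℕ → Set Ω) (s : ℕ) (ω : Ω) : In (Us A T) s ω = In A s ω * In T (cnt A ω s) ω := by
  rcases In_cases A s ω with ⟨h1, h2⟩ | ⟨h1, h2⟩
  · rw [h2, one_mul]
    rcases In_cases T (cnt A ω s) ω with ⟨h3, h4⟩ | ⟨h3, h4⟩
    · rw [h4]
      exact indicator_of_mem (show ω ∈ Us A T s from ⟨h1, h3⟩) _
    · rw [h4]
      exact indicator_of_notMem (fun h : ω ∈ Us A T s => h3 h.2) _
  · rw [h2, zero_mul]
    exact indicator_of_notMem (fun h : ω ∈ Us A T s => h1 h.1) _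

lemma cnt_pos_of_mem {ω : Ω} {s : ℕ} (hs : 1 ≤ s) (h : ω ∈ A s) : 1 ≤ cnt A ω s := by
  have := cnt_lt_of_mem h (show 0 < s by omega)
  omega

/-- **the law for the sums of two indices of twin type** -/
theorem ea_law (hA : ∀ n, MeasurableSet[ℱ n] (A n)) (Q : Finset ℕ) (hQ : ∀ p ∈ Q, p.Prime)
    (hcop : ∀ n, (∃ p ∈ Q, p ∣ n) → A n = ∅)
    (hd : ∀ᵐ ω ∂μ, Tendsto (fun n : ℕ => dens μ ℱ A n ω * Real.log n)
      (atTop ⊓ 𝓟 {n : ℕ | ∀ p ∈ Q, ¬ p ∣ n + 1}) (𝓝 (∏ p ∈ Q, (1 - 1 / (p : ℝ))⁻¹))) :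
    ∀ᵐ ω ∂μ, ∀ ε : ℝ, 0 < ε → ∃ K : ℝ, 0 < K ∧ ∀ᶠ N : ℕ in atTop, ∀ x : ℕ, 2 ≤ x → x ≤ N / 2 →
      |∑ s ∈ Finset.Icc 1 x, In A s ω * In A (s + 2) ω *
          (In A (6 * (N - cnt A ω s) - 1) ω * In A (6 * (N - cnt A ω s) + 1) ω) -
        (((∏ p ∈ Q, p : ℕ) : ℝ) / Nat.totient (∏ p ∈ Q, p)) ^ 2 *
        (((G6 (∏ p ∈ Q, p) N).card : ℝ) * ((((∏ p ∈ Q, p : ℕ) : ℝ) / Nat.totient (∏ p ∈ Q, p)) *
          ((((Finset.range (∏ p ∈ Q, p)).filter (fun b => Nat.Coprime b (∏ p ∈ Q, p) ∧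
          Nat.Coprime (b + 2) (∏ p ∈ Q, p))).card : ℝ) *
          (1 / ((∏ p ∈ Q, p : ℕ) : ℝ) / Nat.totient (∏ p ∈ Q, p))))) *
        (x / (Real.log x ^ 2 * Real.log N ^ 2))| ≤
        ε * (x / (Real.log x ^ 2 * Real.log N ^ 2)) + K * Real.log N := by
  classical
  have hti : ∀ᵐ ω ∂μ, ∀ a ∈ Finset.range (∏ p ∈ Q, p), Tendsto (fun x : ℕ =>
      (∑ v ∈ Finset.Icc 1 x, In (Us A (Ta Ω (∏ p ∈ Q, p) a)) v ω * In A (v + 2) ω) *
      Real.log x ^ (1 + 1) / x) atTop (𝓝 ((((∏ p ∈ Q, p : ℕ) : ℝ) / Nat.totient (∏ p ∈ Q, p)) *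
        ((((Finset.range (∏ p ∈ Q, p)).filter (fun b => Nat.Coprime b (∏ p ∈ Q, p) ∧
          Nat.Coprime (b + 2) (∏ p ∈ Q, p))).card : ℝ) *
          (1 / ((∏ p ∈ Q, p : ℕ) : ℝ) / Nat.totient (∏ p ∈ Q, p))))) := by
    rw [eventually_all_finset]
    intro a ha
    refine ti_law (μ := μ) hA Q hQ hcop hd (Ta Ω (∏ p ∈ Q, p) a) (Ta_meas _ a) 1
      (1 / ((∏ p ∈ Q, p : ℕ) : ℝ)) ?_
    filter_upwards [cnt_law (μ := μ) hA Q hQ hcop hd] with ω hω
    exact ta_tendsto hω (Finset.prod_pos fun q hq => (hQ q hq).pos) (Finset.mem_range.1 ha)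
  set W := ∏ p ∈ Q, p with hWdef
  have hW : 0 < W := Finset.prod_pos fun q hq => (hQ q hq).pos
  have hprof := profile (μ := μ) hA Q hQ hcop hd
  set c : ℝ := (W : ℝ) / Nat.totient W with hc
  have hφ : 0 < Nat.totient W := Nat.totient_pos.2 hW
  have hφR : (0 : ℝ) < Nat.totient W := by exact_mod_cast hφ
  have hWR : (0 : ℝ) < W := by exact_mod_cast hW
  have hc0 : 0 < c := by positivity
  set τ₂ : ℝ := c * ((((Finset.range W).filter (fun b => Nat.Coprime b W ∧
    Nat.Coprime (b + 2) W)).card : ℝ) * (1 / (W : ℝ) / Nat.totient W)) with hτ₂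
  have hτ₂0 : 0 ≤ τ₂ := by positivity
  filter_upwards [hti, comp_two (μ := μ) hA hW hprof 1 le_rfl (fun N => N / 2)
    (fun N m => 6 * (N - m) + 1) (fun N m => 6 * (N - m) - 1) 7 (by intros; omega) (by intros; omega)
    (by intros; omega) (by intros; omega) (by intros; omega)
    (fun N m ω => uI A (N / 2) m ω) (by
      intro N m h1 h2
      exact uI_meas hA (N / 2) m _ (by omega)) (by
      intro N m ω
      exact uI_bounds (N / 2) m ω)] with ω hω1 hω2
  apply fin_law
    (fun N x => ∑ s ∈ Finset.Icc 1 x, In A s ω * In A (s + 2) ω *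
          (In A (6 * (N - cnt A ω s) - 1) ω * In A (6 * (N - cnt A ω s) + 1) ω))
    (fun N x => ∑ m ∈ Finset.Icc 1 (cnt A ω x), (if Nat.Coprime (6 * (N - m) - 1) W ∧
      Nat.Coprime (6 * (N - m) + 1) W then uI A (N / 2) m ω else 0))
    (fun N => ((G6 W N).card : ℝ) * τ₂) (fun N => N / 2) c
    (W * τ₂) hc0 2 2 (by positivity)
  · intro ε hε
    obtain ⟨C, hC0, hC⟩ := hω2 ε hε
    refine ⟨C, hC0, ?_⟩
    filter_upwards [hC] with N hN x hx
    have h1 := hN (cnt A ω x) ((cnt_le ω x).trans hx)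
    have e1 : ∑ m ∈ Finset.Icc 1 (cnt A ω x), uI A (N / 2) m ω * In A (6 * (N - m) - 1) ω *
        In A (6 * (N - m) + 1) ω = ∑ s ∈ Finset.Icc 1 x, In A s ω * In A (s + 2) ω *
          (In A (6 * (N - cnt A ω s) - 1) ω * In A (6 * (N - cnt A ω s) + 1) ω) := by
      have h2 := idx_sum (A := A) ω (N / 2) x 1 hx
        (fun m => In A (6 * (N - m) - 1) ω * In A (6 * (N - m) + 1) ω)
      rw [Finset.sum_congr rfl (fun m _ => mul_assoc _ _ _), h2]
      refine Finset.sum_congr rfl fun s hs => ?_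
      have hs' := Finset.mem_Icc.1 hs
      by_cases hsA : ω ∈ A s
      · rw [if_pos (cnt_pos_of_mem hs'.1 hsA)]
      · rw [show In A s ω = 0 from indicator_of_notMem hsA _]
        split_ifs <;> ring
    rw [e1] at h1
    exact h1
  · intro N
    refine ⟨by positivity, ?_⟩
    apply mul_le_mul_of_nonneg_right _ hτ₂0
    have : (G6 W N).card ≤ W := by
      have := Finset.card_filter_le (Finset.range W) (fun a =>
        Nat.Coprime (6 * (N + (W - 1) * a) - 1) W ∧ Nat.Coprime (6 * (N + (W - 1) * a) + 1) W)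
      rw [Finset.card_range] at this
      exact this
    exact_mod_cast this
  · intro η hη
    obtain ⟨M, hM0, hM⟩ := class_unif
      (fun a x => ∑ v ∈ Finset.Icc 1 x, In (Us A (Ta Ω W a)) v ω * In A (v + 2) ω)
      (Finset.range W) τ₂ 2 hω1 η hη
    refine ⟨M, hM0, ?_⟩
    filter_upwards [eventually_ge_atTop 2] with N hN2 x hx2 hx
    have h3 := hM (G6 W N) (Finset.filter_subset _ _) x hx2
    have e1 : ∑ m ∈ Finset.Icc 1 (cnt A ω x), (if Nat.Coprime (6 * (N - m) - 1) W ∧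
      Nat.Coprime (6 * (N - m) + 1) W then uI A (N / 2) m ω else 0) =
        ∑ a ∈ G6 W N, ∑ v ∈ Finset.Icc 1 x, In (Us A (Ta Ω W a)) v ω * In A (v + 2) ω := by
      have h2 := idx_sum (A := A) ω (N / 2) x 1 hx
        (fun m => if Nat.Coprime (6 * (N - m) - 1) W ∧ Nat.Coprime (6 * (N - m) + 1) W then (1 : ℝ) else 0)
      have e2 : ∀ m ∈ Finset.Icc 1 (cnt A ω x), (if Nat.Coprime (6 * (N - m) - 1) W ∧
          Nat.Coprime (6 * (N - m) + 1) W then uI A (N / 2) m ω else 0) =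
          uI A (N / 2) m ω * (if Nat.Coprime (6 * (N - m) - 1) W ∧
          Nat.Coprime (6 * (N - m) + 1) W then (1 : ℝ) else 0) := by
        intro m _
        split_ifs
        · rw [mul_one]
        · rw [mul_zero]
      rw [Finset.sum_congr rfl e2, h2, Finset.sum_comm]
      refine Finset.sum_congr rfl fun s hs => ?_
      have hs' := Finset.mem_Icc.1 hs
      have e3 : ∑ a ∈ G6 W N, In (Us A (Ta Ω W a)) s ω * In A (s + 2) ω =
          ∑ a ∈ G6 W N, (if cnt A ω s % W = a then In A s ω * In A (s + 2) ω else 0) := by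
        refine Finset.sum_congr rfl fun a _ => ?_
        rw [Us_In, Ta_In]
        split_ifs <;> ring
      rw [e3, Finset.sum_ite_eq]
      by_cases hsA : ω ∈ A s
      · have k1 := cnt_pos_of_mem hs'.1 hsA
        have k2 : cnt A ω s ≤ s := cnt_le ω s
        have k3 := G6_iff (W := W) (N := N) (m := cnt A ω s) hW (by omega)
        rw [if_pos k1]
        by_cases k4 : cnt A ω s % W ∈ G6 W N
        · rw [if_pos k4, if_pos (k3.1 k4), mul_one]
        · rw [if_neg k4, if_neg (fun h => k4 (k3.2 h)), mul_zero]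
      · rw [show In A s ω = 0 from indicator_of_notMem hsA _]
        split_ifs <;> ring
    rw [e1]
    have e4 : (((G6 W N).card : ℝ) * τ₂) * (x / Real.log x ^ 2) =
        ((G6 W N).card : ℝ) * τ₂ * (x / Real.log x ^ 2) := rfl
    exact h3

/-- the indices `k ≥ 3` with `k - 2` chosen and in a class -/
def Tb (A : ℕ → Set Ω) (W a : ℕ) (k : ℕ) : Set Ω := {ω | 3 ≤ k ∧ (k - 2) % W = a ∧ ω ∈ A (k - 2)}

lemma Tb_meas (hA : ∀ n, MeasurableSet[ℱ n] (A n)) (W a : ℕ) :
    ∀ n, MeasurableSet[ℱ n] (Tb A W a n) := by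
  intro n
  by_cases h : 3 ≤ n ∧ (n - 2) % W = a
  · rw [show Tb A W a n = A (n - 2) from by
      ext ω
      exact ⟨fun h1 => h1.2.2, fun h1 => ⟨h.1, h.2, h1⟩⟩]
    exact ℱ.mono (by omega) _ (hA (n - 2))
  · rw [show Tb A W a n = ∅ from by
      ext ω
      exact ⟨fun h1 => h ⟨h1.1, h1.2.1⟩, fun h1 => absurd h1 (Set.notMem_empty ω)⟩]
    exact @MeasurableSet.empty _ (ℱ n)

lemma Tb_In (W a k : ℕ) (ω : Ω) : In (Tb A W a) k ω =
    if 3 ≤ k ∧ (k - 2) % W = a then In A (k - 2) ω else 0 := by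
  unfold In
  by_cases h : 3 ≤ k ∧ (k - 2) % W = a
  · rw [if_pos h]
    by_cases h1 : ω ∈ A (k - 2)
    · rw [indicator_of_mem h1, indicator_of_mem (show ω ∈ Tb A W a k from ⟨h.1, h.2, h1⟩)]
    · rw [indicator_of_notMem h1, indicator_of_notMem (fun h2 : ω ∈ Tb A W a k => h1 h2.2.2)]
  · rw [if_neg h, indicator_of_notMem (fun h2 : ω ∈ Tb A W a k => h ⟨h2.1, h2.2.1⟩)]

/-- the number of the indices in `Tb` -/
lemma tb_tendsto {ω : Ω} (h : Tendsto (fun x : ℕ => (cnt A ω x : ℝ) * Real.log x / x) atTop (𝓝 1))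
    {W a : ℕ} (τ : ℝ) (hcl : Tendsto (fun x : ℕ =>
      (∑ v ∈ Finset.Icc 1 x, (if v % W = a then In A v ω else 0)) * Real.log x ^ 1 / x) atTop (𝓝 τ)) :
    Tendsto (fun x : ℕ => (∑ v ∈ Finset.Icc 1 x, In (Us A (Tb A W a)) v ω) * Real.log x ^ 2 / x)
      atTop (𝓝 τ) := by
  obtain ⟨hc1, hc2⟩ := cnt_tendsto h
  have hlog : Tendsto (fun N : ℕ => Real.log (N : ℝ)) atTop atTop :=
    Real.tendsto_log_atTop.comp tendsto_natCast_atTop_atTop
  set g : ℕ → ℝ := fun y => ∑ v ∈ Finset.Icc 1 y, (if v % W = a then In A v ω else 0) with hg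
  -- `g (cnt x)`
  have h1 : Tendsto (fun x : ℕ => g (cnt A ω x) * Real.log x ^ 2 / x) atTop (𝓝 τ) := by
    have h2 := ((hcl.comp hc1).mul h).mul hc2
    rw [mul_one, mul_one] at h2
    refine h2.congr' ?_
    filter_upwards [hc1.eventually_ge_atTop 2, hlog.eventually_gt_atTop 0, eventually_gt_atTop 0]
      with x hx1 hx2 hx3
    have hx : (0 : ℝ) < x := by exact_mod_cast hx3
    have hc : (2 : ℝ) ≤ cnt A ω x := by exact_mod_cast hx1
    have hlc : 0 < Real.log (cnt A ω x) := Real.log_pos (by linarith)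
    simp only [Function.comp_apply]
    have hc0 : (cnt A ω x : ℝ) ≠ 0 := by linarith
    rw [hg]
    field_simp
  -- the difference
  have hdiff : Tendsto (fun x : ℕ => (∑ v ∈ Finset.Icc 1 x, In (Us A (Tb A W a)) v ω) * Real.log x ^ 2 / x -
      g (cnt A ω x) * Real.log x ^ 2 / x) atTop (𝓝 0) := by
    have h3 := log_small 2 1
    have hev : ∀ᶠ x : ℕ in atTop, ‖(∑ v ∈ Finset.Icc 1 x, In (Us A (Tb A W a)) v ω) * Real.log x ^ 2 / x -
      g (cnt A ω x) * Real.log x ^ 2 / x‖ ≤ 2 * Real.log x * Real.log x ^ 1 / x := by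
      filter_upwards [eventually_gt_atTop 0] with x hx3
      have hx : (0 : ℝ) < x := by exact_mod_cast hx3
      have hl : 0 ≤ Real.log (x : ℝ) := Real.log_natCast_nonneg x
      have key : |(∑ v ∈ Finset.Icc 1 x, In (Us A (Tb A W a)) v ω) - g (cnt A ω x)| ≤ 2 := by
        rw [Us_sum]
        set n := cnt A ω x
        have e1 : ∑ k ∈ Finset.Icc 1 n, In (Tb A W a) k ω = g (n - 2) := by
          rw [hg]
          simp only
          rw [Finset.sum_congr rfl (fun k _ => Tb_In W a k ω)]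
          have e2 : ∑ k ∈ Finset.Icc 1 n, (if 3 ≤ k ∧ (k - 2) % W = a then In A (k - 2) ω else 0) =
              ∑ k ∈ Finset.Icc 3 n, (if (k - 2) % W = a then In A (k - 2) ω else 0) := by
            have e3 : Finset.Icc 3 n = (Finset.Icc 1 n).filter (fun k => 3 ≤ k) := by
              ext k
              simp only [Finset.mem_Icc, Finset.mem_filter]
              omega
            rw [e3, Finset.sum_filter]
            refine Finset.sum_congr rfl fun k _ => ?_
            by_cases h4 : 3 ≤ k <;> by_cases h5 : (k - 2) % W = a <;> simp [h4, h5]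
          rw [e2]
          have e4 : Finset.Icc 3 n = (Finset.Icc 1 (n - 2)).image (fun v => v + 2) := by
            ext v
            simp only [Finset.mem_Icc, Finset.mem_image]
            constructor
            · intro h
              exact ⟨v - 2, by omega, by omega⟩
            · rintro ⟨b, h, rfl⟩
              omega
          rw [e4, Finset.sum_image (by
            intro b _ b' _ hab
            simp only at hab
            omega)]
          refine Finset.sum_congr rfl fun v _ => ?_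
          rw [Nat.add_sub_cancel]
        rw [e1]
        have e5 : g n - g (n - 2) = ∑ v ∈ Finset.Ioc (n - 2) n, (if v % W = a then In A v ω else 0) := by
          rw [hg]
          simp only
          have e6 : Finset.Icc 1 n = Finset.Icc 1 (n - 2) ∪ Finset.Ioc (n - 2) n := by
            ext v
            simp only [Finset.mem_Icc, Finset.mem_union, Finset.mem_Ioc]
            omega
          rw [e6, Finset.sum_union]
          · ring
          · rw [Finset.disjoint_left]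
            intro v hv1 hv2
            have := (Finset.mem_Icc.1 hv1).2
            have := (Finset.mem_Ioc.1 hv2).1
            omega
        have e7 : |g n - g (n - 2)| ≤ 2 := by
          rw [e5]
          calc |∑ v ∈ Finset.Ioc (n - 2) n, (if v % W = a then In A v ω else 0)|
              ≤ ∑ v ∈ Finset.Ioc (n - 2) n, |(if v % W = a then In A v ω else 0)| :=
                Finset.abs_sum_le_sum_abs _ _
            _ ≤ ∑ v ∈ Finset.Ioc (n - 2) n, (1 : ℝ) := by
                refine Finset.sum_le_sum fun v _ => ?_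
                split_ifs
                · rw [abs_of_nonneg (In_nonneg _ _)]
                  exact In_le _ _
                · rw [abs_zero]
                  exact zero_le_one
            _ = ((n - (n - 2) : ℕ) : ℝ) := by
                rw [Finset.sum_const, Nat.card_Ioc, nsmul_eq_mul, mul_one]
            _ ≤ 2 := by
                have : n - (n - 2) ≤ 2 := by omega
                exact_mod_cast this
        rw [abs_sub_comm]
        exact e7
      rw [Real.norm_eq_abs]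
      have e1 : (∑ v ∈ Finset.Icc 1 x, In (Us A (Tb A W a)) v ω) * Real.log x ^ 2 / x -
          g (cnt A ω x) * Real.log x ^ 2 / x =
          ((∑ v ∈ Finset.Icc 1 x, In (Us A (Tb A W a)) v ω) - g (cnt A ω x)) * (Real.log x ^ 2 / x) := by
        ring
      rw [e1, abs_mul, abs_of_nonneg (by positivity : 0 ≤ Real.log (x : ℝ) ^ 2 / x)]
      calc |(∑ v ∈ Finset.Icc 1 x, In (Us A (Tb A W a)) v ω) - g (cnt A ω x)| * (Real.log x ^ 2 / x)
          ≤ 2 * (Real.log x ^ 2 / x) := mul_le_mul_of_nonneg_right key (by positivity)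
        _ = 2 * Real.log x * Real.log x ^ 1 / x := by ring
    exact squeeze_zero_norm' hev h3
  have h2 := hdiff.add h1
  rw [zero_add] at h2
  refine h2.congr fun x => ?_
  ring

/-- **Goldbach with a twin condition on the index** -/
theorem oc_law (hA : ∀ n, MeasurableSet[ℱ n] (A n)) (Q : Finset ℕ) (hQ : ∀ p ∈ Q, p.Prime)
    (hcop : ∀ n, (∃ p ∈ Q, p ∣ n) → A n = ∅)
    (hd : ∀ᵐ ω ∂μ, Tendsto (fun n : ℕ => dens μ ℱ A n ω * Real.log n)
      (atTop ⊓ 𝓟 {n : ℕ | ∀ p ∈ Q, ¬ p ∣ n + 1}) (𝓝 (∏ p ∈ Q, (1 - 1 / (p : ℝ))⁻¹))) :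
    ∀ᵐ ω ∂μ, ∀ ε : ℝ, 0 < ε → ∃ K : ℝ, 0 < K ∧ ∀ᶠ N : ℕ in atTop, ∀ x : ℕ, 2 ≤ x → x ≤ N / 4 →
      |∑ s ∈ Finset.Icc 1 x, (if 3 ≤ cnt A ω s then In A s ω * In A (s + 2) ω *
          (In A (cnt A ω s - 2) ω * In A (N - (cnt A ω s - 2)) ω) else 0) -
        (((∏ p ∈ Q, p : ℕ) : ℝ) / Nat.totient (∏ p ∈ Q, p)) ^ 1 *
        (((gcl (∏ p ∈ Q, p) N).card : ℝ) * ((((∏ p ∈ Q, p : ℕ) : ℝ) / Nat.totient (∏ p ∈ Q, p)) *
          ((((Finset.range (∏ p ∈ Q, p)).filter (fun b => Nat.Coprime b (∏ p ∈ Q, p) ∧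
          Nat.Coprime (b + 2) (∏ p ∈ Q, p))).card : ℝ) *
          (1 / (Nat.totient (∏ p ∈ Q, p) : ℝ) / Nat.totient (∏ p ∈ Q, p))))) *
        (x / (Real.log x ^ 3 * Real.log N ^ 1))| ≤
        ε * (x / (Real.log x ^ 3 * Real.log N ^ 1)) + K * Real.log N := by
  classical
  have hti : ∀ᵐ ω ∂μ, ∀ a ∈ (Finset.range (∏ p ∈ Q, p)).filter (fun a => Nat.Coprime a (∏ p ∈ Q, p)),
      Tendsto (fun x : ℕ =>
      (∑ v ∈ Finset.Icc 1 x, In (Us A (Tb A (∏ p ∈ Q, p) a)) v ω * In A (v + 2) ω) *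
      Real.log x ^ (2 + 1) / x) atTop (𝓝 ((((∏ p ∈ Q, p : ℕ) : ℝ) / Nat.totient (∏ p ∈ Q, p)) *
        ((((Finset.range (∏ p ∈ Q, p)).filter (fun b => Nat.Coprime b (∏ p ∈ Q, p) ∧
          Nat.Coprime (b + 2) (∏ p ∈ Q, p))).card : ℝ) *
          (1 / (Nat.totient (∏ p ∈ Q, p) : ℝ) / Nat.totient (∏ p ∈ Q, p))))) := by
    rw [eventually_all_finset]
    intro a ha
    obtain ⟨h1, h2⟩ := Finset.mem_filter.1 ha
    refine ti_law (μ := μ) hA Q hQ hcop hd (Tb A (∏ p ∈ Q, p) a) (Tb_meas hA _ a) 2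
      (1 / (Nat.totient (∏ p ∈ Q, p) : ℝ)) ?_
    filter_upwards [cnt_law (μ := μ) hA Q hQ hcop hd, A_cls (μ := μ) hA Q hQ hcop hd] with ω hω hω'
    exact tb_tendsto hω _ (hω' a (Finset.mem_range.1 h1) h2)
  set W := ∏ p ∈ Q, p with hWdef
  have hW : 0 < W := Finset.prod_pos fun q hq => (hQ q hq).pos
  have hprof := profile (μ := μ) hA Q hQ hcop hd
  have hcop' : ∀ n, ¬ Nat.Coprime n W → A n = ∅ := by
    intro n hn
    apply hcop
    rw [coprime_prod_iff Q hQ] at hn
    push Not at hn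
    exact hn
  set c : ℝ := (W : ℝ) / Nat.totient W with hc
  have hφ : 0 < Nat.totient W := Nat.totient_pos.2 hW
  have hφR : (0 : ℝ) < Nat.totient W := by exact_mod_cast hφ
  have hWR : (0 : ℝ) < W := by exact_mod_cast hW
  have hc0 : 0 < c := by positivity
  set τ₂ : ℝ := c * ((((Finset.range W).filter (fun b => Nat.Coprime b W ∧
    Nat.Coprime (b + 2) W)).card : ℝ) * (1 / (Nat.totient W : ℝ) / Nat.totient W)) with hτ₂
  have hτ₂0 : 0 ≤ τ₂ := by positivity
  filter_upwards [hti, comp_gen (μ := μ) hA hW hprof 3 (by norm_num) (fun N => N / 4)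
    (fun N m => N + 2 - m) 2 (by intros; omega) (by intros; omega)
    (fun N m ω => uI A (N / 4) m ω * In A (m - 2) ω) (by
      intro N m h1 h2
      refine StronglyMeasurable.mul (uI_meas hA (N / 4) m _ (by omega)) ?_
      exact (@stronglyMeasurable_const _ _ (ℱ (N + 2 - m - 1)) _ _).indicator
          (ℱ.mono (by omega) _ (hA (m - 2)))) (by
      intro N m ω
      have h1 := uI_bounds (A := A) (N / 4) m ω
      exact ⟨mul_nonneg h1.1 (In_nonneg _ _), mul_le_one₀ h1.2 (In_nonneg _ _) (In_le _ _)⟩)]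
    with ω hω1 hω2
  apply fin_law
    (fun N x => ∑ s ∈ Finset.Icc 1 x, (if 3 ≤ cnt A ω s then In A s ω * In A (s + 2) ω *
          (In A (cnt A ω s - 2) ω * In A (N - (cnt A ω s - 2)) ω) else 0))
    (fun N x => ∑ m ∈ Finset.Icc 3 (cnt A ω x), (if Nat.Coprime (N + 2 - m) W then
      uI A (N / 4) m ω * In A (m - 2) ω else 0))
    (fun N => ((gcl W N).card : ℝ) * τ₂) (fun N => N / 4) c
    (W * τ₂) hc0 1 3 (by positivity)
  · intro ε hε
    obtain ⟨C, hC0, hC⟩ := hω2 ε hε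
    refine ⟨C, hC0, ?_⟩
    filter_upwards [hC] with N hN x hx
    have h1 := hN (cnt A ω x) ((cnt_le ω x).trans hx)
    have e1 : ∑ m ∈ Finset.Icc 3 (cnt A ω x), uI A (N / 4) m ω * In A (m - 2) ω *
        In A (N + 2 - m) ω = ∑ s ∈ Finset.Icc 1 x, (if 3 ≤ cnt A ω s then In A s ω * In A (s + 2) ω *
          (In A (cnt A ω s - 2) ω * In A (N - (cnt A ω s - 2)) ω) else 0) := by
      have h2 := idx_sum (A := A) ω (N / 4) x 3 hx
        (fun m => In A (m - 2) ω * In A (N + 2 - m) ω)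
      rw [Finset.sum_congr rfl (fun m _ => mul_assoc _ _ _), h2]
      refine Finset.sum_congr rfl fun s hs => ?_
      split_ifs with h3
      · rw [show N - (cnt A ω s - 2) = N + 2 - cnt A ω s by omega]
      · rfl
    rw [e1] at h1
    rw [pow_one]
    exact h1
  · intro N
    refine ⟨by positivity, ?_⟩
    apply mul_le_mul_of_nonneg_right _ hτ₂0
    have : (gcl W N).card ≤ W := by
      have := Finset.card_filter_le (Finset.range W) (fun b => Nat.Coprime b W ∧
        Nat.Coprime (N + (W - 1) * b) W)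
      rw [Finset.card_range] at this
      exact this
    exact_mod_cast this
  · intro η hη
    obtain ⟨M, hM0, hM⟩ := class_unif
      (fun a x => ∑ v ∈ Finset.Icc 1 x, In (Us A (Tb A W a)) v ω * In A (v + 2) ω)
      ((Finset.range W).filter (fun a => Nat.Coprime a W)) τ₂ 3 hω1 η hη
    refine ⟨M, hM0, ?_⟩
    filter_upwards [eventually_ge_atTop 2] with N hN2 x hx2 hx
    have hsub : gcl W N ⊆ (Finset.range W).filter (fun a => Nat.Coprime a W) := by
      intro a ha
      obtain ⟨h1, h2⟩ := Finset.mem_filter.1 ha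
      exact Finset.mem_filter.2 ⟨h1, h2.1⟩
    have h3 := hM (gcl W N) hsub x hx2
    have e1 : ∑ m ∈ Finset.Icc 3 (cnt A ω x), (if Nat.Coprime (N + 2 - m) W then
      uI A (N / 4) m ω * In A (m - 2) ω else 0) =
        ∑ a ∈ gcl W N, ∑ v ∈ Finset.Icc 1 x, In (Us A (Tb A W a)) v ω * In A (v + 2) ω := by
      have h2 := idx_sum (A := A) ω (N / 4) x 3 hx
        (fun m => if Nat.Coprime (N + 2 - m) W then In A (m - 2) ω else 0)
      have e2 : ∀ m ∈ Finset.Icc 3 (cnt A ω x), (if Nat.Coprime (N + 2 - m) W then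
          uI A (N / 4) m ω * In A (m - 2) ω else 0) =
          uI A (N / 4) m ω * (if Nat.Coprime (N + 2 - m) W then In A (m - 2) ω else 0) := by
        intro m _
        split_ifs
        · rfl
        · rw [mul_zero]
      rw [Finset.sum_congr rfl e2, h2, Finset.sum_comm]
      refine Finset.sum_congr rfl fun s hs => ?_
      have hs' := Finset.mem_Icc.1 hs
      have e3 : ∑ a ∈ gcl W N, In (Us A (Tb A W a)) s ω * In A (s + 2) ω =
          ∑ a ∈ gcl W N, (if (cnt A ω s - 2) % W = a then (if 3 ≤ cnt A ω s then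
            In A s ω * In A (s + 2) ω * In A (cnt A ω s - 2) ω else 0) else 0) := by
        refine Finset.sum_congr rfl fun a _ => ?_
        rw [Us_In, Tb_In]
        by_cases k1 : 3 ≤ cnt A ω s
        · by_cases k2 : (cnt A ω s - 2) % W = a
          · rw [if_pos ⟨k1, k2⟩, if_pos k2, if_pos k1]
            ring
          · rw [if_neg (fun h => k2 h.2), if_neg k2]
            ring
        · rw [if_neg (fun h => k1 h.1), if_neg k1]
          split_ifs <;> ring
      rw [e3, Finset.sum_ite_eq]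
      have k2 : cnt A ω s ≤ s := cnt_le ω s
      by_cases k1 : 3 ≤ cnt A ω s
      · have k3 := gcl_iff (W := W) (N := N) (s := cnt A ω s - 2) hW (by omega)
        rw [if_pos k1, if_pos k1, show N + 2 - cnt A ω s = N - (cnt A ω s - 2) by omega]
        by_cases k5 : Nat.Coprime (cnt A ω s - 2) W
        · by_cases k4 : Nat.Coprime (N - (cnt A ω s - 2)) W
          · rw [if_pos k4, if_pos (k3.2 ⟨k5, k4⟩)]
          · rw [if_neg k4, if_neg (fun h => k4 (k3.1 h).2), mul_zero]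
        · rw [if_neg (fun h => k5 (k3.1 h).1)]
          have k6 : In A (cnt A ω s - 2) ω = 0 := by
            unfold In
            rw [hcop' _ k5]
            simp
          rw [k6]
          split_ifs <;> ring
      · rw [if_neg k1, if_neg k1]
        split_ifs <;> rfl
    rw [e1]
    exact h3

end Pool.Agent.N9.AD
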