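import Mathlib
import Pool.Agent.N9.AD.Ea

set_option autoImplicit false
set_option linter.unusedSectionVars false

/-! # The constants -/

open MeasureTheory Filter Set
open scoped ENNReal Topology

namespace Pool.Agent.N9.AD

open Pool.Agent.R528.RM Pool.Agent.N893.SM Pool.Agent.N909.TF

lemma cast_cop (n W : ℕ) : IsCoprime (n : ℤ) (W : ℤ) ↔ Nat.Coprime n W := Nat.isCoprime_iff_coprime

open Classical in
/-- the residues `k` with `6 k ± 1` coprime to `W` -/
noncomputable def K6 (W : ℕ) : Finset ℕ :=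
  (Finset.range W).filter (fun k => IsCoprime ((6 * (k : ℤ) - 1) * (6 * k + 1)) (W : ℤ))

lemma k6_iff {W b : ℕ} (hb : 1 ≤ b) : IsCoprime ((6 * ((b % W : ℕ) : ℤ) - 1) * (6 * ((b % W : ℕ) : ℤ) + 1)) (W : ℤ) ↔
    Nat.Coprime (6 * b - 1) W ∧ Nat.Coprime (6 * b + 1) W := by
  rw [IsCoprime.mul_left_iff, ← cast_cop, ← cast_cop]
  have e00 : b = b % W + W * (b / W) := (Nat.mod_add_div b W).symm
  have e0 : (b : ℤ) = ((b % W : ℕ) : ℤ) + (W : ℤ) * ((b / W : ℕ) : ℤ) := by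
    exact_mod_cast e00
  generalize ((b % W : ℕ) : ℤ) = r at e0 ⊢
  generalize ((b / W : ℕ) : ℤ) = q at e0
  have e1 : ((6 * b - 1 : ℕ) : ℤ) = (6 * r - 1) + (W : ℤ) * (6 * q) := by
    rw [Nat.cast_sub (by omega)]
    push_cast
    linear_combination 6 * e0
  have e2 : ((6 * b + 1 : ℕ) : ℤ) = (6 * r + 1) + (W : ℤ) * (6 * q) := by
    push_cast
    linear_combination 6 * e0
  rw [e1, e2, IsCoprime.add_mul_left_left_iff, IsCoprime.add_mul_left_left_iff]

lemma refl_refl {W : ℕ} (hW : 0 < W) (N a : ℕ) (ha : a < W) :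
    (N + (W - 1) * ((N + (W - 1) * a) % W)) % W = a := by
  have h1 : (N + (W - 1) * ((N + (W - 1) * a) % W)) ≡ (N + (W - 1) * (N + (W - 1) * a)) [MOD W] :=
    ((Nat.mod_modEq _ W).mul_left _).add_left N
  have h2 : (N + (W - 1) * (N + (W - 1) * a)) ≡ a [MOD W] := by
    obtain ⟨w, rfl⟩ : ∃ w, W = w + 1 := ⟨W - 1, by omega⟩
    rw [Nat.add_sub_cancel]
    rw [← Int.natCast_modEq_iff, Int.modEq_iff_dvd]
    refine ⟨-((N : ℤ) + ((w : ℤ) - 1) * a), ?_⟩
    push_cast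
    ring
  have h3 := h1.trans h2
  rw [Nat.ModEq, Nat.mod_eq_of_lt ha] at h3
  exact h3

lemma G6_card {W N : ℕ} (hW : 0 < W) (hN : 1 ≤ N) : (G6 W N).card = (K6 W).card := by
  classical
  have hb : ∀ a, 1 ≤ N + (W - 1) * a := fun a => by
    have : N ≤ N + (W - 1) * a := Nat.le_add_right _ _
    omega
  refine Finset.card_bij' (fun a _ => (N + (W - 1) * a) % W) (fun a _ => (N + (W - 1) * a) % W) ?_ ?_ ?_ ?_
  · intro a ha
    unfold G6 at ha
    unfold K6
    obtain ⟨h1, h2⟩ := Finset.mem_filter.1 ha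
    refine Finset.mem_filter.2 ⟨Finset.mem_range.2 (Nat.mod_lt _ hW), ?_⟩
    exact (k6_iff (hb a)).2 h2
  · intro k hk
    unfold K6 at hk
    unfold G6
    obtain ⟨h1, h2⟩ := Finset.mem_filter.1 hk
    refine Finset.mem_filter.2 ⟨Finset.mem_range.2 (Nat.mod_lt _ hW), ?_⟩
    apply (k6_iff (hb _)).1
    rw [refl_refl hW N k (Finset.mem_range.1 h1)]
    exact h2
  · intro a ha
    exact refl_refl hW N a (Finset.mem_range.1 (Finset.mem_filter.1 ha).1)
  · intro k hk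
    exact refl_refl hW N k (Finset.mem_range.1 (Finset.mem_filter.1 hk).1)

lemma K6_pos {W : ℕ} (hW : 0 < W) : 1 ≤ (K6 W).card := by
  classical
  apply Finset.card_pos.2
  refine ⟨0, ?_⟩
  unfold K6
  refine Finset.mem_filter.2 ⟨Finset.mem_range.2 hW, ?_⟩
  have e1 : (6 * ((0 : ℕ) : ℤ) - 1) * (6 * ((0 : ℕ) : ℤ) + 1) = -1 := by norm_num
  rw [e1]
  exact (IsCoprime.neg_left_iff 1 _).2 isCoprime_one_left

/-- the classes of the lower members of twins -/
lemma beta_pos {W : ℕ} (hW : 0 < W) : 1 ≤ ((Finset.range W).filter (fun b => Nat.Coprime b W ∧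
    Nat.Coprime (b + 2) W)).card := by
  apply Finset.card_pos.2
  refine ⟨W - 1, ?_⟩
  refine Finset.mem_filter.2 ⟨Finset.mem_range.2 (by omega), ?_, ?_⟩
  · obtain ⟨w, rfl⟩ : ∃ w, W = w + 1 := ⟨W - 1, by omega⟩
    rw [Nat.add_sub_cancel]
    exact Nat.coprime_self_add_right.2 (Nat.coprime_one_right w)
  · rw [show W - 1 + 2 = W + 1 by omega]
    exact (Nat.coprime_add_self_left (m := 1) (n := W)).2 (Nat.coprime_one_left W) |> fun h => by
      rwa [add_comm] at h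

lemma beta_eq (W : ℕ) : {b : ℕ | b < W ∧ IsCoprime ((b : ℤ) * (b + 2)) (W : ℤ)}.ncard =
    ((Finset.range W).filter (fun b => Nat.Coprime b W ∧ Nat.Coprime (b + 2) W)).card := by
  rw [← Set.ncard_coe_finset]
  congr 1
  ext b
  simp only [Set.mem_ofPred_eq, Finset.coe_filter, Finset.mem_range]
  rw [IsCoprime.mul_left_iff, ← cast_cop, ← cast_cop]
  push_cast
  tauto

lemma K6_eq (W : ℕ) : {k : ℕ | k < W ∧ IsCoprime ((6 * (k : ℤ) - 1) * (6 * k + 1)) (W : ℤ)}.ncard =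
    (K6 W).card := by
  rw [← Set.ncard_coe_finset]
  congr 1
  ext b
  unfold K6
  simp only [Set.mem_ofPred_eq, Finset.coe_filter, Finset.mem_range]

end Pool.Agent.N9.AD
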