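import Mathlib
import Pool.Agent.N9.AD.Gen

set_option autoImplicit false
set_option linter.unusedSectionVars false

/-! # Systems of increasing sequences in short intervals -/

open MeasureTheory Filter Set
open scoped ENNReal Topology

namespace Pool.Agent.N9.AD

open Pool.Agent.R528.RM Pool.Agent.N893.SM

variable {Ω : Type} {m0 : MeasurableSpace Ω} {μ : Measure Ω} [IsProbabilityMeasure μ]
  {ℱ : Filtration ℕ m0} {A : ℕ → Set Ω}

lemma strict_ge {V : ℕ → ℕ} {n₀ : ℕ} (hV : ∀ a b, n₀ ≤ a → a < b → V a < V b) :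
    ∀ n, n₀ ≤ n → n ≤ V n + n₀ := by
  intro n hn
  induction n, hn using Nat.le_induction with
  | base => omega
  | succ n hn ih =>
    have := hV n (n + 1) hn (by omega)
    omega

/-- sums over the values of an increasing sequence -/
lemma fiber_inc {V : ℕ → ℕ} {n₀ : ℕ} (hV : ∀ a b, n₀ ≤ a → a < b → V a < V b) (u F : ℕ → ℝ)
    (x y : ℕ) (hx : n₀ ≤ x) :
    ∑ v ∈ Finset.Ico (V x) (V (x + y)), (∑ n ∈ Finset.Ico n₀ (v + n₀ + 1), if V n = v then u n else 0) * F v =
      ∑ n ∈ Finset.Ico x (x + y), u n * F (V n) := by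
  classical
  set B := V (x + y) + n₀ + 1 with hB
  have hge := strict_ge hV
  have hinj : ∀ a b, n₀ ≤ a → n₀ ≤ b → (V a < V b ↔ a < b) := by
    intro a b ha hb
    constructor
    · intro h
      by_contra hcon
      rcases Nat.lt_or_ge b a with h1 | h1
      · have := hV b a hb h1
        omega
      · have : a = b := by omega
        subst this
        omega
    · exact hV a b ha
  have e1 : ∀ v ∈ Finset.Ico (V x) (V (x + y)),
      (∑ n ∈ Finset.Ico n₀ (v + n₀ + 1), if V n = v then u n else 0) * F v =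
      ∑ n ∈ Finset.Ico n₀ B, if V n = v then u n * F (V n) else 0 := by
    intro v hv
    have hv' := Finset.mem_Ico.1 hv
    rw [Finset.sum_mul]
    have hsub : Finset.Ico n₀ (v + n₀ + 1) ⊆ Finset.Ico n₀ B :=
      Finset.Ico_subset_Ico le_rfl (by omega)
    rw [← Finset.sum_subset hsub]
    · refine Finset.sum_congr rfl fun n _ => ?_
      split_ifs with h
      · rw [h]
      · rw [zero_mul]
    · intro n hn1 hn2
      rw [if_neg]
      intro h
      apply hn2
      have h1 := Finset.mem_Ico.1 hn1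
      have h2 := hge n h1.1
      exact Finset.mem_Ico.2 ⟨h1.1, by omega⟩
  rw [Finset.sum_congr rfl e1, Finset.sum_comm]
  have e2 : ∀ n ∈ Finset.Ico n₀ B, (∑ v ∈ Finset.Ico (V x) (V (x + y)),
      if V n = v then u n * F (V n) else 0) = if n ∈ Finset.Ico x (x + y) then u n * F (V n) else 0 := by
    intro n hn
    have h1 := Finset.mem_Ico.1 hn
    rw [Finset.sum_ite_eq]
    have h2 : V n ∈ Finset.Ico (V x) (V (x + y)) ↔ n ∈ Finset.Ico x (x + y) := by
      rw [Finset.mem_Ico, Finset.mem_Ico, hinj n (x + y) h1.1 (by omega)]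
      have h3 := hinj n x h1.1 hx
      constructor
      · rintro ⟨a1, a2⟩
        refine ⟨?_, a2⟩
        by_contra hcon
        have := h3.2 (by omega)
        omega
      · rintro ⟨a1, a2⟩
        refine ⟨?_, a2⟩
        by_contra hcon
        have := h3.1 (by omega)
        omega
    by_cases h3 : n ∈ Finset.Ico x (x + y)
    · rw [if_pos h3, if_pos (h2.2 h3)]
    · rw [if_neg h3, if_neg (fun h => h3 (h2.1 h))]
  rw [Finset.sum_congr rfl e2, ← Finset.sum_filter]
  apply Finset.sum_congr _ fun _ _ => rfl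
  have h4 := hge (x + y) (by omega)
  ext n
  simp only [Finset.mem_filter, Finset.mem_Ico]
  constructor
  · rintro ⟨_, h⟩
    exact h
  · intro h
    exact ⟨⟨by omega, by omega⟩, h⟩

/-- the logarithm of `V n` for `x ≤ n ≤ 2 x` -/
lemma log_V {V : ℕ → ℕ} {c d η : ℝ} (hc : 0 < c) (hd : 0 < d) (hη : 0 < η) (hη1 : η ≤ 1 / 2)
    (hlogV : ∀ η : ℝ, 0 < η → ∀ᶠ n : ℕ in atTop, |Real.log (V n) - d * Real.log n| ≤ η * Real.log n) :
    ∀ᶠ x : ℕ in atTop, ∀ n : ℕ, x ≤ n → n ≤ 2 * x →
      (1 - 2 * η) * (c / (d * Real.log x)) ≤ bb c (V n) ∧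
      bb c (V n) ≤ (1 + 2 * η) * (c / (d * Real.log x)) := by
  set η₁ : ℝ := min 1 (d * η / (d + 2)) with hη₁
  have hη₁0 : 0 < η₁ := by positivity
  have hη₁1 : η₁ ≤ 1 := min_le_left _ _
  have hη₁d : η₁ * (d + 2) ≤ d * η := by
    have : η₁ ≤ d * η / (d + 2) := min_le_right _ _
    rwa [le_div_iff₀ (by positivity)] at this
  have hlog : Tendsto (fun N : ℕ => Real.log (N : ℝ)) atTop atTop :=
    Real.tendsto_log_atTop.comp tendsto_natCast_atTop_atTop
  obtain ⟨n₁, hn₁⟩ := eventually_atTop.1 (hlogV η₁ hη₁0)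
  filter_upwards [eventually_ge_atTop n₁, eventually_ge_atTop 2, hlog.eventually_ge_atTop (1 / η₁),
    hlog.eventually_ge_atTop (2 * (c + 1) / d)] with x h1 h2 h3 h4 n hn1 hn2
  have h5 := abs_le.1 (hn₁ n (by omega))
  have hx : (2 : ℝ) ≤ x := by exact_mod_cast h2
  have hL : 0 < Real.log (x : ℝ) := Real.log_pos (by linarith)
  have hLn1 : Real.log (x : ℝ) ≤ Real.log n := Real.log_le_log (by linarith) (by exact_mod_cast hn1)
  have hLn2 : Real.log (n : ℝ) ≤ (1 + η₁) * Real.log x := by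
    have e1 : (n : ℝ) ≤ 2 * x := by exact_mod_cast hn2
    have e2 : (0 : ℝ) < n := by
      have : 0 < n := by omega
      exact_mod_cast this
    have e3 := Real.log_le_log e2 e1
    rw [Real.log_mul (by norm_num) (by linarith)] at e3
    have e4 : Real.log 2 ≤ 1 := by
      have := Real.log_two_lt_d9
      linarith
    have e5 : 1 ≤ η₁ * Real.log x := by
      rw [div_le_iff₀ hη₁0] at h3
      linarith
    linarith
  set lv := Real.log (V n : ℝ) with hlv
  have hup : lv ≤ (1 + η) * (d * Real.log x) := by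
    have e1 : lv ≤ (d + η₁) * Real.log n := by linarith
    have e2 : (d + η₁) * Real.log n ≤ (d + η₁) * ((1 + η₁) * Real.log x) :=
      mul_le_mul_of_nonneg_left hLn2 (by positivity)
    have e3 : (d + η₁) * (1 + η₁) ≤ d + d * η := by nlinarith
    calc lv ≤ (d + η₁) * ((1 + η₁) * Real.log x) := e1.trans e2
      _ = (d + η₁) * (1 + η₁) * Real.log x := by ring
      _ ≤ (d + d * η) * Real.log x := mul_le_mul_of_nonneg_right e3 hL.le
      _ = _ := by ring
  have hlo : (1 - η) * (d * Real.log x) ≤ lv := by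
    have e1 : (d - η₁) * Real.log n ≤ lv := by linarith
    have e2 : η₁ ≤ d * η := by nlinarith
    have e0 : 0 ≤ d - η₁ := by nlinarith
    have e3 : (d - η₁) * Real.log x ≤ (d - η₁) * Real.log n := mul_le_mul_of_nonneg_left hLn1 e0
    have e4 : (1 - η) * (d * Real.log x) ≤ (d - η₁) * Real.log x := by
      have : (1 - η) * d ≤ d - η₁ := by linarith
      calc (1 - η) * (d * Real.log x) = (1 - η) * d * Real.log x := by ring
        _ ≤ _ := mul_le_mul_of_nonneg_right this hL.le
    linarith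
  have hdL : 0 < d * Real.log x := by positivity
  have hcL : c + 1 ≤ (1 - η) * (d * Real.log x) := by
    rw [div_le_iff₀ hd] at h4
    have : 1 / 2 * (d * Real.log x) ≤ (1 - η) * (d * Real.log x) :=
      mul_le_mul_of_nonneg_right (by linarith) hdL.le
    linarith
  have hlv0 : 0 < lv := by linarith
  have hbb : bb c (V n) = c / lv := by
    unfold bb
    apply min_eq_right
    rw [div_le_one hlv0]
    linarith
  rw [hbb]
  have hq : 0 < c / (d * Real.log x) := by positivity
  constructor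
  · rw [le_div_iff₀ hlv0]
    have e1 : (1 - 2 * η) * lv ≤ d * Real.log x := by
      by_cases hneg : 1 - 2 * η ≤ 0
      · have : (1 - 2 * η) * lv ≤ 0 := mul_nonpos_of_nonpos_of_nonneg hneg hlv0.le
        linarith
      · have e2 : (1 - 2 * η) * lv ≤ (1 - 2 * η) * ((1 + η) * (d * Real.log x)) :=
          mul_le_mul_of_nonneg_left hup (by linarith)
        have e3 : (1 - 2 * η) * (1 + η) ≤ 1 := by nlinarith
        calc (1 - 2 * η) * lv ≤ (1 - 2 * η) * ((1 + η) * (d * Real.log x)) := e2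
          _ = (1 - 2 * η) * (1 + η) * (d * Real.log x) := by ring
          _ ≤ 1 * (d * Real.log x) := mul_le_mul_of_nonneg_right e3 hdL.le
          _ = _ := one_mul _
    calc (1 - 2 * η) * (c / (d * Real.log x)) * lv = c / (d * Real.log x) * ((1 - 2 * η) * lv) := by ring
      _ ≤ c / (d * Real.log x) * (d * Real.log x) := mul_le_mul_of_nonneg_left e1 hq.le
      _ = c := by field_simp
  · rw [div_le_iff₀ hlv0]
    have e1 : d * Real.log x ≤ (1 + 2 * η) * lv := by
      have e2 : (1 + 2 * η) * ((1 - η) * (d * Real.log x)) ≤ (1 + 2 * η) * lv :=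
        mul_le_mul_of_nonneg_left hlo (by positivity)
      have e3 : 1 ≤ (1 + 2 * η) * (1 - η) := by nlinarith
      calc d * Real.log x = 1 * (d * Real.log x) := (one_mul _).symm
        _ ≤ (1 + 2 * η) * (1 - η) * (d * Real.log x) := mul_le_mul_of_nonneg_right e3 hdL.le
        _ = (1 + 2 * η) * ((1 - η) * (d * Real.log x)) := by ring
        _ ≤ _ := e2
    calc c = c / (d * Real.log x) * (d * Real.log x) := by field_simp
      _ ≤ c / (d * Real.log x) * ((1 + 2 * η) * lv) := mul_le_mul_of_nonneg_left e1 hq.le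
      _ = (1 + 2 * η) * (c / (d * Real.log x)) * lv := by ring

/-- **one step**: a condition along an increasing sequence -/
theorem step_law (hA : ∀ n, MeasurableSet[ℱ n] (A n)) {W : ℕ} (hW : 0 < W)
    (hd : ∀ᵐ ω ∂μ, ∀ ε : ℝ, 0 < ε → ∀ᶠ n : ℕ in atTop,
      |dens μ ℱ A n ω - rhoW W (n + 1)| ≤ ε * rhoW W (n + 1))
    (V : ℕ → ℕ) (n₀ : ℕ) (hV : ∀ a b, n₀ ≤ a → a < b → V a < V b) (d : ℝ) (hd0 : 0 < d)
    (hlogV : ∀ η : ℝ, 0 < η → ∀ᶠ n : ℕ in atTop, |Real.log (V n) - d * Real.log n| ≤ η * Real.log n)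
    (E : ℕ) (hE : ∀ᶠ n : ℕ in atTop, V n ≤ n ^ E) (u : ℕ → Ω → ℝ)
    (hu : ∀ n, n₀ ≤ n → StronglyMeasurable[ℱ (V n - 1)] (u n)) (hu1 : ∀ n ω, 0 ≤ u n ω ∧ u n ω ≤ 1) :
    ∀ᵐ ω ∂μ, ∀ ε : ℝ, 0 < ε → ∃ C : ℝ, 0 < C ∧ ∀ᶠ x : ℕ in atTop, ∀ y : ℕ, y ≤ x →
      |∑ n ∈ Finset.Ico x (x + y), u n ω * In A (V n) ω -
        ((W : ℝ) / Nat.totient W) / (d * Real.log x) *
          ∑ n ∈ Finset.Ico x (x + y), (if Nat.Coprime (V n) W then u n ω else 0)| ≤
        ε * (((W : ℝ) / Nat.totient W) / (d * Real.log x) *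
          ∑ n ∈ Finset.Ico x (x + y), (if Nat.Coprime (V n) W then u n ω else 0)) +
          C * Real.log x := by
  classical
  set c : ℝ := (W : ℝ) / Nat.totient W with hc
  have hφ : 0 < Nat.totient W := Nat.totient_pos.2 hW
  have hc0 : 0 < c := by
    have : (0 : ℝ) < W := by exact_mod_cast hW
    have : (0 : ℝ) < Nat.totient W := by exact_mod_cast hφ
    positivity
  have hge := strict_ge hV
  set w : ℕ → ℕ → Ω → ℝ := fun _ v ω => ∑ n ∈ Finset.Ico n₀ (v + n₀ + 1), if V n = v then u n ω else 0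
    with hw
  have hw1 : ∀ N v ω, 0 ≤ w N v ω ∧ w N v ω ≤ 1 := by
    intro N v ω
    constructor
    · exact Finset.sum_nonneg fun s _ => by
        split_ifs
        · exact (hu1 s ω).1
        · exact le_rfl
    · by_cases h : ∃ t ∈ Finset.Ico n₀ (v + n₀ + 1), V t = v
      · obtain ⟨t, ht, htv⟩ := h
        have ht' := Finset.mem_Ico.1 ht
        have e1 : w N v ω = u t ω := by
          simp only [hw]
          rw [Finset.sum_eq_single t]
          · rw [if_pos htv]
          · intro s hs hst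
            have hs' := Finset.mem_Ico.1 hs
            rw [if_neg]
            intro h1
            rcases Nat.lt_trichotomy s t with h2 | h2 | h2
            · have := hV s t hs'.1 h2
              omega
            · exact hst h2
            · have := hV t s ht'.1 h2
              omega
          · intro h1
            exact absurd ht h1
        rw [e1]
        exact (hu1 t ω).2
      · have e1 : w N v ω = 0 := by
          simp only [hw]
          apply Finset.sum_eq_zero
          intro s hs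
          rw [if_neg]
          intro h1
          exact h ⟨s, hs, h1⟩
        rw [e1]
        exact zero_le_one
  have hmeas : ∀ N v : ℕ, 1 ≤ v → StronglyMeasurable[ℱ (v - 1)] (w N v) := by
    intro N v _
    have e1 : w N v = fun ω => ∑ n ∈ Finset.Ico n₀ (v + n₀ + 1), (if V n = v then u n ω else 0) := rfl
    rw [e1]
    refine Finset.stronglyMeasurable_fun_sum _ fun s hs => ?_
    have hs' := Finset.mem_Ico.1 hs
    by_cases h : V s = v
    · simp only [h, if_true]
      rw [← h]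
      exact hu s hs'.1
    · simp only [h, if_false]
      exact @stronglyMeasurable_const _ _ (ℱ (v - 1)) _ _
  filter_upwards [eng (μ := μ) hA (rhoW W) (fun n => ⟨rhoW_nonneg W n, rhoW_le W n⟩) hd (2 * E)
    w hmeas hw1] with ω hω ε hε
  set η : ℝ := min (1 / 2) (ε / 8) with hη
  have hη0 : 0 < η := by positivity
  have hη1 : η ≤ 1 / 2 := min_le_left _ _
  have hηε : η ≤ ε / 8 := min_le_right _ _
  obtain ⟨C, hC0, hC⟩ := hω η hη0
  refine ⟨C, hC0, ?_⟩
  obtain ⟨n₁, hn₁⟩ := eventually_atTop.1 hE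
  filter_upwards [hC, log_V hc0 hd0 hη0 hη1 hlogV, eventually_ge_atTop 2, eventually_ge_atTop n₁,
    eventually_ge_atTop (n₀ + 1)] with x hN hh hN2 hNn hNn0 y hy
  have hlog : 0 < Real.log (x : ℝ) := Real.log_pos (by exact_mod_cast hN2)
  have hb : V (x + y) ≤ x ^ (2 * E) := by
    calc V (x + y) ≤ (x + y) ^ E := hn₁ _ (by omega)
      _ ≤ (x ^ 2) ^ E := Nat.pow_le_pow_left (by nlinarith) E
      _ = x ^ (2 * E) := (pow_mul x 2 E).symm
  have ha : 1 ≤ V x := by
    have := hge x (by omega)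
    omega
  have h1 := hN (V x) (V (x + y)) ha hb
  have e1 : ∑ v ∈ Finset.Ico (V x) (V (x + y)), w x v ω * In A v ω =
      ∑ n ∈ Finset.Ico x (x + y), u n ω * In A (V n) ω :=
    fiber_inc hV (fun n => u n ω) (fun v => In A v ω) x y (by omega)
  have e2 : ∑ v ∈ Finset.Ico (V x) (V (x + y)), w x v ω * rhoW W v =
      ∑ n ∈ Finset.Ico x (x + y), u n ω * rhoW W (V n) :=
    fiber_inc hV (fun n => u n ω) (fun v => rhoW W v) x y (by omega)
  rw [e1, e2] at h1
  set R := ∑ n ∈ Finset.Ico x (x + y), u n ω * In A (V n) ω with hR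
  set Dd := ∑ n ∈ Finset.Ico x (x + y), u n ω * rhoW W (V n) with hD
  set S := ∑ n ∈ Finset.Ico x (x + y), (if Nat.Coprime (V n) W then u n ω else 0) with hS
  have hS0 : 0 ≤ S := Finset.sum_nonneg fun s _ => by
    split_ifs
    · exact (hu1 s ω).1
    · exact le_rfl
  have hD1 : (1 - 2 * η) * (c / (d * Real.log x) * S) ≤ Dd := by
    rw [hS, hD, ← mul_assoc, Finset.mul_sum]
    apply Finset.sum_le_sum
    intro s hs
    have hs' := Finset.mem_Ico.1 hs
    rw [rhoW_eq]
    split_ifs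
    · have := (hh s hs'.1 (by omega)).1
      rw [mul_comm]
      exact mul_le_mul_of_nonneg_left this (hu1 s ω).1
    · rw [mul_zero, mul_zero]
  have hD2 : Dd ≤ (1 + 2 * η) * (c / (d * Real.log x) * S) := by
    rw [hS, hD, ← mul_assoc, Finset.mul_sum]
    apply Finset.sum_le_sum
    intro s hs
    have hs' := Finset.mem_Ico.1 hs
    rw [rhoW_eq]
    split_ifs
    · have := (hh s hs'.1 (by omega)).2
      rw [mul_comm ((1 + 2 * η) * (c / (d * Real.log x)))]
      exact mul_le_mul_of_nonneg_left this (hu1 s ω).1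
    · rw [mul_zero, mul_zero]
  set Z : ℝ := c / (d * Real.log x) * S with hZ
  have hZ0 : 0 ≤ Z := by positivity
  have a1 := abs_le.1 h1
  have g1 : η * Dd ≤ η * ((1 + 2 * η) * Z) := mul_le_mul_of_nonneg_left hD2 hη0.le
  have g2 : η * ((1 + 2 * η) * Z) ≤ 2 * (η * Z) := by
    have : (1 + 2 * η) * Z ≤ 2 * Z := by nlinarith
    nlinarith
  have g3 : η * Z ≤ ε / 8 * Z := mul_le_mul_of_nonneg_right hηε hZ0
  have g4 : 0 ≤ ε * Z := mul_nonneg hε.le hZ0
  rw [abs_le]
  constructor <;> nlinarith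

/-- the product after `j` steps -/
noncomputable def Pj (A : ℕ → Set Ω) (W k : ℕ) (V : ℕ → ℕ → ℕ) (j n : ℕ) (ω : Ω) : ℝ :=
  (∏ i ∈ Finset.range j, In A (V i n) ω) *
    ∏ i ∈ Finset.Ico j k, (if Nat.Coprime (V i n) W then (1 : ℝ) else 0)

/-- **the law for systems** -/
theorem sys_law (hA : ∀ n, MeasurableSet[ℱ n] (A n)) {W : ℕ} (hW : 0 < W)
    (hd : ∀ᵐ ω ∂μ, ∀ ε : ℝ, 0 < ε → ∀ᶠ n : ℕ in atTop,
      |dens μ ℱ A n ω - rhoW W (n + 1)| ≤ ε * rhoW W (n + 1))
    (k : ℕ) (V : ℕ → ℕ → ℕ) (n₀ : ℕ)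
    (hV : ∀ i < k, ∀ a b, n₀ ≤ a → a < b → V i a < V i b)
    (hVV : ∀ i j, i < j → j < k → ∀ n, n₀ ≤ n → V i n < V j n)
    (d : ℕ → ℝ) (hd0 : ∀ i < k, 0 < d i)
    (hlogV : ∀ i < k, ∀ η : ℝ, 0 < η → ∀ᶠ n : ℕ in atTop,
      |Real.log (V i n) - d i * Real.log n| ≤ η * Real.log n)
    (E : ℕ) (hE : ∀ i < k, ∀ᶠ n : ℕ in atTop, V i n ≤ n ^ E) :
    ∀ j ≤ k, ∀ᵐ ω ∂μ, ∀ ε : ℝ, 0 < ε → ∃ C : ℝ, 0 < C ∧ ∀ᶠ x : ℕ in atTop, ∀ y : ℕ, y ≤ x →
      |∑ n ∈ Finset.Ico x (x + y), Pj A W k V j n ω -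
        (∏ i ∈ Finset.range j, ((W : ℝ) / Nat.totient W) / (d i * Real.log x)) *
          ∑ n ∈ Finset.Ico x (x + y), Pj A W k V 0 n ω| ≤
        ε * ((∏ i ∈ Finset.range j, ((W : ℝ) / Nat.totient W) / (d i * Real.log x)) *
          ∑ n ∈ Finset.Ico x (x + y), Pj A W k V 0 n ω) + C * Real.log x := by
  classical
  set c : ℝ := (W : ℝ) / Nat.totient W with hc
  have hφ : 0 < Nat.totient W := Nat.totient_pos.2 hW
  have hc0 : 0 < c := by
    have : (0 : ℝ) < W := by exact_mod_cast hW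
    have : (0 : ℝ) < Nat.totient W := by exact_mod_cast hφ
    positivity
  intro j hj
  induction j with
  | zero =>
    filter_upwards with ω ε hε
    refine ⟨1, one_pos, ?_⟩
    filter_upwards [eventually_ge_atTop 1] with x hx y hy
    have h0 : 0 ≤ ∑ n ∈ Finset.Ico x (x + y), Pj A W k V 0 n ω := by
      refine Finset.sum_nonneg fun n _ => ?_
      unfold Pj
      refine mul_nonneg (Finset.prod_nonneg fun i _ => In_nonneg _ _) (Finset.prod_nonneg fun i _ => ?_)
      split_ifs
      · exact zero_le_one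
      · exact le_rfl
    have h1 : 0 ≤ Real.log (x : ℝ) := Real.log_natCast_nonneg x
    simp only [Finset.range_zero, Finset.prod_empty, one_mul, sub_self, abs_zero]
    positivity
  | succ j ih =>
    have hjk : j < k := by omega
    set u : ℕ → Ω → ℝ := fun n ω => (∏ i ∈ Finset.range j, In A (V i n) ω) *
      ∏ i ∈ Finset.Ico (j + 1) k, (if Nat.Coprime (V i n) W then (1 : ℝ) else 0) with hu
    have hu1 : ∀ n ω, 0 ≤ u n ω ∧ u n ω ≤ 1 := by
      intro n ω
      have b1 : 0 ≤ ∏ i ∈ Finset.range j, In A (V i n) ω := Finset.prod_nonneg fun i _ => In_nonneg _ _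
      have b2 : ∏ i ∈ Finset.range j, In A (V i n) ω ≤ 1 :=
        Finset.prod_le_one (fun i _ => In_nonneg _ _) (fun i _ => In_le _ _)
      have b3 : 0 ≤ ∏ i ∈ Finset.Ico (j + 1) k, (if Nat.Coprime (V i n) W then (1 : ℝ) else 0) :=
        Finset.prod_nonneg fun i _ => by
          split_ifs
          · exact zero_le_one
          · exact le_rfl
      have b4 : ∏ i ∈ Finset.Ico (j + 1) k, (if Nat.Coprime (V i n) W then (1 : ℝ) else 0) ≤ 1 :=
        Finset.prod_le_one (fun i _ => by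
          split_ifs
          · exact zero_le_one
          · exact le_rfl) (fun i _ => by
          split_ifs
          · exact le_rfl
          · exact zero_le_one)
      exact ⟨mul_nonneg b1 b3, mul_le_one₀ b2 b3 b4⟩
    have hum : ∀ n, n₀ ≤ n → StronglyMeasurable[ℱ (V j n - 1)] (u n) := by
      intro n hn
      refine StronglyMeasurable.mul ?_ (@stronglyMeasurable_const _ _ (ℱ (V j n - 1)) _ _)
      refine Finset.stronglyMeasurable_fun_prod _ fun i hi => ?_
      have hi' := Finset.mem_range.1 hi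
      have h1 := hVV i j hi' hjk n hn
      exact (@stronglyMeasurable_const _ _ (ℱ (V j n - 1)) _ _).indicator
        (ℱ.mono (by omega) _ (hA (V i n)))
    have e1 : ∀ n ω, u n ω * In A (V j n) ω = Pj A W k V (j + 1) n ω := by
      intro n ω
      unfold Pj
      rw [hu, Finset.prod_range_succ]
      ring
    have e2 : ∀ n ω, (if Nat.Coprime (V j n) W then u n ω else 0) = Pj A W k V j n ω := by
      intro n ω
      unfold Pj
      rw [hu, Finset.prod_eq_prod_Ico_succ_bot hjk]
      split_ifs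
      · ring
      · ring
    filter_upwards [ih (by omega), step_law (μ := μ) hA hW hd (V j) n₀ (hV j hjk) (d j) (hd0 j hjk)
      (hlogV j hjk) E (hE j hjk) u hum hu1] with ω hω1 hω2 ε hε
    set η : ℝ := min 1 (ε / 4) with hη
    have hη0 : 0 < η := by positivity
    have hη1 : η ≤ 1 := min_le_left _ _
    have hηε : η ≤ ε / 4 := min_le_right _ _
    obtain ⟨C1, hC10, hC1⟩ := hω1 η hη0
    obtain ⟨C2, hC20, hC2⟩ := hω2 η hη0
    have hlogT : Tendsto (fun N : ℕ => Real.log (N : ℝ)) atTop atTop :=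
      Real.tendsto_log_atTop.comp tendsto_natCast_atTop_atTop
    refine ⟨2 * C1 + C2, by positivity, ?_⟩
    have hdj := hd0 j hjk
    have hne : ∀ᶠ x : ℕ in atTop, 1 ≤ x := eventually_ge_atTop 1
    filter_upwards [hC1, hC2, hlogT.eventually_ge_atTop (max 1 (c / d j)), hne] with x h1 h2 h3 hx1 y hy
    have hlog1 : 1 ≤ Real.log (x : ℝ) := (le_max_left _ _).trans h3
    have hlogc : c / d j ≤ Real.log (x : ℝ) := (le_max_right _ _).trans h3
    have hlog : 0 < Real.log (x : ℝ) := by linarith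
    have h4 := h1 y hy
    have h5 := h2 y hy
    rw [Finset.sum_congr rfl (fun n _ => e1 n ω), Finset.sum_congr rfl (fun n _ => e2 n ω)] at h5
    set R1 := ∑ n ∈ Finset.Ico x (x + y), Pj A W k V (j + 1) n ω with hR1
    set Rj := ∑ n ∈ Finset.Ico x (x + y), Pj A W k V j n ω with hRj
    set R0 := ∑ n ∈ Finset.Ico x (x + y), Pj A W k V 0 n ω with hR0
    have hR00 : 0 ≤ R0 := by
      refine Finset.sum_nonneg fun n _ => ?_
      unfold Pj
      refine mul_nonneg (Finset.prod_nonneg fun i _ => In_nonneg _ _) (Finset.prod_nonneg fun i _ => ?_)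
      split_ifs
      · exact zero_le_one
      · exact le_rfl
    set κ : ℝ := c / (d j * Real.log x) with hκ
    have hκ0 : 0 < κ := by positivity
    have hκ1 : κ ≤ 1 := by
      rw [hκ, div_le_one (by positivity)]
      rw [div_le_iff₀ hdj] at hlogc
      linarith
    rw [Finset.prod_range_succ]
    set Pr := ∏ i ∈ Finset.range j, c / (d i * Real.log x) with hPr
    have hPr0 : 0 ≤ Pr := Finset.prod_nonneg fun i hi => by
      have := hd0 i (by have := Finset.mem_range.1 hi; omega)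
      positivity
    have e3 : Pr * (c / (d j * Real.log x)) * R0 = κ * (Pr * R0) := by rw [hκ]; ring
    rw [e3]
    set Y := Pr * R0 with hY
    have hY0 : 0 ≤ Y := mul_nonneg hPr0 hR00
    set Z := κ * Y with hZ
    have hZ0 : 0 ≤ Z := mul_nonneg hκ0.le hY0
    have h6 : |κ * Rj - Z| ≤ η * Z + C1 * Real.log x := by
      have e4 : κ * Rj - Z = κ * (Rj - Y) := by rw [hZ]; ring
      rw [e4, abs_mul, abs_of_pos hκ0]
      calc κ * |Rj - Y| ≤ κ * (η * Y + C1 * Real.log x) := mul_le_mul_of_nonneg_left h4 hκ0.le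
        _ = η * Z + κ * (C1 * Real.log x) := by rw [hZ]; ring
        _ ≤ η * Z + 1 * (C1 * Real.log x) := by gcongr
        _ = _ := by ring
    have a1 := abs_le.1 h5
    have a2 := abs_le.1 h6
    have g1 : η * (κ * Rj) ≤ 2 * (η * Z) + C1 * Real.log x := by
      have g2 : κ * Rj ≤ (1 + η) * Z + C1 * Real.log x := by linarith
      have g3 : η * (κ * Rj) ≤ η * ((1 + η) * Z + C1 * Real.log x) :=
        mul_le_mul_of_nonneg_left g2 hη0.le
      have g4 : η * (C1 * Real.log x) ≤ 1 * (C1 * Real.log x) :=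
        mul_le_mul_of_nonneg_right hη1 (by positivity)
      have g5 : η * ((1 + η) * Z) ≤ η * (2 * Z) :=
        mul_le_mul_of_nonneg_left (mul_le_mul_of_nonneg_right (by linarith) hZ0) hη0.le
      nlinarith
    have g3 : η * Z ≤ ε / 4 * Z := mul_le_mul_of_nonneg_right hηε hZ0
    have g4 : 0 ≤ ε * Z := mul_nonneg hε.le hZ0
    have g5 : (2 * C1 + C2) * Real.log x = 2 * (C1 * Real.log x) + C2 * Real.log x := by ring
    rw [g5, abs_le]
    constructor <;> nlinarith

end Pool.Agent.N9.AD
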