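import Mathlib
import Pool.Agent.N9.AD.Dub2
import Pool.Agent.N9.AD.Model

set_option autoImplicit false
set_option linter.unusedSectionVars false

/-! # Sums `f(p) + q` with a monic quadratic `f` in sieved models -/

open MeasureTheory Filter Set
open scoped ENNReal Topology

namespace Pool.Agent.N9.AD

open Pool.Agent.R528.RM Pool.Agent.N893.SM Pool.Agent.N909.TF

/-- `N - f(p)` -/
def Vq (b c : ℤ) (N p : ℕ) : ℕ := ((N : ℤ) - ((p : ℤ) ^ 2 + b * p + c)).toNat

/-- where the good behaviour of `f` starts -/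
def s0q (b c : ℤ) : ℕ := b.natAbs + c.natAbs + 2

lemma fq_bounds (b c : ℤ) (p : ℕ) (hp : s0q b c ≤ p) :
    0 ≤ (p : ℤ) ^ 2 + b * p + c ∧ (p : ℤ) ^ 2 + b * p + c ≤ 3 * p ^ 2 := by
  unfold s0q at hp
  have h1 : |b| + |c| + 2 ≤ (p : ℤ) := by
    have : ((b.natAbs + c.natAbs + 2 : ℕ) : ℤ) ≤ p := by exact_mod_cast hp
    push_cast at this
    exact this
  have hb1 := abs_le.1 (le_refl |b|)
  have hc1 := abs_le.1 (le_refl |c|)
  have hb0 := abs_nonneg b
  have hc0 := abs_nonneg c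
  have hp0 : (0 : ℤ) ≤ p := Int.natCast_nonneg p
  constructor
  · nlinarith [mul_le_mul_of_nonneg_right hb1.1 hp0]
  · nlinarith [mul_le_mul_of_nonneg_right hb1.2 hp0]

lemma fq_mono (b c : ℤ) (p q : ℕ) (hp : s0q b c ≤ p) (hpq : p < q) :
    (p : ℤ) ^ 2 + b * p + c < (q : ℤ) ^ 2 + b * q + c := by
  unfold s0q at hp
  have h1 : |b| + |c| + 2 ≤ (p : ℤ) := by
    have : ((b.natAbs + c.natAbs + 2 : ℕ) : ℤ) ≤ p := by exact_mod_cast hp
    push_cast at this
    exact this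
  have hb1 := abs_le.1 (le_refl |b|)
  have hc0 := abs_nonneg c
  have h2 : (p : ℤ) + 1 ≤ q := by exact_mod_cast hpq
  have h3 : 0 < ((q : ℤ) - p) * (q + p + b) := by
    apply mul_pos
    · linarith
    · linarith [abs_nonneg b]
  nlinarith

lemma Xq_sq {N p : ℕ} (hp : p ≤ Nat.sqrt (N / 6)) : 6 * p ^ 2 ≤ N := by
  have h1 : p ^ 2 ≤ N / 6 := by
    have := Nat.sqrt_le' (N / 6)
    exact (Nat.pow_le_pow_left hp 2).trans this
  omega

lemma Vq_cast (b c : ℤ) (N p : ℕ) (hp : s0q b c ≤ p) (hX : p ≤ Nat.sqrt (N / 6)) :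
    ((Vq b c N p : ℕ) : ℤ) = (N : ℤ) - ((p : ℤ) ^ 2 + b * p + c) ∧ N ≤ 2 * Vq b c N p ∧
    Vq b c N p ≤ N := by
  have h1 := Xq_sq hX
  have h1' : 6 * (p : ℤ) ^ 2 ≤ N := by exact_mod_cast h1
  obtain ⟨h2, h3⟩ := fq_bounds b c p hp
  have h4 : ((Vq b c N p : ℕ) : ℤ) = (N : ℤ) - ((p : ℤ) ^ 2 + b * p + c) := by
    unfold Vq
    apply Int.toNat_of_nonneg
    linarith [sq_nonneg (p : ℤ)]
  refine ⟨h4, ?_, ?_⟩
  · have : (N : ℤ) ≤ 2 * (Vq b c N p : ℕ) := by
      rw [h4]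
      linarith
    exact_mod_cast this
  · have : ((Vq b c N p : ℕ) : ℤ) ≤ N := by
      rw [h4]
      linarith
    exact_mod_cast this

open Classical in
/-- the residue classes -/
noncomputable def GF (b c : ℤ) (W N : ℕ) : Finset ℕ :=
  (Finset.range W).filter (fun a => IsCoprime ((a : ℤ) * (N - ((a : ℤ) ^ 2 + b * a + c))) (W : ℤ))

lemma GF_iff (b c : ℤ) {W N p : ℕ} (hW : 0 < W) : p % W ∈ GF b c W N ↔
    IsCoprime (p : ℤ) (W : ℤ) ∧ IsCoprime ((N : ℤ) - ((p : ℤ) ^ 2 + b * p + c)) (W : ℤ) := by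
  classical
  unfold GF
  rw [Finset.mem_filter, Finset.mem_range, IsCoprime.mul_left_iff]
  have e0 : (p : ℤ) = ((p % W : ℕ) : ℤ) + (W : ℤ) * ((p / W : ℕ) : ℤ) := by
    exact_mod_cast (Nat.mod_add_div p W).symm
  have hlt : p % W < W := Nat.mod_lt _ hW
  generalize ((p % W : ℕ) : ℤ) = r at e0 ⊢
  generalize ((p / W : ℕ) : ℤ) = q at e0
  rw [e0]
  have e1 : (N : ℤ) - ((r + W * q) ^ 2 + b * (r + W * q) + c) =
      (N - (r ^ 2 + b * r + c)) + (W : ℤ) * (-(2 * r * q + W * q ^ 2 + b * q)) := by ring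
  rw [e1, IsCoprime.add_mul_left_left_iff, IsCoprime.add_mul_left_left_iff]
  exact ⟨fun h => h.2, fun h => ⟨hlt, h⟩⟩

/-- a good residue modulo one prime -/
lemma quad_res (b c : ℤ) (hbc : Odd (b + c)) (hb3 : ¬ (3 : ℤ) ∣ b) (N l : ℕ) (hl : l.Prime)
    (h2 : l = 2 → Odd N) :
    ∃ r : ℕ, ¬ ((l : ℤ) ∣ r) ∧ ¬ ((l : ℤ) ∣ (N : ℤ) - ((r : ℤ) ^ 2 + b * r + c)) := by
  have hl2 := hl.two_le
  by_cases e2 : l = 2
  · subst e2
    refine ⟨1, by norm_num, ?_⟩
    obtain ⟨u, hu⟩ := hbc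
    obtain ⟨v, hv⟩ := h2 rfl
    subst hv
    push_cast
    rintro ⟨w, hw⟩
    omega
  by_cases e3 : l = 3
  · subst e3
    by_contra hcon
    push Not at hcon
    have k1 := hcon 1 (by norm_num)
    have k2 := hcon 2 (by norm_num)
    apply hb3
    obtain ⟨u, hu⟩ := k1
    obtain ⟨v, hv⟩ := k2
    refine ⟨u - v - 1, ?_⟩
    push_cast at hu hv
    linarith
  · have hl4 : l ≠ 4 := by
      rintro rfl
      exact absurd hl (by norm_num)
    have hl5 : 5 ≤ l := by omega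
    by_contra hcon
    push Not at hcon
    have hnd : ∀ r : ℕ, 1 ≤ r → r ≤ 4 → ¬ ((l : ℤ) ∣ r) := by
      intro r h1 h4 h
      have := Nat.le_of_dvd (by omega) (Int.natCast_dvd_natCast.1 h)
      omega
    obtain ⟨u, hu⟩ := hcon 1 (hnd 1 (by norm_num) (by norm_num))
    obtain ⟨v, hv⟩ := hcon 2 (hnd 2 (by norm_num) (by norm_num))
    obtain ⟨w, hw⟩ := hcon 3 (hnd 3 (by norm_num) (by norm_num))
    push_cast at hu hv hw
    have h2' : (l : ℤ) ∣ 2 := ⟨-(w - 2 * v + u), by linarith⟩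
    exact hnd 2 (by norm_num) (by norm_num) (by exact_mod_cast h2')

/-- there is a good class -/
lemma GF_pos (b c : ℤ) (hbc : Odd (b + c)) (hb3 : ¬ (3 : ℤ) ∣ b) (W : ℕ) (hW : 0 < W) (N : ℕ)
    (h2 : 2 ∣ W → Odd N) : 1 ≤ (GF b c W N).card := by
  classical
  choose! r hr using fun l (h : l.Prime ∧ l ∣ W) => quad_res b c hbc hb3 N l h.1
    (fun h' => h2 (h' ▸ h.2))
  obtain ⟨x, hx⟩ := crt_primes W r
  apply Finset.card_pos.2
  refine ⟨x % W, ?_⟩
  rw [GF_iff b c hW]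
  have key : ∀ z : ℤ, (∀ l : ℕ, l.Prime → l ∣ W → ¬ ((l : ℤ) ∣ z)) → IsCoprime z (W : ℤ) := by
    intro z hz
    rw [Int.isCoprime_iff_gcd_eq_one]
    by_contra hcon
    obtain ⟨l, hl, hl1⟩ := Nat.exists_prime_and_dvd hcon
    have h3 : (l : ℤ) ∣ z := (Int.natCast_dvd_natCast.2 hl1).trans (Int.gcd_dvd_left _ _)
    have h4 : (l : ℤ) ∣ (W : ℤ) := (Int.natCast_dvd_natCast.2 hl1).trans (Int.gcd_dvd_right _ _)
    exact hz l hl (Int.natCast_dvd_natCast.1 h4) h3
  have hmod : ∀ l : ℕ, l.Prime → l ∣ W → (l : ℤ) ∣ (x : ℤ) - r l := by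
    intro l hl hlW
    have h3 := hx x rfl l hl hlW hW.ne'
    have h4 := (Int.natCast_modEq_iff.2 h3).symm.dvd
    exact h4
  constructor
  · apply key
    intro l hl hlW h
    apply (hr l ⟨hl, hlW⟩).1
    have h3 := hmod l hl hlW
    have := dvd_sub h h3
    rwa [sub_sub_cancel] at this
  · apply key
    intro l hl hlW h
    apply (hr l ⟨hl, hlW⟩).2
    obtain ⟨k, hk⟩ := hmod l hl hlW
    have e1 : (x : ℤ) = r l + l * k := by linarith
    have e2 : (N : ℤ) - ((r l : ℤ) ^ 2 + b * r l + c) =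
        ((N : ℤ) - ((x : ℤ) ^ 2 + b * x + c)) + l * (k * (2 * r l + l * k + b)) := by
      rw [e1]
      ring
    rw [e2]
    exact dvd_add h (dvd_mul_right _ _)

variable {Ω : Type} {m0 : MeasurableSpace Ω} {μ : Measure Ω} [IsProbabilityMeasure μ]
  {ℱ : Filtration ℕ m0} {A : ℕ → Set Ω}

/-- **the law for `f(p) + q`** -/
theorem quad_law (hA : ∀ n, MeasurableSet[ℱ n] (A n)) (Q : Finset ℕ) (hQ : ∀ p ∈ Q, p.Prime)
    (hcop : ∀ n, (∃ p ∈ Q, p ∣ n) → A n = ∅)
    (hd : ∀ᵐ ω ∂μ, Tendsto (fun n : ℕ => dens μ ℱ A n ω * Real.log n)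
      (atTop ⊓ 𝓟 {n : ℕ | ∀ p ∈ Q, ¬ p ∣ n + 1}) (𝓝 (∏ p ∈ Q, (1 - 1 / (p : ℝ))⁻¹)))
    (b c : ℤ) :
    ∀ᵐ ω ∂μ, ∀ ε : ℝ, 0 < ε → ∃ K : ℝ, 0 < K ∧ ∀ᶠ N : ℕ in atTop, ∀ x : ℕ, 2 ≤ x →
      x ≤ Nat.sqrt (N / 6) →
      |∑ p ∈ Finset.Icc 1 x, In A p ω * In A (Vq b c N p) ω -
        (((∏ p ∈ Q, p : ℕ) : ℝ) / Nat.totient (∏ p ∈ Q, p)) ^ 1 *
        (((GF b c (∏ p ∈ Q, p) N).card : ℝ) * (1 / Nat.totient (∏ p ∈ Q, p))) *
        (x / (Real.log x ^ 1 * Real.log N ^ 1))| ≤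
        ε * (x / (Real.log x ^ 1 * Real.log N ^ 1)) + K * Real.log N := by
  classical
  have hcls := A_cls (μ := μ) hA Q hQ hcop hd
  set W := ∏ p ∈ Q, p with hWdef
  have hW : 0 < W := Finset.prod_pos fun q hq => (hQ q hq).pos
  have hprof := profile (μ := μ) hA Q hQ hcop hd
  have hcop' : ∀ n, ¬ Nat.Coprime n W → A n = ∅ := by
    intro n hn
    apply hcop
    rw [coprime_prod_iff Q hQ] at hn
    push Not at hn
    exact hn
  set C₀ : ℝ := (W : ℝ) / Nat.totient W with hC₀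
  have hφ : 0 < Nat.totient W := Nat.totient_pos.2 hW
  have hφR : (0 : ℝ) < Nat.totient W := by exact_mod_cast hφ
  have hWR : (0 : ℝ) < W := by exact_mod_cast hW
  have hC00 : 0 < C₀ := by positivity
  set s₀ := s0q b c with hs₀
  have hs₀1 : 2 ≤ s₀ := by
    rw [hs₀]
    unfold s0q
    omega
  filter_upwards [hcls, comp_gen (μ := μ) hA hW hprof s₀ (by omega) (fun N => Nat.sqrt (N / 6))
    (fun N p => Vq b c N p) 1 (by
      intro N s t h1 h2 h3
      have k1 := (Vq_cast b c N s h1 (by omega)).1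
      have k2 := (Vq_cast b c N t (by omega) h3).1
      have k3 := fq_mono b c s t h1 h2
      have k4 : ((Vq b c N t : ℕ) : ℤ) < (Vq b c N s : ℕ) := by
        rw [k1, k2]
        linarith
      exact_mod_cast k4) (by
      intro N s h1 h2
      have k1 := Vq_cast b c N s h1 h2
      exact ⟨k1.2.1, by rw [one_mul]; exact k1.2.2⟩)
    (fun _ p ω => In A p ω) (by
      intro N s h1 h2
      have k1 := (Vq_cast b c N s h1 h2).2.1
      have k2 := Xq_sq h2
      have k3 : s + 1 ≤ Vq b c N s := by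
        have : 2 ≤ s := by omega
        nlinarith
      exact (@stronglyMeasurable_const _ _ (ℱ (Vq b c N s - 1)) _ _).indicator
          (ℱ.mono (by omega) _ (hA s))) (by
      intro N s ω
      exact ⟨In_nonneg _ _, In_le _ _⟩)] with ω hω1 hω2
  -- the first terms
  have hfirst : ∀ (F : ℕ → ℝ), (∀ p, 0 ≤ F p ∧ F p ≤ 1) → ∀ x : ℕ,
      |∑ p ∈ Finset.Icc 1 x, F p - ∑ p ∈ Finset.Icc s₀ x, F p| ≤ s₀ := by
    intro F hF x
    have h1 : Finset.Icc 1 x \ Finset.Icc s₀ x ⊆ Finset.range s₀ := by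
      intro p hp
      obtain ⟨h1, h2⟩ := Finset.mem_sdiff.1 hp
      have h3 := Finset.mem_Icc.1 h1
      rw [Finset.mem_range]
      by_contra hcon
      exact h2 (Finset.mem_Icc.2 ⟨by omega, h3.2⟩)
    have hsub : Finset.Icc s₀ x ⊆ Finset.Icc 1 x := Finset.Icc_subset_Icc (by omega) le_rfl
    have h2 := Finset.sum_sdiff (f := F) hsub
    have h3 : 0 ≤ ∑ p ∈ Finset.Icc 1 x \ Finset.Icc s₀ x, F p := Finset.sum_nonneg fun p _ => (hF p).1
    have h4 : ∑ p ∈ Finset.Icc 1 x \ Finset.Icc s₀ x, F p ≤ s₀ := by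
      calc ∑ p ∈ Finset.Icc 1 x \ Finset.Icc s₀ x, F p ≤ ∑ p ∈ Finset.Icc 1 x \ Finset.Icc s₀ x, (1 : ℝ) :=
            Finset.sum_le_sum fun p _ => (hF p).2
        _ = ((Finset.Icc 1 x \ Finset.Icc s₀ x).card : ℝ) := by rw [Finset.sum_const, nsmul_eq_mul, mul_one]
        _ ≤ s₀ := by
            have := Finset.card_le_card h1
            rw [Finset.card_range] at this
            exact_mod_cast this
    rw [abs_le]
    constructor <;> linarith
  apply fin_law
    (fun N x => ∑ p ∈ Finset.Icc 1 x, In A p ω * In A (Vq b c N p) ω)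
    (fun N x => ∑ p ∈ Finset.Icc s₀ x, (if Nat.Coprime (Vq b c N p) W then In A p ω else 0))
    (fun N => ((GF b c W N).card : ℝ) * (1 / Nat.totient W)) (fun N => Nat.sqrt (N / 6)) C₀
    (W * (1 / Nat.totient W)) hC00 1 1 (by positivity)
  · intro ε hε
    obtain ⟨C, hC0, hC⟩ := hω2 ε hε
    refine ⟨C + s₀, by positivity, ?_⟩
    have hlog : Tendsto (fun N : ℕ => Real.log (N : ℝ)) atTop atTop :=
      Real.tendsto_log_atTop.comp tendsto_natCast_atTop_atTop
    filter_upwards [hC, hlog.eventually_ge_atTop 1] with N hN hl x hx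
    have h1 := abs_le.1 (hN x hx)
    have h2 := abs_le.1 (hfirst (fun p => In A p ω * In A (Vq b c N p) ω) (fun p =>
      ⟨mul_nonneg (In_nonneg _ _) (In_nonneg _ _),
        mul_le_one₀ (In_le _ _) (In_nonneg _ _) (In_le _ _)⟩) x)
    have h3 : (s₀ : ℝ) ≤ s₀ * Real.log N := le_mul_of_one_le_right (Nat.cast_nonneg _) hl
    rw [pow_one, add_mul, abs_le]
    constructor <;> linarith
  · intro N
    refine ⟨by positivity, ?_⟩
    apply mul_le_mul_of_nonneg_right _ (by positivity)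
    have : (GF b c W N).card ≤ W := by
      have := Finset.card_filter_le (Finset.range W)
        (fun a : ℕ => IsCoprime ((a : ℤ) * (N - ((a : ℤ) ^ 2 + b * a + c))) (W : ℤ))
      rw [Finset.card_range] at this
      exact this
    exact_mod_cast this
  · intro η hη
    obtain ⟨M, hM0, hM⟩ := class_unif
      (fun a x => ∑ v ∈ Finset.Icc 1 x, (if v % W = a then In A v ω else 0))
      ((Finset.range W).filter (fun a => Nat.Coprime a W))
      (1 / Nat.totient W) 1 (fun a ha => hω1 a (Finset.mem_range.1 (Finset.mem_filter.1 ha).1)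
        (Finset.mem_filter.1 ha).2) η hη
    refine ⟨M + W * s₀, by positivity, ?_⟩
    filter_upwards [eventually_ge_atTop 2] with N hN2 x hx2 hx
    have hsub : GF b c W N ⊆ (Finset.range W).filter (fun a => Nat.Coprime a W) := by
      intro a ha
      unfold GF at ha
      obtain ⟨h1, h2⟩ := Finset.mem_filter.1 ha
      rw [IsCoprime.mul_left_iff] at h2
      exact Finset.mem_filter.2 ⟨h1, Nat.isCoprime_iff_coprime.1 h2.1⟩
    have h3 := hM (GF b c W N) hsub x hx2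
    have e1 : ∑ p ∈ Finset.Icc s₀ x, (if Nat.Coprime (Vq b c N p) W then In A p ω else 0) =
        ∑ a ∈ GF b c W N, ∑ v ∈ Finset.Icc s₀ x, (if v % W = a then In A v ω else 0) := by
      rw [Finset.sum_comm]
      refine Finset.sum_congr rfl fun p hp => ?_
      have hp' := Finset.mem_Icc.1 hp
      rw [Finset.sum_ite_eq]
      have k1 := (Vq_cast b c N p hp'.1 (hp'.2.trans hx)).1
      have k2 : Nat.Coprime (Vq b c N p) W ↔
          IsCoprime ((N : ℤ) - ((p : ℤ) ^ 2 + b * p + c)) (W : ℤ) := by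
        rw [← Nat.isCoprime_iff_coprime, k1]
      have k3 := GF_iff b c (W := W) (N := N) (p := p) hW
      by_cases k4 : Nat.Coprime p W
      · have k5 : IsCoprime (p : ℤ) (W : ℤ) := Nat.isCoprime_iff_coprime.2 k4
        by_cases k6 : Nat.Coprime (Vq b c N p) W
        · rw [if_pos k6, if_pos (k3.2 ⟨k5, k2.1 k6⟩)]
        · rw [if_neg k6, if_neg (fun h => k6 (k2.2 (k3.1 h).2))]
      · have k7 : In A p ω = 0 := by
          unfold In
          rw [hcop' p k4]
          simp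
        rw [k7]
        split_ifs <;> rfl
    have e2 : |∑ a ∈ GF b c W N, ∑ v ∈ Finset.Icc 1 x, (if v % W = a then In A v ω else 0) -
        ∑ a ∈ GF b c W N, ∑ v ∈ Finset.Icc s₀ x, (if v % W = a then In A v ω else 0)| ≤ W * s₀ := by
      rw [← Finset.sum_sub_distrib]
      refine (Finset.abs_sum_le_sum_abs _ _).trans ?_
      calc ∑ a ∈ GF b c W N, |∑ v ∈ Finset.Icc 1 x, (if v % W = a then In A v ω else 0) -
          ∑ v ∈ Finset.Icc s₀ x, (if v % W = a then In A v ω else 0)| ≤ ∑ a ∈ GF b c W N, (s₀ : ℝ) := by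
            refine Finset.sum_le_sum fun a _ => ?_
            apply hfirst (fun v => if v % W = a then In A v ω else 0)
            intro p
            split_ifs
            · exact ⟨In_nonneg _ _, In_le _ _⟩
            · exact ⟨le_rfl, zero_le_one⟩
        _ = ((GF b c W N).card : ℝ) * s₀ := by rw [Finset.sum_const, nsmul_eq_mul]
        _ ≤ W * s₀ := by
            apply mul_le_mul_of_nonneg_right _ (Nat.cast_nonneg _)
            have : (GF b c W N).card ≤ W := by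
              have := Finset.card_filter_le (Finset.range W)
                (fun a : ℕ => IsCoprime ((a : ℤ) * (N - ((a : ℤ) ^ 2 + b * a + c))) (W : ℤ))
              rw [Finset.card_range] at this
              exact this
            exact_mod_cast this
    rw [e1]
    have a1 := abs_le.1 h3
    have a2 := abs_le.1 e2
    rw [abs_le]
    constructor <;> linarith

end Pool.Agent.N9.AD
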