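import Mathlib
import Pool.Agent.N9.AD.Poly
import Pool.Agent.N9.AD.Model
import Pool.Agent.N9.AD.Quad

set_option autoImplicit false
set_option linter.unusedSectionVars false

/-! # Systems of polynomials in short intervals -/

open MeasureTheory Filter Set Polynomial
open scoped ENNReal Topology

namespace Pool.Agent.N9.AD

open Pool.Agent.R528.RM Pool.Agent.N893.SM

lemma cP : Countable ℤ[X] := by
  have h := Polynomial.cardinalMk_le_max (R := ℤ)
  rw [← Cardinal.mk_le_aleph0_iff]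
  refine h.trans ?_
  simp

lemma cF (k : ℕ) : Countable (Fin k → ℤ[X]) := by
  have := cP
  infer_instance


/-- leading behaviour -/
lemma lead (g : ℤ[X]) : ∃ φ : ℕ → ℝ, Tendsto φ atTop (𝓝 1) ∧ ∀ᶠ n : ℕ in atTop,
    ((g.eval (n : ℤ) : ℤ) : ℝ) = φ n * ((g.leadingCoeff : ℝ) * (n : ℝ) ^ g.natDegree) := by
  have hinj : Function.Injective (Int.castRingHom ℝ) := Int.cast_injective
  obtain ⟨φ, hφ, he⟩ := (Polynomial.isEquivalent_atTop_lead (g.map (Int.castRingHom ℝ))).exists_eq_mul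
  refine ⟨fun n => φ n, hφ.comp tendsto_natCast_atTop_atTop, ?_⟩
  have h2 := (tendsto_natCast_atTop_atTop (R := ℝ)).eventually he
  filter_upwards [h2] with n hn
  have e1 : eval (n : ℝ) (g.map (Int.castRingHom ℝ)) = ((g.eval (n : ℤ) : ℤ) : ℝ) := by
    simp
  rw [← e1, hn, Pi.mul_apply, Polynomial.leadingCoeff_map_of_injective hinj,
    Polynomial.natDegree_map_eq_of_injective hinj]
  rfl

lemma ev_pos (g : ℤ[X]) (hg : 0 < g.leadingCoeff) : ∀ᶠ n : ℕ in atTop, 0 < g.eval (n : ℤ) := by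
  obtain ⟨φ, hφ, he⟩ := lead g
  filter_upwards [he, hφ.eventually_const_lt (show (0 : ℝ) < 1 by norm_num), eventually_ge_atTop 1] with n h1 h2 h3
  have h4 : (0 : ℝ) < g.leadingCoeff := by exact_mod_cast hg
  have h5 : (0 : ℝ) < n := by exact_mod_cast h3
  have : (0 : ℝ) < ((g.eval (n : ℤ) : ℤ) : ℝ) := by
    rw [h1]
    positivity
  exact_mod_cast this

lemma ev_inc (g : ℤ[X]) (hg : 0 < g.leadingCoeff) (hd : 0 < g.natDegree) :
    ∃ n₀ : ℕ, ∀ a b : ℕ, n₀ ≤ a → a < b → g.eval (a : ℤ) < g.eval (b : ℤ) := by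
  have hinj : Function.Injective (Int.castRingHom ℝ) := Int.cast_injective
  set P := g.map (Int.castRingHom ℝ) with hP
  have e0 : ∀ n : ℕ, eval (n : ℝ) P = ((g.eval (n : ℤ) : ℤ) : ℝ) := by
    intro n
    rw [hP]
    simp
  have hlc : 0 < P.derivative.leadingCoeff := by
    rw [Polynomial.leadingCoeff_derivative, hP, Polynomial.leadingCoeff_map_of_injective hinj,
      Polynomial.natDegree_map_eq_of_injective hinj]
    have h4 : (0 : ℝ) < g.leadingCoeff := by exact_mod_cast hg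
    have h5 : (0 : ℝ) < g.natDegree := by exact_mod_cast hd
    simp only [eq_intCast]
    positivity
  obtain ⟨φ, hφ, he⟩ := (Polynomial.isEquivalent_atTop_lead P.derivative).exists_eq_mul
  have h1 : ∀ᶠ t : ℝ in atTop, 0 < eval t P.derivative := by
    filter_upwards [he, hφ.eventually_const_lt (show (0 : ℝ) < 1 by norm_num), eventually_gt_atTop (0 : ℝ)] with t h1 h2 h3
    rw [h1, Pi.mul_apply]
    positivity
  obtain ⟨t₀, ht₀⟩ := eventually_atTop.1 h1
  have hmono : StrictMonoOn (fun t => eval t P) (Set.Ici t₀) := by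
    apply strictMonoOn_of_deriv_pos (convex_Ici t₀) P.continuousOn
    intro t ht
    rw [interior_Ici] at ht
    rw [Polynomial.deriv]
    exact ht₀ t (le_of_lt ht)
  refine ⟨⌈t₀⌉₊, fun a b ha hab => ?_⟩
  have ha' : t₀ ≤ (a : ℝ) := (Nat.le_ceil t₀).trans (by exact_mod_cast ha)
  have hb' : t₀ ≤ (b : ℝ) := ha'.trans (by exact_mod_cast hab.le)
  have h2 := hmono ha' hb' (by exact_mod_cast hab)
  simp only [e0] at h2
  exact_mod_cast h2

lemma toNat_cast {g : ℤ[X]} {n : ℕ} (h : 0 < g.eval (n : ℤ)) :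
    (((g.eval (n : ℤ)).toNat : ℕ) : ℝ) = ((g.eval (n : ℤ) : ℤ) : ℝ) := by
  have : (((g.eval (n : ℤ)).toNat : ℕ) : ℤ) = g.eval (n : ℤ) := Int.toNat_of_nonneg h.le
  exact_mod_cast congrArg (Int.cast : ℤ → ℝ) this

lemma ev_log (g : ℤ[X]) (hg : 0 < g.leadingCoeff) : ∀ η : ℝ, 0 < η → ∀ᶠ n : ℕ in atTop,
    |Real.log ((g.eval (n : ℤ)).toNat : ℕ) - (g.natDegree : ℝ) * Real.log n| ≤ η * Real.log n := by
  intro η hη
  obtain ⟨φ, hφ, he⟩ := lead g
  have hlog : Tendsto (fun N : ℕ => Real.log (N : ℝ)) atTop atTop :=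
    Real.tendsto_log_atTop.comp tendsto_natCast_atTop_atTop
  have h1 : Tendsto (fun n => Real.log (φ n)) atTop (𝓝 (Real.log 1)) :=
    (Real.continuousAt_log one_ne_zero).tendsto.comp hφ
  rw [Real.log_one] at h1
  have h2 := h1.abs.eventually_lt_const (show |(0 : ℝ)| < 1 by norm_num)
  filter_upwards [he, h2, hφ.eventually_const_lt (show (0 : ℝ) < 1 by norm_num), eventually_ge_atTop 1,
    ev_pos g hg, hlog.eventually_ge_atTop ((|Real.log g.leadingCoeff| + 1) / η)] with n h1 h2 h3 h4 h5 h6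
  have h7 : (0 : ℝ) < g.leadingCoeff := by exact_mod_cast hg
  have h8 : (0 : ℝ) < n := by exact_mod_cast h4
  rw [toNat_cast h5, h1, Real.log_mul h3.ne' (by positivity), Real.log_mul h7.ne' (by positivity),
    Real.log_pow]
  have e1 : Real.log (φ n) + (Real.log g.leadingCoeff + g.natDegree * Real.log n) -
      g.natDegree * Real.log n = Real.log (φ n) + Real.log g.leadingCoeff := by ring
  rw [e1]
  rw [div_le_iff₀ hη] at h6
  have := abs_add_le (Real.log (φ n)) (Real.log g.leadingCoeff)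
  linarith

lemma ev_pow (g : ℤ[X]) (hg : 0 < g.leadingCoeff) (E : ℕ) (hE : g.natDegree < E) :
    ∀ᶠ n : ℕ in atTop, (g.eval (n : ℤ)).toNat ≤ n ^ E := by
  obtain ⟨φ, hφ, he⟩ := lead g
  filter_upwards [he, hφ.eventually_lt_const (show (1 : ℝ) < 2 by norm_num), eventually_ge_atTop 1,
    ev_pos g hg, tendsto_natCast_atTop_atTop.eventually_ge_atTop (2 * (g.leadingCoeff : ℝ))] with n h1 h2 h3 h4 h5
  have h7 : (0 : ℝ) < g.leadingCoeff := by exact_mod_cast hg
  have h8 : (1 : ℝ) ≤ n := by exact_mod_cast h3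
  have h9 : (((g.eval (n : ℤ)).toNat : ℕ) : ℝ) ≤ (n : ℝ) ^ E := by
    rw [toNat_cast h4, h1]
    have e1 : φ n * ((g.leadingCoeff : ℝ) * (n : ℝ) ^ g.natDegree) ≤
        2 * ((g.leadingCoeff : ℝ) * (n : ℝ) ^ g.natDegree) := by gcongr
    have e2 : 2 * ((g.leadingCoeff : ℝ) * (n : ℝ) ^ g.natDegree) ≤ (n : ℝ) ^ (g.natDegree + 1) := by
      rw [pow_succ]
      nlinarith [pow_pos (show (0 : ℝ) < n by linarith) g.natDegree]
    exact (e1.trans e2).trans (pow_le_pow_right₀ h8 hE)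
  exact_mod_cast h9

/-- the sign of a difference -/
lemma ev_cmp (g h : ℤ[X]) (hne : g ≠ h) : (∀ᶠ n : ℕ in atTop, g.eval (n : ℤ) < h.eval (n : ℤ)) ∨
    (∀ᶠ n : ℕ in atTop, h.eval (n : ℤ) < g.eval (n : ℤ)) := by
  have h0 : (h - g).leadingCoeff ≠ 0 := by
    rw [Polynomial.leadingCoeff_ne_zero, sub_ne_zero]
    exact hne.symm
  rcases lt_or_gt_of_ne h0 with h1 | h1
  · right
    have h2 : 0 < (g - h).leadingCoeff := by
      rw [← neg_sub h g, Polynomial.leadingCoeff_neg]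
      omega
    filter_upwards [ev_pos _ h2] with n hn
    rw [Polynomial.eval_sub] at hn
    omega
  · left
    filter_upwards [ev_pos _ h1] with n hn
    rw [Polynomial.eval_sub] at hn
    omega

/-- all comparisons are constant from some point on, and there is an order -/
lemma sorted {k : ℕ} (f : Fin k → ℤ[X]) (hf : Function.Injective f) :
    ∃ σ : Equiv.Perm (Fin k), ∃ n₁ : ℕ, ∀ i j : Fin k, i < j → ∀ n : ℕ, n₁ ≤ n →
      (f (σ i)).eval (n : ℤ) < (f (σ j)).eval (n : ℤ) := by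
  have h1 : ∀ᶠ m : ℕ in atTop, ∀ i j : Fin k, i ≠ j →
      ((∀ n, m ≤ n → (f i).eval (n : ℤ) < (f j).eval (n : ℤ)) ∨
       (∀ n, m ≤ n → (f j).eval (n : ℤ) < (f i).eval (n : ℤ))) := by
    rw [eventually_all]
    intro i
    rw [eventually_all]
    intro j
    by_cases hij : i = j
    · exact Eventually.of_forall fun m h => absurd hij h
    · rcases ev_cmp (f i) (f j) (fun h => hij (hf h)) with h | h
      · obtain ⟨a, ha⟩ := eventually_atTop.1 h
        filter_upwards [eventually_ge_atTop a] with m hm _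
        exact Or.inl fun n hn => ha n (hm.trans hn)
      · obtain ⟨a, ha⟩ := eventually_atTop.1 h
        filter_upwards [eventually_ge_atTop a] with m hm _
        exact Or.inr fun n hn => ha n (hm.trans hn)
  obtain ⟨m, hm⟩ := h1.exists
  set F : Fin k → ℤ := fun i => (f i).eval (m : ℤ) with hF
  refine ⟨Tuple.sort F, m, fun i j hij n hn => ?_⟩
  have h2 : F (Tuple.sort F i) ≤ F (Tuple.sort F j) := Tuple.monotone_sort F hij.le
  have h3 : Tuple.sort F i ≠ Tuple.sort F j := fun h => hij.ne ((Tuple.sort F).injective h)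
  rcases hm _ _ h3 with h4 | h4
  · exact h4 n hn
  · exact absurd (h2.trans_lt (h4 m le_rfl)) (lt_irrefl _)


/-- sums of a periodic function -/
lemma per_sum {W : ℕ} (hW : 0 < W) (c : ℕ → ℝ) (hc : ∀ n, 0 ≤ c n ∧ c n ≤ 1)
    (hper : ∀ n, c (n + W) = c n) (x y : ℕ) :
    |∑ n ∈ Finset.Ico x (x + y), c n - (y : ℝ) / W * ∑ a ∈ Finset.range W, c a| ≤ W := by
  set T := ∑ a ∈ Finset.range W, c a with hT
  have hWR : (0 : ℝ) < W := by exact_mod_cast hW
  have h1 : ∀ x, ∑ n ∈ Finset.Ico x (x + W), c n = T := by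
    intro x
    induction x with
    | zero => rw [zero_add, ← Finset.range_eq_Ico]
    | succ x ih =>
      have e1 : ∑ n ∈ Finset.Ico x (x + W + 1), c n = ∑ n ∈ Finset.Ico x (x + W), c n + c (x + W) :=
        Finset.sum_Ico_succ_top (by omega) _
      have e2 : ∑ n ∈ Finset.Ico x (x + W + 1), c n =
          c x + ∑ n ∈ Finset.Ico (x + 1) (x + W + 1), c n :=
        Finset.sum_eq_sum_Ico_succ_bot (by omega) _
      rw [show x + 1 + W = x + W + 1 by ring]
      have := hper x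
      linarith
  have h2 : ∀ q x, ∑ n ∈ Finset.Ico x (x + W * q), c n = q * T := by
    intro q
    induction q with
    | zero => intro x; simp
    | succ q ih =>
      intro x
      have e1 : ∑ n ∈ Finset.Ico x (x + W * q), c n +
          ∑ n ∈ Finset.Ico (x + W * q) (x + W * (q + 1)), c n =
          ∑ n ∈ Finset.Ico x (x + W * (q + 1)), c n :=
        Finset.sum_Ico_consecutive _ (by omega) (by nlinarith)
      rw [← e1, ih, show x + W * (q + 1) = x + W * q + W by ring, h1]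
      push_cast
      ring
  have hy : W * (y / W) + y % W = y := Nat.div_add_mod y W
  have hr : y % W < W := Nat.mod_lt y hW
  generalize y / W = q at hy
  generalize y % W = r at hy hr
  have e1 : ∑ n ∈ Finset.Ico x (x + W * q), c n + ∑ n ∈ Finset.Ico (x + W * q) (x + y), c n =
      ∑ n ∈ Finset.Ico x (x + y), c n := Finset.sum_Ico_consecutive _ (by omega) (by omega)
  have h3 : 0 ≤ ∑ n ∈ Finset.Ico (x + W * q) (x + y), c n := Finset.sum_nonneg fun n _ => (hc n).1
  have h4 : ∑ n ∈ Finset.Ico (x + W * q) (x + y), c n ≤ r := by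
    calc ∑ n ∈ Finset.Ico (x + W * q) (x + y), c n ≤ ∑ n ∈ Finset.Ico (x + W * q) (x + y), (1 : ℝ) :=
          Finset.sum_le_sum fun n _ => (hc n).2
      _ = r := by
        rw [Finset.sum_const, nsmul_eq_mul, mul_one, Nat.card_Ico]
        congr 1
        omega
  have h5 : 0 ≤ T := Finset.sum_nonneg fun n _ => (hc n).1
  have h6 : T ≤ W := by
    calc T ≤ ∑ n ∈ Finset.range W, (1 : ℝ) := Finset.sum_le_sum fun n _ => (hc n).2
      _ = W := by rw [Finset.sum_const, nsmul_eq_mul, mul_one, Finset.card_range]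
  have hyR : (y : ℝ) = W * q + r := by exact_mod_cast hy.symm
  have hrR : (r : ℝ) ≤ W := by exact_mod_cast hr.le
  have e2 : (y : ℝ) / W * T = q * T + r * (T / W) := by
    rw [hyR]
    field_simp
  have h7 : T / W ≤ 1 := (div_le_one hWR).2 h6
  have h8 : 0 ≤ (r : ℝ) * (T / W) := by positivity
  have h9 : (r : ℝ) * (T / W) ≤ r := mul_le_of_le_one_right (Nat.cast_nonneg _) h7
  rw [← e1, h2, e2, abs_le]
  constructor <;> linarith

/-- the values of the sorted system -/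
noncomputable def VV {k : ℕ} (f : Fin k → ℤ[X]) (σ : Equiv.Perm (Fin k)) (i n : ℕ) : ℕ :=
  if h : i < k then ((f (σ ⟨i, h⟩)).eval (n : ℤ)).toNat else 0

/-- the number of good residues -/
noncomputable def GP {k : ℕ} (f : Fin k → ℤ[X]) (W : ℕ) : Finset ℕ :=
  (Finset.range W).filter (fun a => IsCoprime ((∏ i, f i).eval (a : ℤ)) (W : ℤ))

lemma cop_per (F : ℤ[X]) (W n : ℕ) : IsCoprime (F.eval ((n + W : ℕ) : ℤ)) (W : ℤ) ↔
    IsCoprime (F.eval (n : ℤ)) (W : ℤ) := by
  obtain ⟨q, hq⟩ := Polynomial.sub_dvd_eval_sub ((n + W : ℕ) : ℤ) (n : ℤ) F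
  have e1 : F.eval ((n + W : ℕ) : ℤ) = F.eval (n : ℤ) + (W : ℤ) * q := by
    have : (((n + W : ℕ) : ℤ) - (n : ℤ)) = W := by push_cast; ring
    rw [this] at hq
    linarith
  rw [e1, IsCoprime.add_mul_left_left_iff]

/-- **the law for systems of polynomials** -/
theorem poly_law {Ω : Type} {m0 : MeasurableSpace Ω} {μ : Measure Ω} [IsProbabilityMeasure μ]
    {ℱ : Filtration ℕ m0} {A : ℕ → Set Ω} (hA : ∀ n, MeasurableSet[ℱ n] (A n)) {W : ℕ} (hW : 0 < W)
    (hd : ∀ᵐ ω ∂μ, ∀ ε : ℝ, 0 < ε → ∀ᶠ n : ℕ in atTop,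
      |dens μ ℱ A n ω - rhoW W (n + 1)| ≤ ε * rhoW W (n + 1))
    (k : ℕ) (f : Fin k → ℤ[X]) (hf : Function.Injective f)
    (hdeg : ∀ i, 0 < (f i).natDegree) (hlc : ∀ i, 0 < (f i).leadingCoeff) :
    ∀ᵐ ω ∂μ, ∀ ε : ℝ, 0 < ε → ∃ C : ℝ, 0 < C ∧ ∀ᶠ x : ℕ in atTop, ∀ y : ℕ, y ≤ x →
      |∑ n ∈ Finset.Ico x (x + y), ∏ i, In A ((f i).eval (n : ℤ)).toNat ω -
        (((GP f W).card : ℝ) / W * ((W : ℝ) / Nat.totient W) ^ k) * y /
          ((∏ i, ((f i).natDegree : ℝ)) * Real.log x ^ k)| ≤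
        ε * ((((GP f W).card : ℝ) / W * ((W : ℝ) / Nat.totient W) ^ k) * y /
          ((∏ i, ((f i).natDegree : ℝ)) * Real.log x ^ k)) + C * Real.log x := by
  classical
  obtain ⟨σ, n₁, hσ⟩ := sorted f hf
  set c : ℝ := (W : ℝ) / Nat.totient W with hc
  have hφ : 0 < Nat.totient W := Nat.totient_pos.2 hW
  have hWR : (0 : ℝ) < W := by exact_mod_cast hW
  have hc0 : 0 < c := by
    have : (0 : ℝ) < Nat.totient W := by exact_mod_cast hφ
    positivity
  -- a common threshold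
  have hall : ∀ᶠ n₀ : ℕ in atTop, ∀ i, (∀ a b : ℕ, n₀ ≤ a → a < b →
      (f i).eval (a : ℤ) < (f i).eval (b : ℤ)) ∧ ∀ n : ℕ, n₀ ≤ n → 0 < (f i).eval (n : ℤ) := by
    rw [eventually_all]
    intro i
    obtain ⟨a, ha⟩ := ev_inc (f i) (hlc i) (hdeg i)
    obtain ⟨b, hb⟩ := eventually_atTop.1 (ev_pos (f i) (hlc i))
    filter_upwards [eventually_ge_atTop a, eventually_ge_atTop b] with n h1 h2
    exact ⟨fun u v h3 h4 => ha u v (h1.trans h3) h4, fun u h3 => hb u (h2.trans h3)⟩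
  obtain ⟨n₀, hn₀, hn₁⟩ := (hall.and (eventually_ge_atTop n₁)).exists
  set E : ℕ := (∑ i, (f i).natDegree) + 1 with hE
  have hEi : ∀ i, (f i).natDegree < E := by
    intro i
    have h : (f i).natDegree ≤ ∑ i, (f i).natDegree :=
      Finset.single_le_sum (f := fun i => (f i).natDegree) (fun _ _ => Nat.zero_le _)
        (Finset.mem_univ i)
    omega
  have hVe : ∀ i (hi : i < k), ∀ n, VV f σ i n = ((f (σ ⟨i, hi⟩)).eval (n : ℤ)).toNat := by
    intro i hi n
    unfold VV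
    rw [dif_pos hi]
  set d : ℕ → ℝ := fun i => if h : i < k then ((f (σ ⟨i, h⟩)).natDegree : ℝ) else 0 with hdd
  have hde : ∀ i (hi : i < k), d i = ((f (σ ⟨i, hi⟩)).natDegree : ℝ) := by
    intro i hi
    simp only [hdd]
    rw [dif_pos hi]
  have hlaw := sys_law (μ := μ) hA hW hd k (VV f σ) n₀ (by
    intro i hi a b h1 h2
    rw [hVe i hi, hVe i hi]
    have h3 := (hn₀ (σ ⟨i, hi⟩)).1 a b h1 h2
    have h4 := (hn₀ (σ ⟨i, hi⟩)).2 a h1
    omega) (by
    intro i j hij hj n hn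
    rw [hVe i (hij.trans hj), hVe j hj]
    have h3 := hσ ⟨i, hij.trans hj⟩ ⟨j, hj⟩ hij n (hn₁.trans hn)
    have h4 := (hn₀ (σ ⟨i, hij.trans hj⟩)).2 n hn
    omega) d (by
    intro i hi
    rw [hde i hi]
    exact_mod_cast hdeg _) (by
    intro i hi η hη
    rw [hde i hi]
    filter_upwards [ev_log (f (σ ⟨i, hi⟩)) (hlc _) η hη] with n hn
    rw [hVe i hi]
    exact hn) E (by
    intro i hi
    filter_upwards [ev_pow (f (σ ⟨i, hi⟩)) (hlc _) E (hEi _)] with n hn
    rw [hVe i hi]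
    exact hn) k le_rfl
  -- the products
  have hPk : ∀ n ω, Pj A W k (VV f σ) k n ω = ∏ i, In A ((f i).eval (n : ℤ)).toNat ω := by
    intro n ω
    unfold Pj
    rw [Finset.Ico_self, Finset.prod_empty, mul_one, Finset.prod_range,
      ← Equiv.prod_comp σ (fun i => In A ((f i).eval (n : ℤ)).toNat ω)]
    refine Finset.prod_congr rfl fun i _ => ?_
    rw [hVe i.1 i.2]
  have hP0 : ∀ n ω, n₀ ≤ n → Pj A W k (VV f σ) 0 n ω =
      if IsCoprime ((∏ i, f i).eval (n : ℤ)) (W : ℤ) then 1 else 0 := by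
    intro n ω hn
    unfold Pj
    rw [Finset.range_zero, Finset.prod_empty, one_mul, ← Finset.range_eq_Ico, Finset.prod_range]
    have e1 : ∀ i : Fin k, (if Nat.Coprime (VV f σ i.1 n) W then (1 : ℝ) else 0) =
        (fun j => if IsCoprime ((f j).eval (n : ℤ)) (W : ℤ) then (1 : ℝ) else 0) (σ i) := by
      intro i
      rw [hVe i.1 i.2]
      have h4 := (hn₀ (σ ⟨i.1, i.2⟩)).2 n hn
      have h5 : ((((f (σ ⟨i.1, i.2⟩)).eval (n : ℤ)).toNat : ℕ) : ℤ) = (f (σ i)).eval (n : ℤ) :=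
        Int.toNat_of_nonneg h4.le
      have h6 : Nat.Coprime ((f (σ ⟨i.1, i.2⟩)).eval (n : ℤ)).toNat W ↔
          IsCoprime ((f (σ i)).eval (n : ℤ)) (W : ℤ) := by
        rw [← Nat.isCoprime_iff_coprime, h5]
      by_cases h7 : IsCoprime ((f (σ i)).eval (n : ℤ)) (W : ℤ)
      · rw [if_pos (h6.2 h7)]
        exact (if_pos h7).symm
      · rw [if_neg (fun h => h7 (h6.1 h))]
        exact (if_neg h7).symm
    rw [Finset.prod_congr rfl (fun i _ => e1 i), Equiv.prod_comp σ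
      (fun j => if IsCoprime ((f j).eval (n : ℤ)) (W : ℤ) then (1 : ℝ) else 0),
      Polynomial.eval_prod]
    have h8 : IsCoprime (∏ i, (f i).eval (n : ℤ)) (W : ℤ) ↔
        ∀ i, IsCoprime ((f i).eval (n : ℤ)) (W : ℤ) := by
      rw [IsCoprime.prod_left_iff]
      simp
    by_cases h9 : ∀ i, IsCoprime ((f i).eval (n : ℤ)) (W : ℤ)
    · rw [if_pos (h8.2 h9)]
      exact Finset.prod_eq_one fun i _ => if_pos (h9 i)
    · rw [if_neg (fun h => h9 (h8.1 h))]
      push Not at h9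
      obtain ⟨i, hi⟩ := h9
      exact Finset.prod_eq_zero (Finset.mem_univ i) (if_neg hi)
  have hDg : ∏ i ∈ Finset.range k, d i = ∏ i, ((f i).natDegree : ℝ) := by
    rw [Finset.prod_range, ← Equiv.prod_comp σ (fun i => ((f i).natDegree : ℝ))]
    refine Finset.prod_congr rfl fun i _ => ?_
    rw [hde i.1 i.2]
  set Dg := ∏ i, ((f i).natDegree : ℝ) with hDgdef
  have hDg1 : 1 ≤ Dg := by
    rw [hDgdef]
    have : 1 ≤ ∏ i, (f i).natDegree := Nat.one_le_iff_ne_zero.2
      (Finset.prod_ne_zero_iff.2 fun i _ => (hdeg i).ne')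
    exact_mod_cast this
  set chi : ℕ → ℝ := fun n => if IsCoprime ((∏ i, f i).eval (n : ℤ)) (W : ℤ) then 1 else 0 with hchi
  have hsumG : ∑ a ∈ Finset.range W, chi a = (GP f W).card := by
    unfold GP
    simp only [hchi]
    rw [Finset.sum_boole]
  filter_upwards [hlaw] with ω hω ε hε
  obtain ⟨C, hC0, hC⟩ := hω ε hε
  have hlogT : Tendsto (fun N : ℕ => Real.log (N : ℝ)) atTop atTop :=
    Real.tendsto_log_atTop.comp tendsto_natCast_atTop_atTop
  refine ⟨C + (ε + 1) * W, by positivity, ?_⟩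
  filter_upwards [hC, hlogT.eventually_ge_atTop (max 1 c), eventually_ge_atTop n₀,
    eventually_ge_atTop 1] with x h1 h2 h3 hx1 y hy
  have hlog1 : 1 ≤ Real.log (x : ℝ) := (le_max_left _ _).trans h2
  have hlogc : c ≤ Real.log (x : ℝ) := (le_max_right _ _).trans h2
  have hlog : 0 < Real.log (x : ℝ) := by linarith
  have h4 := h1 y hy
  have e1 : ∑ n ∈ Finset.Ico x (x + y), Pj A W k (VV f σ) k n ω =
      ∑ n ∈ Finset.Ico x (x + y), ∏ i, In A ((f i).eval (n : ℤ)).toNat ω :=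
    Finset.sum_congr rfl fun n _ => hPk n ω
  have e2 : ∑ n ∈ Finset.Ico x (x + y), Pj A W k (VV f σ) 0 n ω =
      ∑ n ∈ Finset.Ico x (x + y), chi n :=
    Finset.sum_congr rfl fun n hn => hP0 n ω (h3.trans (Finset.mem_Ico.1 hn).1)
  have e3 : ∏ i ∈ Finset.range k, c / (d i * Real.log x) = c ^ k / (Dg * Real.log x ^ k) := by
    rw [Finset.prod_div_distrib, Finset.prod_mul_distrib, hDg, Finset.prod_const,
      Finset.prod_const, Finset.card_range]
  rw [e1, e2, e3] at h4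
  have h5 := per_sum hW chi (fun n => by
    simp only [hchi]
    split_ifs
    · exact ⟨zero_le_one, le_rfl⟩
    · exact ⟨le_rfl, zero_le_one⟩) (fun n => by
    simp only [hchi]
    by_cases h : IsCoprime ((∏ i, f i).eval (n : ℤ)) (W : ℤ)
    · rw [if_pos h, if_pos ((cop_per _ W n).2 h)]
    · rw [if_neg h, if_neg (fun h' => h ((cop_per _ W n).1 h'))]) x y
  rw [hsumG] at h5
  set S := ∑ n ∈ Finset.Ico x (x + y), ∏ i, In A ((f i).eval (n : ℤ)).toNat ω with hS
  set R := ∑ n ∈ Finset.Ico x (x + y), chi n with hR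
  set D := c ^ k / (Dg * Real.log x ^ k) with hD
  have hD0 : 0 ≤ D := by positivity
  have hD1 : D ≤ 1 := by
    rw [hD, div_le_one (by positivity)]
    calc c ^ k ≤ Real.log x ^ k := pow_le_pow_left₀ hc0.le hlogc k
      _ ≤ Dg * Real.log x ^ k := le_mul_of_one_le_left (by positivity) hDg1
  have e4 : ((GP f W).card : ℝ) / W * c ^ k * y / (Dg * Real.log x ^ k) =
      D * ((y : ℝ) / W * (GP f W).card) := by
    rw [hD]
    ring
  rw [e4]
  set M := D * ((y : ℝ) / W * (GP f W).card) with hM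
  have h6 : |D * R - M| ≤ W := by
    have : D * R - M = D * (R - (y : ℝ) / W * (GP f W).card) := by rw [hM]; ring
    rw [this, abs_mul, abs_of_nonneg hD0]
    calc D * |R - (y : ℝ) / W * (GP f W).card| ≤ 1 * |R - (y : ℝ) / W * (GP f W).card| :=
          mul_le_mul_of_nonneg_right hD1 (abs_nonneg _)
      _ ≤ W := by rw [one_mul]; exact h5
  have a1 := abs_le.1 h4
  have a2 := abs_le.1 h6
  have g1 : ε * (D * R) ≤ ε * (M + W) := mul_le_mul_of_nonneg_left (by linarith) hε.le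
  have g2 : (ε + 1) * W * 1 ≤ (ε + 1) * W * Real.log x :=
    mul_le_mul_of_nonneg_left hlog1 (by positivity)
  rw [abs_le]
  constructor <;> nlinarith

end Pool.Agent.N9.AD
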