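import Mathlib
import Pool.Agent.N9.AD.Poly2

set_option autoImplicit false
set_option linter.unusedSectionVars false

/-! # Deterministic lemmas for systems of polynomials -/

open MeasureTheory Filter Set Polynomial
open scoped ENNReal Topology

namespace Pool.Agent.N9.AD

/-- a positive count in a short interval -/
lemma short (S : ℕ → ℕ → ℝ) (τ : ℝ) (hτ : 0 < τ) (k : ℕ)
    (h : ∃ C : ℝ, 0 < C ∧ ∀ᶠ x : ℕ in atTop, ∀ y : ℕ, y ≤ x →
      |S x y - τ * y / Real.log x ^ k| ≤ 1 / 2 * (τ * y / Real.log x ^ k) + C * Real.log x) :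
    ∃ K : ℝ, ∀ᶠ x : ℕ in atTop, ∃ y : ℕ, (y : ℝ) ≤ K * Real.log x ^ (k + 1) ∧ 0 < S x y := by
  obtain ⟨C, hC0, hC⟩ := h
  have hlogT : Tendsto (fun N : ℕ => Real.log (N : ℝ)) atTop atTop :=
    Real.tendsto_log_atTop.comp tendsto_natCast_atTop_atTop
  have h2 := (isLittleO_log_rpow_rpow_atTop ((k + 1 : ℕ) : ℝ) (show (0 : ℝ) < 1 by norm_num)).bound
    (show (0 : ℝ) < 1 / (4 * C / τ + 1) by positivity)
  refine ⟨4 * C / τ + 1, ?_⟩
  filter_upwards [hC, hlogT.eventually_ge_atTop 1, tendsto_natCast_atTop_atTop.eventually h2,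
    eventually_ge_atTop 1] with x h1 hl h3 hx1
  have hlog : 0 < Real.log (x : ℝ) := by linarith
  have hx : (1 : ℝ) ≤ x := by exact_mod_cast hx1
  rw [Real.norm_eq_abs, Real.norm_eq_abs, abs_of_nonneg (Real.rpow_nonneg hlog.le _),
    abs_of_nonneg (Real.rpow_nonneg (by linarith) _), Real.rpow_natCast, Real.rpow_one, one_div,
    ← div_eq_inv_mul, le_div_iff₀ (by positivity)] at h3
  set L := Real.log (x : ℝ) with hL
  have hL1 : 1 ≤ L ^ (k + 1) := one_le_pow₀ hl
  have e1 : (⌈4 * C / τ * L ^ (k + 1)⌉₊ : ℝ) ≤ (4 * C / τ + 1) * L ^ (k + 1) := by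
    have := (Nat.ceil_lt_add_one (show 0 ≤ 4 * C / τ * L ^ (k + 1) by positivity)).le
    linarith
  refine ⟨⌈4 * C / τ * L ^ (k + 1)⌉₊, e1, ?_⟩
  have e2 : ⌈4 * C / τ * L ^ (k + 1)⌉₊ ≤ x := by
    have : (⌈4 * C / τ * L ^ (k + 1)⌉₊ : ℝ) ≤ x := by linarith
    exact_mod_cast this
  have h4 := (abs_le.1 (h1 _ e2)).1
  have e3 : 4 * C / τ * L ^ (k + 1) ≤ (⌈4 * C / τ * L ^ (k + 1)⌉₊ : ℝ) := Nat.le_ceil _
  set y := (⌈4 * C / τ * L ^ (k + 1)⌉₊ : ℝ) with hy
  have e4 : 4 * C * L ≤ τ * y / L ^ k := by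
    rw [le_div_iff₀ (by positivity)]
    calc 4 * C * L * L ^ k = τ * (4 * C / τ * L ^ (k + 1)) := by
          rw [pow_succ]
          field_simp
      _ ≤ τ * y := mul_le_mul_of_nonneg_left e3 hτ.le
  have e5 : 0 < C * L := by positivity
  linarith

/-- a good residue class exists -/
lemma good_class (Q : Finset ℕ) (hQ : ∀ p ∈ Q, p.Prime) (F : ℤ[X])
    (h : ∀ p ∈ Q, ∃ n : ℤ, ¬ (p : ℤ) ∣ F.eval n) :
    ∃ a : ℕ, a < ∏ p ∈ Q, p ∧ IsCoprime (F.eval (a : ℤ)) ((∏ p ∈ Q, p : ℕ) : ℤ) := by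
  classical
  have h1 : ∀ p : ℕ, ∃ n : ℕ, p ∈ Q → ¬ (p : ℤ) ∣ F.eval (n : ℤ) := by
    intro p
    by_cases hp : p ∈ Q
    · obtain ⟨n, hn⟩ := h p hp
      have hp0 : (0 : ℤ) < p := by exact_mod_cast (hQ p hp).pos
      refine ⟨(n % p).toNat, fun _ hdiv => hn ?_⟩
      have e1 : (((n % p).toNat : ℕ) : ℤ) = n % p := Int.toNat_of_nonneg (Int.emod_nonneg _ hp0.ne')
      rw [e1] at hdiv
      have e2 : n - n % p ∣ F.eval n - F.eval (n % p) := Polynomial.sub_dvd_eval_sub _ _ _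
      have e3 : (p : ℤ) ∣ n - n % p := Int.dvd_self_sub_emod
      have e4 := dvd_add (e3.trans e2) hdiv
      rwa [sub_add_cancel] at e4
    · exact ⟨0, fun h => absurd h hp⟩
  choose u hu using h1
  obtain ⟨m, hm⟩ := Nat.chineseRemainderOfFinset u (fun p => p) Q (fun p hp => (hQ p hp).ne_zero) (by
    intro p hp q hq hpq
    exact (Nat.coprime_primes (hQ p hp) (hQ q hq)).2 hpq)
  have hW : 0 < ∏ p ∈ Q, p := Finset.prod_pos fun q hq => (hQ q hq).pos
  refine ⟨m % ∏ p ∈ Q, p, Nat.mod_lt _ hW, ?_⟩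
  rw [Nat.cast_prod]
  apply IsCoprime.prod_right
  intro p hp
  have hpp : Prime (p : ℤ) := Nat.prime_iff_prime_int.1 (hQ p hp)
  rw [isCoprime_comm, hpp.coprime_iff_not_dvd]
  intro hdiv
  apply hu p hp
  have e1 : ((m % ∏ p ∈ Q, p : ℕ)) ≡ u p [MOD p] :=
    ((Nat.mod_modEq m _).of_dvd (Finset.dvd_prod_of_mem _ hp)).trans (hm p hp)
  have e2 : (p : ℤ) ∣ ((u p : ℕ) : ℤ) - ((m % ∏ p ∈ Q, p : ℕ) : ℤ) := (Nat.modEq_iff_dvd.1 e1)
  have e3 : ((u p : ℕ) : ℤ) - ((m % ∏ p ∈ Q, p : ℕ) : ℤ) ∣ F.eval ((u p : ℕ) : ℤ) -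
      F.eval ((m % ∏ p ∈ Q, p : ℕ) : ℤ) := Polynomial.sub_dvd_eval_sub _ _ _
  have e4 := dvd_add (e2.trans e3) hdiv
  rwa [sub_add_cancel] at e4

/-- `log x` for `X ≤ 2 x` -/
lemma log_halfP (k : ℕ) (δ : ℝ) (hδ : 0 < δ) : ∀ᶠ X : ℕ in atTop, ∀ x : ℕ, X ≤ 2 * x → x ≤ X →
    Real.log (X : ℝ) ^ k ≤ (1 + δ) * Real.log (x : ℝ) ^ k := by
  have h1 : Tendsto (fun t : ℝ => (1 + t) ^ k) (𝓝 0) (𝓝 ((1 + 0) ^ k)) :=
    (Continuous.tendsto (by continuity) 0)
  rw [add_zero, one_pow] at h1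
  have h2 : ∀ᶠ t : ℝ in 𝓝 0, (1 + t) ^ k < 1 + δ := h1.eventually_lt_const (by linarith)
  obtain ⟨r, hr0, hr⟩ := Metric.eventually_nhds_iff.1 h2
  have hlogT : Tendsto (fun N : ℕ => Real.log (N : ℝ)) atTop atTop :=
    Real.tendsto_log_atTop.comp tendsto_natCast_atTop_atTop
  filter_upwards [hlogT.eventually_ge_atTop (2 / r + 1), eventually_ge_atTop 2] with X h3 h4 x h5 h6
  have hx0 : (0 : ℝ) < x := by
    have : 0 < x := by omega
    exact_mod_cast this
  have h7 : Real.log (X : ℝ) ≤ Real.log 2 + Real.log x := by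
    rw [← Real.log_mul (by norm_num) hx0.ne']
    apply Real.log_le_log
    · have : 0 < X := by omega
      exact_mod_cast this
    · exact_mod_cast h5
  have h8 : Real.log 2 ≤ 1 := by
    have := Real.log_two_lt_d9
    linarith
  have h9 : 2 / r ≤ Real.log (x : ℝ) := by linarith
  have h10 : 0 < Real.log (x : ℝ) := lt_of_lt_of_le (by positivity) h9
  have h11 : Real.log (X : ℝ) ≤ (1 + r / 2) * Real.log x := by
    rw [div_le_iff₀ hr0] at h9
    linarith
  have h12 : (1 + r / 2) ^ k < 1 + δ := by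
    apply hr
    rw [Real.dist_eq, sub_zero, abs_of_pos (by positivity)]
    linarith
  calc Real.log (X : ℝ) ^ k ≤ ((1 + r / 2) * Real.log x) ^ k :=
        pow_le_pow_left₀ (Real.log_natCast_nonneg X) h11 k
    _ = (1 + r / 2) ^ k * Real.log x ^ k := mul_pow _ _ _
    _ ≤ (1 + δ) * Real.log x ^ k := mul_le_mul_of_nonneg_right h12.le (by positivity)

/-- a contraction under halving -/
lemma halving (e : ℕ → ℝ) (he : ∀ X, 0 ≤ e X)
    (h : ∀ ε : ℝ, 0 < ε → ∀ᶠ X : ℕ in atTop, e X ≤ 4 / 5 * e ((X + 1) / 2) + ε) :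
    Tendsto e atTop (𝓝 0) := by
  obtain ⟨X₁, hX₁⟩ := eventually_atTop.1 (h 1 one_pos)
  -- bounded
  obtain ⟨B, hB0, hB⟩ : ∃ B : ℝ, 0 < B ∧ ∀ X, e X ≤ B := by
    set M := ∑ X ∈ Finset.range (X₁ + 2), e X with hM
    have hM0 : 0 ≤ M := Finset.sum_nonneg fun X _ => he X
    refine ⟨M + 5, by positivity, ?_⟩
    intro X
    induction X using Nat.strong_induction_on with
    | _ X ih =>
      rcases Nat.lt_or_ge X (X₁ + 2) with h1 | h1
      · have := Finset.single_le_sum (f := e) (fun X _ => he X) (Finset.mem_range.2 h1)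
        linarith
      · have h2 := hX₁ X (by omega)
        have h3 := ih ((X + 1) / 2) (by omega)
        linarith
  have key : ∀ j : ℕ, ∀ ε : ℝ, 0 < ε → ∀ᶠ X : ℕ in atTop, e X ≤ (4 / 5) ^ j * B + ε := by
    intro j
    induction j with
    | zero =>
      intro ε hε
      filter_upwards with X
      have := hB X
      rw [pow_zero, one_mul]
      linarith
    | succ j ih =>
      intro ε hε
      have h1 := ih (ε / 2) (by positivity)
      have h2 : Tendsto (fun X : ℕ => (X + 1) / 2) atTop atTop := by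
        refine tendsto_atTop.2 fun b => ?_
        filter_upwards [eventually_ge_atTop (2 * b)] with X hX
        omega
      filter_upwards [h (ε / 2) (by positivity), h2.eventually h1] with X h3 h4
      rw [pow_succ]
      nlinarith
  rw [Metric.tendsto_atTop]
  intro ε hε
  obtain ⟨j, hj⟩ := exists_pow_lt_of_lt_one (show 0 < ε / 2 / B by positivity) (show (4 / 5 : ℝ) < 1 by norm_num)
  obtain ⟨N, hN⟩ := eventually_atTop.1 (key j (ε / 3) (by positivity))
  refine ⟨N, fun X hX => ?_⟩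
  rw [Real.dist_eq, sub_zero, abs_of_nonneg (he X)]
  have h1 := hN X hX
  rw [lt_div_iff₀ hB0] at hj
  linarith

/-- from short intervals to the count up to `X` -/
lemma glob (F : ℕ → ℝ) (τ : ℝ) (hτ : 0 ≤ τ) (k : ℕ)
    (h : ∀ ε : ℝ, 0 < ε → ∀ᶠ x : ℕ in atTop, ∀ y : ℕ, y ≤ x →
      |∑ n ∈ Finset.Ico x (x + y), F n - τ * y / Real.log x ^ k| ≤ ε * (x / Real.log x ^ k)) :
    Tendsto (fun X : ℕ => (∑ n ∈ Finset.range X, F n) * Real.log X ^ k / X) atTop (𝓝 τ) := by
  set S : ℕ → ℝ := fun X => ∑ n ∈ Finset.range X, F n with hS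
  set e : ℕ → ℝ := fun X => |S X - τ * X / Real.log X ^ k| * (Real.log X ^ k / X) with he
  have hlogT : Tendsto (fun N : ℕ => Real.log (N : ℝ)) atTop atTop :=
    Real.tendsto_log_atTop.comp tendsto_natCast_atTop_atTop
  have he0 : ∀ X, 0 ≤ e X := by
    intro X
    have := Real.log_natCast_nonneg X
    positivity
  have h1 : Tendsto e atTop (𝓝 0) := by
    apply halving e he0
    intro ε hε
    have h2 : Tendsto (fun X : ℕ => (X + 1) / 2) atTop atTop := by
      refine tendsto_atTop.2 fun b => ?_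
      filter_upwards [eventually_ge_atTop (2 * b)] with X hX
      omega
    have hδ : 0 < min (1 / 5) (ε / (2 * (τ + 1))) := by positivity
    filter_upwards [log_halfP k (min (1 / 5) (ε / (2 * (τ + 1)))) hδ,
      h2.eventually (h (ε / 4) (by positivity)), eventually_ge_atTop 10,
      h2.eventually (hlogT.eventually_ge_atTop 1)] with X h3 h4 h5 h6
    have hxX : X ≤ 2 * ((X + 1) / 2) := by omega
    have hxX2 : (X + 1) / 2 ≤ X := by omega
    have hx10 : 20 * ((X + 1) / 2) ≤ 11 * X := by omega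
    have h7 := h3 _ hxX hxX2
    have h8 := h4 (X - (X + 1) / 2) (by omega)
    have hadd : (X + 1) / 2 + (X - (X + 1) / 2) = X := by omega
    have hx1 : 5 ≤ (X + 1) / 2 := by omega
    have hsub : ((X - (X + 1) / 2 : ℕ) : ℝ) = (X : ℝ) - ((X + 1) / 2 : ℕ) := by
      rw [Nat.cast_sub hxX2]
    rw [hadd, hsub] at h8
    generalize (X + 1) / 2 = x at h6 h7 h8 hxX hxX2 hx10 hx1 ⊢
    have hXR : (10 : ℝ) ≤ X := by exact_mod_cast h5
    have hxR : (5 : ℝ) ≤ x := by exact_mod_cast hx1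
    have hx10R : 20 * (x : ℝ) ≤ 11 * X := by exact_mod_cast hx10
    have hxXR : (x : ℝ) ≤ X := by exact_mod_cast hxX2
    have hSx : S X = S x + ∑ n ∈ Finset.Ico x X, F n := by
      simp only [hS]
      rw [Finset.range_eq_Ico, Finset.range_eq_Ico, Finset.sum_Ico_consecutive _ (Nat.zero_le _) hxX2]
    set Lx := Real.log (x : ℝ) ^ k with hLx
    set LX := Real.log (X : ℝ) ^ k with hLX
    have hLx0 : 0 < Lx := by positivity
    have hlogle : Real.log (x : ℝ) ≤ Real.log X := Real.log_le_log (by linarith) hxXR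
    have hLle : Lx ≤ LX := pow_le_pow_left₀ (by linarith) hlogle k
    have hLX0 : 0 < LX := by linarith
    set δ := min (1 / 5) (ε / (2 * (τ + 1))) with hδd
    have hδ5 : δ ≤ 1 / 5 := min_le_left _ _
    have hδε : δ * (2 * (τ + 1)) ≤ ε := by
      have : δ ≤ ε / (2 * (τ + 1)) := min_le_right _ _
      rwa [le_div_iff₀ (by positivity)] at this
    -- the error for `X`
    have g1 : |S X - τ * X / LX| ≤ |S x - τ * x / Lx| + ε / 4 * (x / Lx) + (τ * X / Lx - τ * X / LX) := by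
      have g2 : S X - τ * X / LX = (S x - τ * x / Lx) + (∑ n ∈ Finset.Ico x X, F n - τ * (X - x) / Lx) +
          (τ * X / Lx - τ * X / LX) := by
        rw [hSx]
        ring
      have g3 : 0 ≤ τ * X / Lx - τ * X / LX := by
        have : τ * X / LX ≤ τ * X / Lx := by gcongr
        linarith
      rw [g2]
      calc |(S x - τ * x / Lx) + (∑ n ∈ Finset.Ico x X, F n - τ * (X - x) / Lx) +
          (τ * X / Lx - τ * X / LX)| ≤ |S x - τ * x / Lx| + |∑ n ∈ Finset.Ico x X, F n - τ * (X - x) / Lx| +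
            |τ * X / Lx - τ * X / LX| := abs_add_three _ _ _
        _ ≤ _ := by
          rw [abs_of_nonneg g3]
          linarith
    have g4 : e X ≤ |S x - τ * x / Lx| * (LX / X) + ε / 4 * (x / Lx) * (LX / X) +
        (τ * X / Lx - τ * X / LX) * (LX / X) := by
      have : e X = |S X - τ * X / LX| * (LX / X) := rfl
      rw [this, ← add_mul, ← add_mul]
      exact mul_le_mul_of_nonneg_right g1 (by positivity)
    have hx0 : (0 : ℝ) < x := by linarith
    have hX0 : (0 : ℝ) < X := by linarith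
    -- three terms
    have t1 : |S x - τ * x / Lx| * (LX / X) ≤ 4 / 5 * e x := by
      have : e x = |S x - τ * x / Lx| * (Lx / x) := rfl
      rw [this]
      have q1 : LX / X ≤ 4 / 5 * (Lx / x) := by
        rw [← mul_div_assoc, div_le_div_iff₀ hX0 hx0]
        have q2 : LX * x ≤ (1 + δ) * Lx * x := mul_le_mul_of_nonneg_right h7 hx0.le
        have q3 : (1 + δ) * Lx * x ≤ 6 / 5 * Lx * x := by
          have : (1 + δ) ≤ 6 / 5 := by linarith
          gcongr
        have q4 : 6 / 5 * Lx * x ≤ 6 / 5 * Lx * (11 / 20 * X) := by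
          apply mul_le_mul_of_nonneg_left _ (by positivity)
          linarith
        nlinarith [mul_pos hLx0 hX0]
      calc |S x - τ * x / Lx| * (LX / X) ≤ |S x - τ * x / Lx| * (4 / 5 * (Lx / x)) :=
            mul_le_mul_of_nonneg_left q1 (abs_nonneg _)
        _ = _ := by ring
    have t2 : ε / 4 * (x / Lx) * (LX / X) ≤ ε / 2 := by
      have q1 : (x / Lx) * (LX / X) ≤ 2 := by
        rw [div_mul_div_comm, div_le_iff₀ (by positivity)]
        have q2 : (x : ℝ) * LX ≤ X * ((1 + δ) * Lx) := mul_le_mul hxXR h7 hLX0.le hX0.le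
        have q3 : (X : ℝ) * ((1 + δ) * Lx) ≤ X * (2 * Lx) := by
          have : (1 + δ) ≤ 2 := by linarith
          gcongr
        nlinarith
      calc ε / 4 * (x / Lx) * (LX / X) = ε / 4 * ((x / Lx) * (LX / X)) := by ring
        _ ≤ ε / 4 * 2 := mul_le_mul_of_nonneg_left q1 (by positivity)
        _ = _ := by ring
    have t3 : (τ * X / Lx - τ * X / LX) * (LX / X) ≤ ε / 2 := by
      have q1 : (τ * X / Lx - τ * X / LX) * (LX / X) = τ * (LX / Lx - 1) := by
        field_simp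
      rw [q1]
      have q2 : LX / Lx - 1 ≤ δ := by
        have : LX / Lx ≤ 1 + δ := by rwa [div_le_iff₀ hLx0]
        linarith
      calc τ * (LX / Lx - 1) ≤ τ * δ := mul_le_mul_of_nonneg_left q2 hτ
        _ ≤ ε / 2 := by nlinarith
    linarith
  rw [tendsto_iff_norm_sub_tendsto_zero]
  refine h1.congr' ?_
  filter_upwards [hlogT.eventually_ge_atTop 1, eventually_ge_atTop 1] with X h2 h3
  have hX0 : (0 : ℝ) < X := by exact_mod_cast h3
  have hL0 : 0 < Real.log (X : ℝ) ^ k := by positivity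
  rw [Real.norm_eq_abs]
  simp only [he]
  rw [← abs_of_pos (show 0 < Real.log (X : ℝ) ^ k / X by positivity), ← abs_mul]
  congr 1
  field_simp
  simp only [hS]
  ring

end Pool.Agent.N9.AD
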